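import Mathlib

/-!
Grammar forms and EOL forms.  Symbols are natural numbers (a fixed countably infinite universe
of symbols), alphabets are finite sets of them and words are lists.
-/

namespace Pool.Agent.P.MP_1e6486_lc

/-- A quadruple `(V, Σ, P, S)`: total alphabet `V`, terminal alphabet `T` (that is, `Σ`),
finite set `P` of productions `X → α` written `(X, α)`, and start symbol `S`. -/
structure Grammar where
  V : Finset ℕ
  T : Finset ℕ
  P : Finset (ℕ × List ℕ)
  S : ℕ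

/-- `Σ ⊆ V`, `S ∈ V` and every production is over `V`. -/
def Grammar.WF (G : Grammar) : Prop :=
  G.T ⊆ G.V ∧ G.S ∈ G.V ∧ ∀ p ∈ G.P, p.1 ∈ G.V ∧ ∀ x ∈ p.2, x ∈ G.V

/-- Context-free grammar: the start symbol and all left-hand sides are nonterminals. -/
def IsCF (G : Grammar) : Prop :=
  G.WF ∧ G.S ∉ G.T ∧ ∀ p ∈ G.P, p.1 ∉ G.T

/-- Linear grammar: every right-hand side contains at most one nonterminal. -/
def IsLinear (G : Grammar) : Prop :=
  IsCF G ∧ ∀ p ∈ G.P, p.2.countP (fun x => x ∉ G.T) ≤ 1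

/-- EOL grammar: every symbol of `V`, terminals included, has a production. -/
def IsEOL (G : Grammar) : Prop :=
  G.WF ∧ ∀ X ∈ G.V, ∃ α, (X, α) ∈ G.P

/-- Sequential derivation step: one occurrence of a symbol is rewritten. -/
def cfStep (G : Grammar) (x y : List ℕ) : Prop :=
  ∃ (l r : List ℕ) (A : ℕ) (α : List ℕ), (A, α) ∈ G.P ∧ x = l ++ [A] ++ r ∧ y = l ++ α ++ r

/-- Parallel derivation step: all symbols of the word are rewritten simultaneously. -/
def eolStep (G : Grammar) (x y : List ℕ) : Prop :=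
  ∃ αs : List (List ℕ), List.Forall₂ (fun X α => (X, α) ∈ G.P) x αs ∧ y = αs.flatten

/-- The language of a context-free grammar. -/
def cfLang (G : Grammar) : Set (List ℕ) :=
  {w | (∀ a ∈ w, a ∈ G.T) ∧ Relation.ReflTransGen (cfStep G) [G.S] w}

/-- The language of an EOL grammar. -/
def eolLang (G : Grammar) : Set (List ℕ) :=
  {w | (∀ a ∈ w, a ∈ G.T) ∧ Relation.ReflTransGen (eolStep G) [G.S] w}

/-- `G₁` is an s-interpretation of `G₂`. -/
def SInterp (G₁ G₂ : Grammar) : Prop :=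
  ∃ μ : ℕ → Finset ℕ,
    (∀ a ∈ G₂.T, μ a ⊆ G₁.T) ∧
    (∀ A ∈ G₂.V \ G₂.T, μ A ⊆ G₁.V \ G₁.T) ∧
    (∀ X ∈ G₂.V, ∀ Y ∈ G₂.V, X ≠ Y → Disjoint (μ X) (μ Y)) ∧
    (∀ p ∈ G₁.P, ∃ q ∈ G₂.P, p.1 ∈ μ q.1 ∧ List.Forall₂ (fun x' x => x' ∈ μ x) p.2 q.2) ∧
    G₁.S ∈ μ G₂.S

/-- The s-grammatical family `L_s(G)` of a context-free grammar form `G`. -/
def famS (G : Grammar) : Set (Set (List ℕ)) :=
  {L | ∃ G', IsCF G' ∧ SInterp G' G ∧ L = cfLang G'}

/-- The family `L(H)` of an EOL form `H`. -/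
def famEOL (H : Grammar) : Set (Set (List ℕ)) :=
  {L | ∃ H', IsEOL H' ∧ SInterp H' H ∧ L = eolLang H'}

/-- The family of linear context-free languages. -/
def famLIN : Set (Set (List ℕ)) :=
  {L | ∃ G, IsLinear G ∧ L = cfLang G}

/-- Every language of `F` equals a language of `F'` up to the empty word. -/
def FamLE (F F' : Set (Set (List ℕ))) : Prop :=
  ∀ L ∈ F, ∃ L' ∈ F', L \ {[]} = L' \ {[]}

/-- Equality of language families up to the empty word. -/
def FamEq (F F' : Set (Set (List ℕ))) : Prop :=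
  FamLE F F' ∧ FamLE F' F

end Pool.Agent.P.MP_1e6486_lc
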