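import Mathlib
import Pool.Agent.P.MP_1e6486_lc.Defs

/-!
Big-step derivations for context-free grammars and the pumping lemma.
-/

namespace Pool.Agent.P.MP_1e6486_lc

/-- Big-step derivation relation between sentential forms. -/
inductive Gen (G : Grammar) : List ℕ → List ℕ → Prop
  | nil : Gen G [] []
  | keep (X : ℕ) {α δ : List ℕ} : Gen G α δ → Gen G (X :: α) (X :: δ)
  | nt {A : ℕ} {γ δ₁ α δ₂ : List ℕ} : (A, γ) ∈ G.P → Gen G γ δ₁ → Gen G α δ₂ →
      Gen G (A :: α) (δ₁ ++ δ₂)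

/-- Words over the terminal alphabet. -/
def Term (G : Grammar) (w : List ℕ) : Prop := ∀ a ∈ w, a ∈ G.T

variable {G : Grammar}

theorem term_nil : Term G [] := by simp [Term]

theorem term_append {u v : List ℕ} : Term G (u ++ v) ↔ Term G u ∧ Term G v := by
  simp only [Term, List.mem_append]
  exact ⟨fun h => ⟨fun a ha => h a (Or.inl ha), fun a ha => h a (Or.inr ha)⟩,
    fun h a ha => ha.elim (h.1 a) (h.2 a)⟩

theorem term_cons {a : ℕ} {v : List ℕ} : Term G (a :: v) ↔ a ∈ G.T ∧ Term G v := by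
  simp [Term]

theorem Gen.refl (α : List ℕ) : Gen G α α := by
  induction α with
  | nil => exact Gen.nil
  | cons X α ih => exact Gen.keep X ih

theorem Gen.append {α δ β ε : List ℕ} (h : Gen G α δ) (h' : Gen G β ε) :
    Gen G (α ++ β) (δ ++ ε) := by
  induction h with
  | nil => simpa using h'
  | keep X _ ih => exact Gen.keep X ih
  | nt hp h1 _ _ ih2 => rw [List.append_assoc]; exact Gen.nt hp h1 ih2

theorem Gen.nil_left {δ : List ℕ} (h : Gen G [] δ) : δ = [] := by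
  cases h; rfl

theorem Gen.split {α β δ : List ℕ} (h : Gen G (α ++ β) δ) :
    ∃ δ₁ δ₂, δ = δ₁ ++ δ₂ ∧ Gen G α δ₁ ∧ Gen G β δ₂ := by
  induction α generalizing δ with
  | nil => exact ⟨[], δ, rfl, Gen.nil, h⟩
  | cons X α ih =>
    rw [List.cons_append] at h
    cases h with
    | keep _ h =>
      obtain ⟨d1, d2, rfl, h1, h2⟩ := ih h
      exact ⟨X :: d1, d2, rfl, Gen.keep X h1, h2⟩
    | nt hp h1 h2 =>
      obtain ⟨d1, d2, rfl, h3, h4⟩ := ih h2
      exact ⟨_ ++ d1, d2, by simp, Gen.nt hp h1 h3, h4⟩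

theorem Gen.split_cons {X : ℕ} {β δ : List ℕ} (h : Gen G (X :: β) δ) :
    ∃ δ₁ δ₂, δ = δ₁ ++ δ₂ ∧ Gen G [X] δ₁ ∧ Gen G β δ₂ :=
  Gen.split (α := [X]) h

theorem Gen.split3 {α β δ : List ℕ} {X : ℕ} (h : Gen G (α ++ X :: β) δ) :
    ∃ δ₁ δ₂ δ₃, δ = δ₁ ++ δ₂ ++ δ₃ ∧ Gen G α δ₁ ∧ Gen G [X] δ₂ ∧ Gen G β δ₃ := by
  obtain ⟨d1, d, rfl, h1, h2⟩ := h.split
  obtain ⟨d2, d3, rfl, h3, h4⟩ := h2.split_cons
  exact ⟨d1, d2, d3, by simp, h1, h3, h4⟩

theorem Gen.append3 {α β δ₁ δ₂ δ₃ : List ℕ} {X : ℕ} (h1 : Gen G α δ₁) (h2 : Gen G [X] δ₂)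
    (h3 : Gen G β δ₃) : Gen G (α ++ X :: β) (δ₁ ++ δ₂ ++ δ₃) := by
  have := h1.append (h2.append h3)
  simpa using this

theorem Gen.trans {α δ ε : List ℕ} (h : Gen G α δ) (h' : Gen G δ ε) : Gen G α ε := by
  induction h generalizing ε with
  | nil => exact h'
  | keep X _ ih =>
    obtain ⟨d1, d2, rfl, h1, h2⟩ := h'.split_cons
    exact Gen.append (α := [X]) h1 (ih h2)
  | nt hp _ _ ih1 ih2 =>
    obtain ⟨d1, d2, rfl, h1, h2⟩ := h'.split
    exact Gen.nt hp (ih1 h1) (ih2 h2)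

theorem Gen.prod {A : ℕ} {γ δ : List ℕ} (hp : (A, γ) ∈ G.P) (h : Gen G γ δ) : Gen G [A] δ := by
  simpa using Gen.nt hp h Gen.nil

theorem Gen.single_cases {A : ℕ} {δ : List ℕ} (h : Gen G [A] δ) :
    δ = [A] ∨ ∃ γ, (A, γ) ∈ G.P ∧ Gen G γ δ := by
  cases h with
  | keep _ h => rw [h.nil_left]; exact Or.inl rfl
  | nt hp h1 h2 => rw [h2.nil_left, List.append_nil]; exact Or.inr ⟨_, hp, h1⟩

theorem rtg_context {x y : List ℕ} (l r : List ℕ)
    (h : Relation.ReflTransGen (cfStep G) x y) :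
    Relation.ReflTransGen (cfStep G) (l ++ x ++ r) (l ++ y ++ r) := by
  induction h with
  | refl => exact Relation.ReflTransGen.refl
  | tail _ hs ih =>
    obtain ⟨l', r', A, α, hp, rfl, rfl⟩ := hs
    exact ih.tail ⟨l ++ l', r' ++ r, A, α, hp, by simp, by simp⟩

theorem gen_iff_rtg {x y : List ℕ} : Gen G x y ↔ Relation.ReflTransGen (cfStep G) x y := by
  constructor
  · intro h
    induction h with
    | nil => exact Relation.ReflTransGen.refl
    | keep X _ ih => simpa using rtg_context [X] [] ih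
    | @nt A γ δ₁ α δ₂ hp _ _ ih1 ih2 =>
      have s1 : cfStep G (A :: α) (γ ++ α) := ⟨[], α, A, γ, hp, by simp, by simp⟩
      have s2 := rtg_context [] α ih1
      have s3 := rtg_context δ₁ [] ih2
      simp only [List.nil_append, List.append_nil] at s2 s3
      exact Relation.ReflTransGen.head s1 (s2.trans s3)
  · intro h
    induction h with
    | refl => exact Gen.refl _
    | tail _ hs ih =>
      obtain ⟨l, r, A, α, hp, rfl, rfl⟩ := hs
      refine ih.trans ?_
      exact ((Gen.refl l).append (Gen.prod hp (Gen.refl α))).append (Gen.refl r)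

theorem mem_cfLang {w : List ℕ} : w ∈ cfLang G ↔ Term G w ∧ Gen G [G.S] w := by
  simp only [cfLang, Set.mem_ofPred_eq, gen_iff_rtg, Term]

theorem Gen.of_term (hG : IsCF G) {w δ : List ℕ} (hw : Term G w) (h : Gen G w δ) : δ = w := by
  induction h with
  | nil => rfl
  | keep X _ ih => rw [ih (term_cons.mp hw).2]
  | nt hp _ _ _ _ => exact absurd (term_cons.mp hw).1 (hG.2.2 _ hp)

/-- Induction principle over derivation trees. -/
theorem Gen.ind {Q : ℕ → List ℕ → Prop} (hk : ∀ X, Q X [X])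
    (hn : ∀ A γ ws, (A, γ) ∈ G.P →
      List.Forall₂ (fun X w => Gen G [X] w ∧ Q X w) γ ws → Q A ws.flatten)
    {X : ℕ} {w : List ℕ} (h : Gen G [X] w) : Q X w := by
  have key : ∀ β w, Gen G β w →
      ∃ ws, List.Forall₂ (fun X w => Gen G [X] w ∧ Q X w) β ws ∧ w = ws.flatten := by
    intro β w h
    induction h with
    | nil => exact ⟨[], List.Forall₂.nil, rfl⟩
    | keep X _ ih =>
      obtain ⟨ws, h1, rfl⟩ := ih
      exact ⟨[X] :: ws, List.Forall₂.cons ⟨Gen.refl _, hk X⟩ h1, by simp⟩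
    | nt hp h1 _ ih1 ih2 =>
      obtain ⟨ws1, h3, rfl⟩ := ih1
      obtain ⟨ws2, h4, rfl⟩ := ih2
      exact ⟨ws1.flatten :: ws2, List.Forall₂.cons ⟨Gen.prod hp h1, hn _ _ _ hp h3⟩ h4, by simp⟩
  obtain ⟨ws, h1, rfl⟩ := key _ _ h
  cases h1 with
  | cons h2 h3 =>
    cases h3
    simpa using h2.2

theorem gen_of_forall₂ {Q : ℕ → List ℕ → Prop} {γ : List ℕ} {ws : List (List ℕ)}
    (h : List.Forall₂ (fun X w => Gen G [X] w ∧ Q X w) γ ws) : Gen G γ ws.flatten := by
  induction h with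
  | nil => exact Gen.nil
  | cons h1 _ ih => exact Gen.append (α := [_]) h1.1 ih

theorem forall₂_split {R : ℕ → List ℕ → Prop} {γ₁ γ₂ : List ℕ} {X : ℕ} {ws : List (List ℕ)}
    (h : List.Forall₂ R (γ₁ ++ X :: γ₂) ws) :
    ∃ ws₁ w ws₂, ws = ws₁ ++ w :: ws₂ ∧ List.Forall₂ R γ₁ ws₁ ∧ R X w ∧ List.Forall₂ R γ₂ ws₂ := by
  induction γ₁ generalizing ws with
  | nil =>
    cases h with
    | cons h1 h2 => exact ⟨[], _, _, rfl, List.Forall₂.nil, h1, h2⟩
  | cons Y γ₁ ih =>
    cases h with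
    | cons h1 h2 =>
      obtain ⟨ws₁, w, ws₂, rfl, h3, h4, h5⟩ := ih h2
      exact ⟨_ :: ws₁, w, ws₂, rfl, List.Forall₂.cons h1 h3, h4, h5⟩

theorem forall₂_heavy {R : ℕ → List ℕ → Prop} (f : List ℕ → ℕ)
    (hf : ∀ u v, f (u ++ v) = f u + f v) {γ : List ℕ} {ws : List (List ℕ)} {n : ℕ}
    (h : List.Forall₂ R γ ws) (hn : γ.length * n < f ws.flatten) :
    ∃ γ₁ X γ₂ ws₁ w ws₂, γ = γ₁ ++ X :: γ₂ ∧ ws = ws₁ ++ w :: ws₂ ∧
      List.Forall₂ R γ₁ ws₁ ∧ R X w ∧ List.Forall₂ R γ₂ ws₂ ∧ n < f w := by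
  induction h with
  | nil =>
    have := hf [] []
    simp at this hn
    omega
  | @cons X w γ ws h1 h2 ih =>
    by_cases hw : n < f w
    · exact ⟨[], X, γ, [], w, ws, rfl, rfl, List.Forall₂.nil, h1, h2, hw⟩
    · have : γ.length * n < f ws.flatten := by
        simp only [List.length_cons, List.flatten_cons, hf] at hn
        nlinarith
      obtain ⟨γ₁, Y, γ₂, ws₁, w', ws₂, rfl, rfl, h3, h4, h5, h6⟩ := ih this
      exact ⟨X :: γ₁, Y, γ₂, w :: ws₁, w', ws₂, rfl, rfl, List.Forall₂.cons h1 h3, h4, h5, h6⟩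

/-- A bound, at least one, for the lengths of the right-hand sides. -/
def Grammar.K (G : Grammar) : ℕ := G.P.sup (fun p => p.2.length) + 1

theorem Grammar.one_le_K (G : Grammar) : 1 ≤ G.K := by unfold Grammar.K; omega

theorem Grammar.length_le_K {A : ℕ} {γ : List ℕ} (h : (A, γ) ∈ G.P) : γ.length ≤ G.K := by
  have := Finset.le_sup (f := fun p : ℕ × List ℕ => p.2.length) h
  unfold Grammar.K
  simp only at this
  omega

theorem descend (hG : G.WF) {A : ℕ} {w : List ℕ} (h : Gen G [A] w) :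
    ∀ n, 1 ≤ n → G.K * n < w.length → ∃ B l w' r, B ∈ G.V ∧ w = l ++ w' ++ r ∧
      Gen G [A] (l ++ B :: r) ∧ Gen G [B] w' ∧ n < w'.length ∧ w'.length < w.length := by
  refine Gen.ind (Q := fun A w => ∀ n, 1 ≤ n → G.K * n < w.length → ∃ B l w' r, B ∈ G.V ∧
      w = l ++ w' ++ r ∧ Gen G [A] (l ++ B :: r) ∧ Gen G [B] w' ∧ n < w'.length ∧
      w'.length < w.length) ?_ ?_ h
  · intro X n hn hK
    have := G.one_le_K
    simp only [List.length_singleton] at hK
    nlinarith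
  · intro A γ ws hp hws n hn hK
    have hlen := Grammar.length_le_K hp
    obtain ⟨γ₁, B, γ₂, ws₁, w', ws₂, rfl, rfl, h1, h2, h3, h4⟩ :=
      forall₂_heavy List.length (fun u v => List.length_append) (n := n) hws
        (lt_of_le_of_lt (Nat.mul_le_mul_right n hlen) hK)
    have hB : B ∈ G.V := (hG.2.2 _ hp).2 B (by simp)
    have hctx : Gen G [A] (ws₁.flatten ++ B :: ws₂.flatten) := by
      refine Gen.prod hp ?_
      have := Gen.append3 (gen_of_forall₂ h1) (Gen.refl [B]) (gen_of_forall₂ h3)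
      simpa using this
    by_cases hlt : w'.length < (ws₁ ++ w' :: ws₂).flatten.length
    · exact ⟨B, ws₁.flatten, w', ws₂.flatten, hB, by simp, hctx, h2.1, h4, hlt⟩
    · simp only [List.flatten_append, List.flatten_cons, List.length_append] at hlt hK ⊢
      have e1 : ws₁.flatten = [] := List.eq_nil_of_length_eq_zero (by omega)
      have e2 : ws₂.flatten = [] := List.eq_nil_of_length_eq_zero (by omega)
      rw [e1, e2] at hctx hK ⊢
      simp only [List.length_nil, List.nil_append, List.append_nil, Nat.zero_add, Nat.add_zero]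
        at hctx hK ⊢
      obtain ⟨C, l, w'', r, hC, e, g1, g2, g3, g4⟩ := h2.2 n hn hK
      exact ⟨C, l, w'', r, hC, e, hctx.trans g1, g2, g3, g4⟩

/-- The `i`-fold repetition of a word. -/
def rep (u : List ℕ) (i : ℕ) : List ℕ := (List.replicate i u).flatten

theorem rep_zero (u : List ℕ) : rep u 0 = [] := rfl

theorem rep_succ (u : List ℕ) (i : ℕ) : rep u (i + 1) = u ++ rep u i := by
  simp [rep, List.replicate_succ]

theorem rep_succ' (u : List ℕ) (i : ℕ) : rep u (i + 1) = rep u i ++ u := by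
  simp [rep, List.replicate_succ']

theorem length_rep (u : List ℕ) (i : ℕ) : (rep u i).length = i * u.length := by
  induction i with
  | zero => simp [rep_zero]
  | succ i ih => rw [rep_succ, List.length_append, ih]; ring

theorem mem_rep {u : List ℕ} {i x : ℕ} (h : x ∈ rep u i) : x ∈ u := by
  induction i with
  | zero => simp [rep_zero] at h
  | succ i ih =>
    rw [rep_succ, List.mem_append] at h
    exact h.elim id ih

theorem countP_rep (p : ℕ → Bool) (u : List ℕ) (i : ℕ) :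
    (rep u i).countP p = i * u.countP p := by
  induction i with
  | zero => simp [rep_zero]
  | succ i ih => rw [rep_succ, List.countP_append, ih]; ring

theorem map_rep (f : ℕ → ℕ) (u : List ℕ) (i : ℕ) : (rep u i).map f = rep (u.map f) i := by
  induction i with
  | zero => simp [rep_zero]
  | succ i ih => rw [rep_succ, rep_succ, List.map_append, ih]

theorem gen_pump {C : ℕ} {l r w : List ℕ} (h : Gen G [C] (l ++ C :: r)) (hw : Gen G [C] w)
    (i : ℕ) : Gen G [C] (rep l i ++ w ++ rep r i) := by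
  induction i with
  | zero => simpa [rep_zero] using hw
  | succ i ih =>
    have := h.trans (Gen.append3 (Gen.refl l) ih (Gen.refl r))
    rw [rep_succ, rep_succ']
    simpa using this

/-- A word that can be pumped from the start symbol. -/
def Pumpable (G : Grammar) (w : List ℕ) : Prop :=
  ∃ s₁ s₂ s₃ s₄ s₅ : List ℕ, w = s₁ ++ s₂ ++ s₃ ++ s₄ ++ s₅ ∧ s₂ ++ s₄ ≠ [] ∧
    ∀ i, Gen G [G.S] (s₁ ++ rep s₂ i ++ s₃ ++ rep s₄ i ++ s₅)

theorem pump_aux (hG : G.WF) (w : List ℕ) : ∀ (k : ℕ) (Z : Finset ℕ) (A : ℕ) (w' : List ℕ),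
    A ∈ G.V → (G.V \ Z).card ≤ k → Gen G [A] w' → G.K ^ k < w'.length →
    (∃ l₀ r₀, Gen G [G.S] (l₀ ++ A :: r₀) ∧ w = l₀ ++ w' ++ r₀) →
    (∀ C ∈ Z, ∃ l₀ r₀ l r, Gen G [G.S] (l₀ ++ C :: r₀) ∧ Gen G [C] (l ++ A :: r) ∧
      l ++ r ≠ [] ∧ w = l₀ ++ l ++ w' ++ r ++ r₀) → Pumpable G w := by
  intro k
  induction k with
  | zero =>
    intro Z A w' hA hc hg _ _ hZ
    have hAZ : A ∈ Z := by
      by_contra hAZ
      have : A ∈ G.V \ Z := Finset.mem_sdiff.mpr ⟨hA, hAZ⟩
      have := Finset.card_pos.mpr ⟨A, this⟩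
      omega
    obtain ⟨l₀, r₀, l, r, h1, h2, h3, h4⟩ := hZ A hAZ
    refine ⟨l₀, l, w', r, r₀, h4, h3, fun i => ?_⟩
    have := h1.trans (Gen.append3 (Gen.refl l₀) (gen_pump h2 hg i) (Gen.refl r₀))
    simpa using this
  | succ k ih =>
    intro Z A w' hA hc hg hlen hS hZ
    by_cases hAZ : A ∈ Z
    · obtain ⟨l₀, r₀, l, r, h1, h2, h3, h4⟩ := hZ A hAZ
      refine ⟨l₀, l, w', r, r₀, h4, h3, fun i => ?_⟩
      have := h1.trans (Gen.append3 (Gen.refl l₀) (gen_pump h2 hg i) (Gen.refl r₀))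
      simpa using this
    · obtain ⟨B, l', w'', r', hB, rfl, g1, g2, g3, g4⟩ :=
        descend hG hg (G.K ^ k) (Nat.one_le_pow _ _ G.one_le_K) (by rw [← pow_succ']; exact hlen)
      have hne : l' ++ r' ≠ [] := by
        intro h0
        have := congrArg List.length h0
        simp only [List.length_append, List.length_nil] at this g4
        omega
      obtain ⟨l₀, r₀, h1, h2⟩ := hS
      refine ih (insert A Z) B w'' hB ?_ g2 g3 ?_ ?_
      · have : G.V \ insert A Z = (G.V \ Z).erase A := by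
          ext x; simp only [Finset.mem_sdiff, Finset.mem_insert, Finset.mem_erase]; tauto
        rw [this, Finset.card_erase_of_mem (Finset.mem_sdiff.mpr ⟨hA, hAZ⟩)]
        omega
      · refine ⟨l₀ ++ l', r' ++ r₀, ?_, by simp [h2]⟩
        have := h1.trans (Gen.append3 (Gen.refl l₀) g1 (Gen.refl r₀))
        simpa using this
      · intro C hC
        rcases Finset.mem_insert.mp hC with rfl | hC
        · exact ⟨l₀, r₀, l', r', h1, g1, hne, by simp [h2]⟩
        · obtain ⟨m₀, s₀, l, r, k1, k2, k3, k4⟩ := hZ C hC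
          refine ⟨m₀, s₀, l ++ l', r' ++ r, k1, ?_, ?_, by simp [k4]⟩
          · have := k2.trans (Gen.append3 (Gen.refl l) g1 (Gen.refl r))
            simpa using this
          · intro h0
            apply hne
            simp only [List.append_eq_nil_iff] at h0 ⊢
            tauto

/-- The pumping lemma for context-free grammars. -/
theorem pumping (hG : G.WF) : ∃ p : ℕ, ∀ w, Gen G [G.S] w → p < w.length → Pumpable G w := by
  refine ⟨G.K ^ G.V.card, fun w hw hp => ?_⟩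
  exact pump_aux hG w G.V.card ∅ G.S w hG.2.1 (by simp) hw hp ⟨[], [], by simpa using Gen.refl _,
    by simp⟩ (by simp)

end Pool.Agent.P.MP_1e6486_lc
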