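import Mathlib

/-!
Rational subsets of a monoid and Kleene's theorem for them.
-/

namespace Pool.Agent.P.MP_1e6486_lc

open Pointwise

variable {M : Type} [Monoid M]

/-- Rational subsets of a monoid. -/
inductive RatSet : Set M → Prop
  | empty : RatSet ∅
  | single (m : M) : RatSet {m}
  | union {s t : Set M} : RatSet s → RatSet t → RatSet (s ∪ t)
  | mul {s t : Set M} : RatSet s → RatSet t → RatSet (s * t)
  | star {s : Set M} : RatSet s → RatSet (Submonoid.closure s : Set M)

theorem RatSet.biUnion {ι : Type} {I : Set ι} (hI : I.Finite) {f : ι → Set M}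
    (hf : ∀ i ∈ I, RatSet (f i)) : RatSet (⋃ i ∈ I, f i) := by
  induction I, hI using Set.Finite.induction_on with
  | empty => simpa using RatSet.empty
  | insert _ _ ih =>
    rw [Set.biUnion_insert]
    exact RatSet.union (hf _ (Set.mem_insert _ _))
      (ih fun i hi => hf i (Set.mem_insert_of_mem _ hi))

theorem RatSet.image_anti {f : M → M} (h1 : f 1 = 1) (hf : ∀ x y, f (x * y) = f y * f x)
    {s : Set M} (hs : RatSet s) : RatSet (f '' s) := by
  induction hs with
  | empty => simpa using RatSet.empty
  | single m => simpa using RatSet.single (f m)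
  | union _ _ ih1 ih2 => rw [Set.image_union]; exact RatSet.union ih1 ih2
  | @mul s t _ _ ih1 ih2 =>
    have : f '' (s * t) = (f '' t) * (f '' s) := by
      ext z
      constructor
      · rintro ⟨_, ⟨x, hx, y, hy, rfl⟩, rfl⟩
        exact ⟨f y, ⟨y, hy, rfl⟩, f x, ⟨x, hx, rfl⟩, (hf x y).symm⟩
      · rintro ⟨_, ⟨y, hy, rfl⟩, _, ⟨x, hx, rfl⟩, rfl⟩
        exact ⟨x * y, ⟨x, hx, y, hy, rfl⟩, hf x y⟩
    rw [this]
    exact RatSet.mul ih2 ih1
  | @star s _ ih =>
    have : f '' (Submonoid.closure s : Set M) = (Submonoid.closure (f '' s) : Set M) := by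
      ext z
      constructor
      · rintro ⟨x, hx, rfl⟩
        induction hx using Submonoid.closure_induction with
        | mem x hx => exact Submonoid.subset_closure ⟨x, hx, rfl⟩
        | one => rw [h1]; exact Submonoid.one_mem _
        | mul x y _ _ ihx ihy => rw [hf]; exact Submonoid.mul_mem _ ihy ihx
      · intro hz
        induction hz using Submonoid.closure_induction with
        | mem z hz =>
          obtain ⟨x, hx, rfl⟩ := hz
          exact ⟨x, Submonoid.subset_closure hx, rfl⟩
        | one => exact ⟨1, Submonoid.one_mem _, h1⟩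
        | mul x y _ _ ihx ihy =>
          obtain ⟨a, ha, rfl⟩ := ihx
          obtain ⟨b, hb, rfl⟩ := ihy
          exact ⟨b * a, Submonoid.mul_mem _ hb ha, hf b a⟩
    rw [this]
    exact RatSet.star ih

variable {Q : Type}

/-- Labels of paths in an automaton whose edges carry sets of monoid elements. -/
inductive Path (lab : Q → Q → Set M) : Q → Q → M → Prop
  | refl (q : Q) : Path lab q q 1
  | step {p r q : Q} {x m : M} : x ∈ lab p r → Path lab r q m → Path lab p q (x * m)

theorem Path.trans {lab : Q → Q → Set M} {p r q : Q} {m m' : M} (h : Path lab p r m)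
    (h' : Path lab r q m') : Path lab p q (m * m') := by
  induction h with
  | refl => simpa using h'
  | step hx _ ih => rw [mul_assoc]; exact Path.step hx (ih h')

theorem Path.edge {lab : Q → Q → Set M} {p q : Q} {x : M} (h : x ∈ lab p q) : Path lab p q x := by
  simpa using Path.step h (Path.refl q)

theorem Path.mono {lab lab' : Q → Q → Set M} (hl : ∀ p q, lab p q ⊆ lab' p q) {p q : Q} {m : M}
    (h : Path lab p q m) : Path lab' p q m := by
  induction h with
  | refl => exact Path.refl _
  | step hx _ ih => exact Path.step (hl _ _ hx) ih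

/-- Nonempty paths with intermediate states in `S`. -/
inductive PathS (lab : Q → Q → Set M) (S : Set Q) : Q → Q → M → Prop
  | edge {p q : Q} {x : M} : x ∈ lab p q → PathS lab S p q x
  | step {p r q : Q} {x m : M} : x ∈ lab p r → r ∈ S → PathS lab S r q m → PathS lab S p q (x * m)

theorem PathS.trans {lab : Q → Q → Set M} {S : Set Q} {p r q : Q} {m m' : M}
    (h : PathS lab S p r m) (hr : r ∈ S) (h' : PathS lab S r q m') : PathS lab S p q (m * m') := by
  induction h with
  | edge hx => exact PathS.step hx hr h'
  | step hx hs _ ih => rw [mul_assoc]; exact PathS.step hx hs (ih hr h')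

theorem PathS.mono {lab : Q → Q → Set M} {S S' : Set Q} (hS : S ⊆ S') {p q : Q} {m : M}
    (h : PathS lab S p q m) : PathS lab S' p q m := by
  induction h with
  | edge hx => exact PathS.edge hx
  | step hx hs _ ih => exact PathS.step hx (hS hs) ih

theorem pathS_insert (lab : Q → Q → Set M) (S : Set Q) (s p q : Q) :
    {m | PathS lab (insert s S) p q m} =
      {m | PathS lab S p q m} ∪
        {m | PathS lab S p s m} *
          ((Submonoid.closure {m | PathS lab S s s m} : Set M) * {m | PathS lab S s q m}) := by
  ext m
  constructor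
  · intro h
    simp only [Set.mem_ofPred_eq] at h
    induction h with
    | edge hx => exact Or.inl (PathS.edge hx)
    | @step p r q x m hx hr _ ih =>
      rcases hr with rfl | hr
      · right
        rcases ih with ih | ⟨a, ha, _, ⟨c, hc, b, hb, rfl⟩, rfl⟩
        · exact ⟨x, PathS.edge hx, m, ⟨1, Submonoid.one_mem _, m, ih, one_mul m⟩, rfl⟩
        · refine ⟨x, PathS.edge hx, _, ⟨a * c, ?_, b, hb, rfl⟩, by simp [mul_assoc]⟩
          exact Submonoid.mul_mem _ (Submonoid.subset_closure ha) hc
      · rcases ih with ih | ⟨a, ha, y, hy, rfl⟩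
        · exact Or.inl (PathS.step hx hr ih)
        · exact Or.inr ⟨x * a, PathS.step hx hr ha, y, hy, by simp [mul_assoc]⟩
  · rintro (h | ⟨a, ha, _, ⟨c, hc, b, hb, rfl⟩, rfl⟩)
    · exact PathS.mono (Set.subset_insert _ _) h
    · have key : PathS lab (insert s S) s q (c * b) := by
        induction hc using Submonoid.closure_induction_left with
        | one => simpa using PathS.mono (Set.subset_insert _ _) hb
        | mul_left x hx y _ ih =>
          rw [mul_assoc]
          exact (PathS.mono (Set.subset_insert _ _) hx).trans (Set.mem_insert _ _) ih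
      exact (PathS.mono (Set.subset_insert _ _) ha).trans (Set.mem_insert _ _) key

theorem ratSet_pathS {lab : Q → Q → Set M} (hl : ∀ p q, RatSet (lab p q)) {S : Set Q}
    (hS : S.Finite) : ∀ p q, RatSet {m | PathS lab S p q m} := by
  induction S, hS using Set.Finite.induction_on with
  | empty =>
    intro p q
    have : {m | PathS lab ∅ p q m} = lab p q := by
      ext m
      constructor
      · intro h
        cases h with
        | edge hx => exact hx
        | step _ hr _ => exact absurd hr (Set.notMem_empty _)
      · exact fun h => PathS.edge h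
    rw [this]
    exact hl p q
  | insert _ _ ih =>
    intro p q
    rw [pathS_insert]
    exact RatSet.union (ih _ _) (RatSet.mul (ih _ _) (RatSet.mul (RatSet.star (ih _ _)) (ih _ _)))

/-- Path labels of a finite automaton with rational edge labels form a rational set. -/
theorem ratSet_path {lab : Q → Q → Set M} (hl : ∀ p q, RatSet (lab p q)) {S : Set Q}
    (hS : S.Finite) (hlab : ∀ p q x, x ∈ lab p q → p ∈ S) {p q : Q} (hpq : p ≠ q) :
    RatSet {m | Path lab p q m} := by
  have : {m | Path lab p q m} = {m | PathS lab S p q m} := by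
    ext m
    simp only [Set.mem_ofPred_eq]
    constructor
    · intro h
      have key : ∀ p q m, Path lab p q m → (p = q ∧ m = 1) ∨ (p ∈ S ∧ PathS lab S p q m) := by
        intro p q m h
        induction h with
        | refl => exact Or.inl ⟨rfl, rfl⟩
        | step hx _ ih =>
          right
          refine ⟨hlab _ _ _ hx, ?_⟩
          rcases ih with ⟨rfl, rfl⟩ | ⟨hr, ih⟩
          · simpa using PathS.edge hx
          · exact PathS.step hx hr ih
      rcases key p q m h with ⟨h, _⟩ | ⟨_, h⟩
      · exact absurd h hpq
      · exact h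
    · intro h
      clear hpq
      induction h with
      | edge hx => exact Path.edge hx
      | step hx _ _ ih => exact Path.step hx ih
  rw [this]
  exact ratSet_pathS hl hS p q

/-- The labelling given by a set of edges. -/
def edgeLab (E : Set (Q × M × Q)) (p q : Q) : Set M := {x | (p, x, q) ∈ E}

/-- A rational set is recognised by a finite automaton whose states are subsets. -/
theorem RatSet.exists_edges {ρ : Set M} (h : RatSet ρ) (κ : Set M) :
    ∃ E : Set (Set M × M × Set M), E.Finite ∧ (∀ e ∈ E, ∀ y ∈ e.2.2, e.2.1 * y ∈ e.1) ∧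
      ∀ m ∈ ρ, Path (edgeLab E) (ρ * κ) κ m := by
  induction h generalizing κ with
  | empty => exact ⟨∅, Set.finite_empty, by simp, by simp⟩
  | single x =>
    refine ⟨{(({x} : Set M) * κ, x, κ)}, Set.finite_singleton _, ?_, ?_⟩
    · rintro e rfl y hy
      exact ⟨x, rfl, y, hy, rfl⟩
    · rintro m rfl
      exact Path.edge rfl
  | @union s t _ _ ih1 ih2 =>
    obtain ⟨E1, f1, s1, c1⟩ := ih1 κ
    obtain ⟨E2, f2, s2, c2⟩ := ih2 κ
    refine ⟨(E1 ∪ E2) ∪ {((s ∪ t) * κ, 1, s * κ), ((s ∪ t) * κ, 1, t * κ)},
      (f1.union f2).union (Set.toFinite _), ?_, ?_⟩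
    · rintro e ((he | he) | rfl | rfl) y hy
      · exact s1 e he y hy
      · exact s2 e he y hy
      · simp only [one_mul]
        exact Set.mul_subset_mul_right Set.subset_union_left hy
      · simp only [one_mul]
        exact Set.mul_subset_mul_right Set.subset_union_right hy
    · rintro m (hm | hm)
      · rw [← one_mul m]
        refine Path.step (r := s * κ) (Or.inr (Or.inl rfl)) ((c1 m hm).mono ?_)
        exact fun p q x hx => Or.inl (Or.inl hx)
      · rw [← one_mul m]
        refine Path.step (r := t * κ) (Or.inr (Or.inr rfl)) ((c2 m hm).mono ?_)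
        exact fun p q x hx => Or.inl (Or.inr hx)
  | @mul s t _ _ ih1 ih2 =>
    obtain ⟨E1, f1, s1, c1⟩ := ih1 (t * κ)
    obtain ⟨E2, f2, s2, c2⟩ := ih2 κ
    refine ⟨E1 ∪ E2, f1.union f2, ?_, ?_⟩
    · rintro e (he | he) y hy
      · exact s1 e he y hy
      · exact s2 e he y hy
    · rintro _ ⟨a, ha, b, hb, rfl⟩
      rw [mul_assoc]
      exact ((c1 a ha).mono fun p q x hx => Or.inl hx).trans
        ((c2 b hb).mono fun p q x hx => Or.inr hx)
  | @star s _ ih =>
    obtain ⟨E1, f1, s1, c1⟩ := ih ((Submonoid.closure s : Set M) * κ)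
    refine ⟨E1 ∪ {((Submonoid.closure s : Set M) * κ, 1, s * ((Submonoid.closure s : Set M) * κ)),
      ((Submonoid.closure s : Set M) * κ, 1, κ)}, f1.union (Set.toFinite _), ?_, ?_⟩
    · rintro e (he | rfl | rfl) y hy
      · exact s1 e he y hy
      · simp only [one_mul]
        obtain ⟨a, ha, _, ⟨c, hc, b, hb, rfl⟩, rfl⟩ := hy
        exact ⟨a * c, Submonoid.mul_mem _ (Submonoid.subset_closure ha) hc, b, hb,
          by simp [mul_assoc]⟩
      · simp only [one_mul]
        exact ⟨1, Submonoid.one_mem _, y, hy, one_mul y⟩
    · intro m hm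
      induction hm using Submonoid.closure_induction_left with
      | one => exact Path.edge (Or.inr (Or.inr rfl))
      | mul_left x hx y _ ih =>
        rw [← one_mul (x * y)]
        refine Path.step (r := s * ((Submonoid.closure s : Set M) * κ)) (Or.inr (Or.inl rfl)) ?_
        exact ((c1 x hx).mono fun p q x hx => Or.inl hx).trans ih

end Pool.Agent.P.MP_1e6486_lc
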