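import Mathlib
import Pool.Agent.P.MP_1e6486_lc.Rat
import Pool.Agent.P.MP_1e6486_lc.CF

/-!
Linear languages as rational sets of two-sided contexts.
-/

namespace Pool.Agent.P.MP_1e6486_lc

open Pointwise

/-- Two-sided contexts. -/
structure Ctx where
  l : List ℕ
  r : List ℕ

theorem Ctx.ext' {c d : Ctx} (h1 : c.l = d.l) (h2 : c.r = d.r) : c = d := by
  cases c; cases d; simp_all

instance : Monoid Ctx where
  mul c d := ⟨c.l ++ d.l, d.r ++ c.r⟩
  one := ⟨[], []⟩
  mul_assoc a b c := Ctx.ext' (List.append_assoc _ _ _) (List.append_assoc _ _ _).symm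
  one_mul a := Ctx.ext' (List.nil_append _) (List.append_nil _)
  mul_one a := Ctx.ext' (List.append_nil _) (List.nil_append _)

@[simp] theorem Ctx.mul_l (c d : Ctx) : (c * d).l = c.l ++ d.l := rfl
@[simp] theorem Ctx.mul_r (c d : Ctx) : (c * d).r = d.r ++ c.r := rfl
@[simp] theorem Ctx.one_l : (1 : Ctx).l = [] := rfl
@[simp] theorem Ctx.one_r : (1 : Ctx).r = [] := rfl

/-- Rational languages, read as left contexts. -/
def Reg (L : Set (List ℕ)) : Prop := RatSet {c : Ctx | c.l ∈ L ∧ c.r = []}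

/-- Rational languages, read as right contexts. -/
def RegR (L : Set (List ℕ)) : Prop := RatSet {c : Ctx | c.l = [] ∧ c.r ∈ L}

/-- Languages given by a rational set of contexts. -/
def LinR (L : Set (List ℕ)) : Prop :=
  ∃ ρ : Set Ctx, RatSet ρ ∧ L = {w | ∃ c ∈ ρ, w = c.l ++ c.r}

theorem reg_iff_regR {L : Set (List ℕ)} : Reg L ↔ RegR L := by
  let sw : Ctx → Ctx := fun c => ⟨c.r, c.l⟩
  have h1 : sw 1 = 1 := rfl
  have h2 : ∀ x y, sw (x * y) = sw y * sw x := fun x y => rfl
  constructor
  · intro h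
    have := RatSet.image_anti h1 h2 h
    unfold RegR
    convert this using 1
    ext c
    constructor
    · rintro ⟨h3, h4⟩
      exact ⟨sw c, ⟨h4, h3⟩, rfl⟩
    · rintro ⟨d, ⟨h3, h4⟩, rfl⟩
      exact ⟨h4, h3⟩
  · intro h
    have := RatSet.image_anti h1 h2 h
    unfold Reg
    convert this using 1
    ext c
    constructor
    · rintro ⟨h3, h4⟩
      exact ⟨sw c, ⟨h4, h3⟩, rfl⟩
    · rintro ⟨d, ⟨h3, h4⟩, rfl⟩
      exact ⟨h4, h3⟩

theorem reg_empty : Reg ∅ := by
  unfold Reg
  simpa using RatSet.empty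

theorem reg_single (w : List ℕ) : Reg {w} := by
  unfold Reg
  convert RatSet.single (⟨w, []⟩ : Ctx) using 1
  ext c
  constructor
  · rintro ⟨h1, h2⟩
    exact Ctx.ext' h1 h2
  · rintro rfl
    exact ⟨rfl, rfl⟩

theorem Reg.linR {L : Set (List ℕ)} (h : Reg L) : LinR L := by
  refine ⟨_, h, ?_⟩
  ext w
  constructor
  · intro hw
    exact ⟨⟨w, []⟩, ⟨hw, rfl⟩, by simp⟩
  · rintro ⟨c, ⟨h1, h2⟩, rfl⟩
    simpa [h2] using h1

theorem ratSet_pair {L₁ L₂ : Set (List ℕ)} (h1 : Reg L₁) (h2 : Reg L₂) :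
    RatSet {c : Ctx | c.l ∈ L₁ ∧ c.r ∈ L₂} := by
  convert RatSet.mul h1 (reg_iff_regR.mp h2) using 1
  ext c
  constructor
  · rintro ⟨h3, h4⟩
    exact ⟨⟨c.l, []⟩, ⟨h3, rfl⟩, ⟨[], c.r⟩, ⟨rfl, h4⟩, Ctx.ext' (by simp) (by simp)⟩
  · rintro ⟨a, ⟨ha, ha'⟩, b, ⟨hb, hb'⟩, rfl⟩
    constructor
    · simpa [hb] using ha
    · simpa [ha'] using hb'

theorem append_cons_inj {T : Finset ℕ} {l l' r r' : List ℕ} {A B : ℕ} (hl : ∀ x ∈ l, x ∈ T)
    (hr : ∀ x ∈ r, x ∈ T) (hA : A ∉ T) (h : l ++ B :: r = l' ++ A :: r') :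
    l = l' ∧ B = A ∧ r = r' := by
  induction l generalizing l' with
  | nil =>
    cases l' with
    | nil => simpa using h
    | cons x l' =>
      simp only [List.nil_append, List.cons_append, List.cons.injEq] at h
      exact absurd (hr A (by rw [h.2]; simp)) hA
  | cons y l ih =>
    cases l' with
    | nil =>
      simp only [List.nil_append, List.cons_append, List.cons.injEq] at h
      exact absurd (hl A (by rw [h.1]; simp)) hA
    | cons x l' =>
      simp only [List.cons_append, List.cons.injEq] at h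
      obtain ⟨h1, h2, h3⟩ := ih (fun x hx => hl x (List.mem_cons_of_mem _ hx)) h.2
      exact ⟨by rw [h.1, h1], h2, h3⟩

/-- A language given by a rational set of contexts has a linear grammar. -/
theorem LinR.exists_grammar {L : Set (List ℕ)} (h : LinR L) :
    ∃ G, IsLinear G ∧ L = cfLang G := by
  classical
  obtain ⟨ρ, hρ, rfl⟩ := h
  obtain ⟨E, hE, hs, hc⟩ := hρ.exists_edges {1}
  rw [Set.mul_singleton] at hc
  simp only [mul_one, Set.image_id'] at hc
  let St : Finset (Set Ctx) :=
    insert ρ (insert {1} (hE.toFinset.image (fun e => e.1) ∪ hE.toFinset.image (fun e => e.2.2)))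
  obtain ⟨f, hf⟩ : ∃ f : Set Ctx → ℕ, Set.InjOn f (St : Set (Set Ctx)) :=
    Set.countable_iff_exists_injOn.mp St.countable_toSet
  let T : Finset ℕ := hE.toFinset.biUnion (fun e => e.2.1.l.toFinset ∪ e.2.1.r.toFinset)
  let code : Set Ctx → ℕ := fun σ => T.sup id + 1 + f σ
  have hcode : ∀ σ, code σ ∉ T := by
    intro σ h
    have := Finset.le_sup (f := id) h
    simp only [code, id] at this
    omega
  have hinj : ∀ σ ∈ St, ∀ τ ∈ St, code σ = code τ → σ = τ := by
    intro σ hσ τ hτ h
    exact hf hσ hτ (by simp only [code] at h; omega)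
  have hS1 : ∀ e ∈ E, e.1 ∈ St := fun e he => by
    simp only [St, Finset.mem_insert, Finset.mem_union, Finset.mem_image, Set.Finite.mem_toFinset]
    exact Or.inr (Or.inr (Or.inl ⟨e, he, rfl⟩))
  have hS2 : ∀ e ∈ E, e.2.2 ∈ St := fun e he => by
    simp only [St, Finset.mem_insert, Finset.mem_union, Finset.mem_image, Set.Finite.mem_toFinset]
    exact Or.inr (Or.inr (Or.inr ⟨e, he, rfl⟩))
  have hSρ : ρ ∈ St := Finset.mem_insert_self _ _
  have hS0 : ({1} : Set Ctx) ∈ St := Finset.mem_insert_of_mem (Finset.mem_insert_self _ _)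
  have hTl : ∀ e ∈ E, ∀ x ∈ e.2.1.l, x ∈ T := fun e he x hx => by
    simp only [T, Finset.mem_biUnion, Set.Finite.mem_toFinset, Finset.mem_union, List.mem_toFinset]
    exact ⟨e, he, Or.inl hx⟩
  have hTr : ∀ e ∈ E, ∀ x ∈ e.2.1.r, x ∈ T := fun e he x hx => by
    simp only [T, Finset.mem_biUnion, Set.Finite.mem_toFinset, Finset.mem_union, List.mem_toFinset]
    exact ⟨e, he, Or.inr hx⟩
  let G : Grammar :=
    { V := T ∪ St.image code
      T := T
      P := insert (code {1}, [])
        (hE.toFinset.image (fun e => (code e.1, e.2.1.l ++ code e.2.2 :: e.2.1.r)))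
      S := code ρ }
  have hP : ∀ p ∈ G.P, p = (code {1}, []) ∨
      ∃ e ∈ E, p = (code e.1, e.2.1.l ++ code e.2.2 :: e.2.1.r) := by
    intro p hp
    simp only [G, Finset.mem_insert, Finset.mem_image, Set.Finite.mem_toFinset] at hp
    rcases hp with hp | ⟨e, he, rfl⟩
    · exact Or.inl hp
    · exact Or.inr ⟨e, he, rfl⟩
  have hV : ∀ σ ∈ St, code σ ∈ G.V := fun σ hσ =>
    Finset.mem_union_right _ (Finset.mem_image_of_mem _ hσ)
  have hCF : IsCF G := by
    refine ⟨⟨Finset.subset_union_left, hV _ hSρ, ?_⟩, hcode _, ?_⟩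
    · intro p hp
      rcases hP p hp with rfl | ⟨e, he, rfl⟩
      · exact ⟨hV _ hS0, by simp⟩
      · refine ⟨hV _ (hS1 e he), fun x hx => ?_⟩
        simp only [List.mem_append, List.mem_cons] at hx
        rcases hx with hx | rfl | hx
        · exact Finset.mem_union_left _ (hTl e he x hx)
        · exact hV _ (hS2 e he)
        · exact Finset.mem_union_left _ (hTr e he x hx)
    · intro p hp
      rcases hP p hp with rfl | ⟨e, he, rfl⟩ <;> exact hcode _
  refine ⟨G, ⟨hCF, ?_⟩, ?_⟩
  · intro p hp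
    rcases hP p hp with rfl | ⟨e, he, rfl⟩
    · simp
    · have e1 : e.2.1.l.countP (fun x => x ∉ G.T) = 0 := by
        rw [List.countP_eq_zero]
        intro x hx
        simpa using hTl e he x hx
      have e2 : e.2.1.r.countP (fun x => x ∉ G.T) = 0 := by
        rw [List.countP_eq_zero]
        intro x hx
        simpa using hTr e he x hx
      simp only [List.countP_append, List.countP_cons, e1, e2]
      split_ifs <;> omega
  · ext w
    rw [mem_cfLang]
    constructor
    · rintro ⟨c, hc1, rfl⟩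
      have key : ∀ σ τ m, Path (edgeLab E) σ τ m → τ = {1} →
          Term G (m.l ++ m.r) ∧ Gen G [code σ] (m.l ++ m.r) := by
        intro σ τ m hp
        induction hp with
        | refl q =>
          rintro rfl
          exact ⟨term_nil, Gen.prod (Finset.mem_insert_self _ _) Gen.nil⟩
        | @step p r q x m hx _ ih =>
          intro hq
          obtain ⟨t, g⟩ := ih hq
          have hp : (code p, x.l ++ code r :: x.r) ∈ G.P := by
            apply Finset.mem_insert_of_mem
            exact Finset.mem_image.mpr ⟨(p, x, r), (Set.Finite.mem_toFinset _).mpr hx, rfl⟩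
          have e : (x * m).l ++ (x * m).r = x.l ++ (m.l ++ m.r) ++ x.r := by simp
          rw [e]
          refine ⟨term_append.mpr ⟨term_append.mpr ⟨hTl _ hx, t⟩, hTr _ hx⟩, ?_⟩
          exact Gen.prod hp (Gen.append3 (Gen.refl _) g (Gen.refl _))
      exact key _ _ _ (hc c hc1) rfl
    · rintro ⟨ht, hg⟩
      have key : ∀ y, Relation.ReflTransGen (cfStep G) [G.S] y →
          (∃ σ ∈ St, ∃ c : Ctx, Term G c.l ∧ Term G c.r ∧ y = c.l ++ code σ :: c.r ∧
            ∀ z ∈ σ, c * z ∈ ρ) ∨ (Term G y ∧ ∃ c ∈ ρ, y = c.l ++ c.r) := by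
        intro y hy
        induction hy with
        | refl => exact Or.inl ⟨ρ, hSρ, 1, term_nil, term_nil, rfl, by simp⟩
        | tail _ hstep ih =>
          obtain ⟨l, r, A, α, hp, rfl, rfl⟩ := hstep
          have hA : A ∉ G.T := hCF.2.2 _ hp
          rcases ih with ⟨σ, hσ, c, t1, t2, e, hz⟩ | ⟨t, _⟩
          · have e' : c.l ++ code σ :: c.r = l ++ A :: r := by rw [← e]; simp
            obtain ⟨rfl, rfl, rfl⟩ := append_cons_inj t1 t2 hA e'
            rcases hP _ hp with h0 | ⟨ed, he, h0⟩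
            · simp only [Prod.mk.injEq] at h0
              obtain ⟨h1, rfl⟩ := h0
              have := hinj _ hσ _ hS0 h1
              subst this
              right
              refine ⟨by simpa using term_append.mpr ⟨t1, t2⟩, c, by simpa using hz 1 rfl, by simp⟩
            · simp only [Prod.mk.injEq] at h0
              obtain ⟨h1, rfl⟩ := h0
              have := hinj _ hσ _ (hS1 ed he) h1
              subst this
              left
              refine ⟨ed.2.2, hS2 ed he, c * ed.2.1, term_append.mpr ⟨t1, hTl ed he⟩,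
                term_append.mpr ⟨hTr ed he, t2⟩, by simp, fun z hz' => ?_⟩
              rw [mul_assoc]
              exact hz _ (hs ed he z hz')
          · exact absurd (t A (by simp)) hA
      rcases key w (gen_iff_rtg.mp hg) with ⟨σ, _, c, _, _, e, _⟩ | ⟨_, h⟩
      · exact absurd (ht (code σ) (by rw [e]; simp)) (hcode σ)
      · exact h

end Pool.Agent.P.MP_1e6486_lc
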