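import Mathlib
import Pool.Agent.P.MP_1e6486_lc.LinSys

/-!
A context-free grammar whose language is not linear has two independent self-embedding
nonterminals.
-/

namespace Pool.Agent.P.MP_1e6486_lc

open Pointwise

variable {G : Grammar}

/-- Terminal words derived from a sentential form. -/
def Lang (G : Grammar) (β : List ℕ) : Set (List ℕ) := {w | Term G w ∧ Gen G β w}

/-- Productive symbols. -/
def Prod' (G : Grammar) (X : ℕ) : Prop := ∃ w, w ∈ Lang G [X]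

/-- Symbols deriving a nonempty terminal word. -/
def NE (G : Grammar) (X : ℕ) : Prop := ∃ w, w ∈ Lang G [X] ∧ w ≠ []

/-- Reachability with terminal contexts. -/
def Reach (G : Grammar) (X Y : ℕ) : Prop :=
  ∃ l r, Term G l ∧ Term G r ∧ Gen G [X] (l ++ Y :: r)

/-- Self-embedding symbols. -/
def SE (G : Grammar) (X : ℕ) : Prop :=
  ∃ u v, Term G u ∧ Term G v ∧ u ≠ [] ∧ v ≠ [] ∧ Gen G [X] (u ++ X :: v)

/-- Symbols reaching a productive self-embedding symbol. -/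
def Bad (G : Grammar) (X : ℕ) : Prop := ∃ Y, Reach G X Y ∧ SE G Y ∧ Prod' G Y

theorem Reach.refl (X : ℕ) : Reach G X X := ⟨[], [], term_nil, term_nil, Gen.refl _⟩

theorem Reach.trans {X Y Z : ℕ} (h : Reach G X Y) (h' : Reach G Y Z) : Reach G X Z := by
  obtain ⟨l, r, t1, t2, g⟩ := h
  obtain ⟨l', r', t1', t2', g'⟩ := h'
  refine ⟨l ++ l', r' ++ r, term_append.mpr ⟨t1, t1'⟩, term_append.mpr ⟨t2', t2⟩, ?_⟩
  have := g.trans (Gen.append3 (Gen.refl l) g' (Gen.refl r))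
  simpa using this

theorem lang_nil : Lang G [] = {[]} := by
  ext w
  constructor
  · rintro ⟨_, h⟩
    exact h.nil_left
  · rintro rfl
    exact ⟨term_nil, Gen.nil⟩

theorem lang_append {α β u v : List ℕ} (hu : u ∈ Lang G α) (hv : v ∈ Lang G β) :
    u ++ v ∈ Lang G (α ++ β) := ⟨term_append.mpr ⟨hu.1, hv.1⟩, hu.2.append hv.2⟩

theorem lang_split {α β w : List ℕ} (hw : w ∈ Lang G (α ++ β)) :
    ∃ u v, w = u ++ v ∧ u ∈ Lang G α ∧ v ∈ Lang G β := by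
  obtain ⟨u, v, rfl, h1, h2⟩ := hw.2.split
  exact ⟨u, v, rfl, ⟨(term_append.mp hw.1).1, h1⟩, ⟨(term_append.mp hw.1).2, h2⟩⟩

theorem reg_lang {β : List ℕ} (h : ∀ Z ∈ β, Reg (Lang G [Z])) : Reg (Lang G β) := by
  induction β with
  | nil => rw [lang_nil]; exact reg_single _
  | cons X β ih =>
    have h1 := h X (by simp)
    have h2 := ih (fun Z hZ => h Z (List.mem_cons_of_mem _ hZ))
    unfold Reg at h1 h2 ⊢
    convert RatSet.mul h1 h2 using 1
    ext c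
    constructor
    · rintro ⟨h3, h4⟩
      obtain ⟨u, v, e, hu, hv⟩ := lang_split (α := [X]) h3
      exact ⟨⟨u, []⟩, ⟨hu, rfl⟩, ⟨v, []⟩, ⟨hv, rfl⟩, Ctx.ext' (by simp [e]) (by simp [h4])⟩
    · rintro ⟨a, ⟨ha, ha'⟩, b, ⟨hb, hb'⟩, rfl⟩
      exact ⟨lang_append (α := [X]) ha hb, by simp [ha', hb']⟩

theorem exists_lang {β : List ℕ} (h : ∀ Z ∈ β, Prod' G Z) : ∃ w, w ∈ Lang G β := by
  induction β with
  | nil => exact ⟨[], term_nil, Gen.nil⟩
  | cons X β ih =>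
    obtain ⟨u, hu⟩ := h X (by simp)
    obtain ⟨v, hv⟩ := ih (fun Z hZ => h Z (List.mem_cons_of_mem _ hZ))
    exact ⟨u ++ v, lang_append (α := [X]) hu hv⟩

theorem prod_of_lang {β w : List ℕ} (hw : w ∈ Lang G β) : ∀ Z ∈ β, Prod' G Z := by
  intro Z hZ
  obtain ⟨β₁, β₂, rfl⟩ := List.append_of_mem hZ
  obtain ⟨u, v, rfl, _, hv⟩ := lang_split hw
  obtain ⟨x, y, rfl, hx, _⟩ := lang_split (α := [Z]) hv
  exact ⟨x, hx⟩

theorem exists_lang_ne {β : List ℕ} (h : ∀ Z ∈ β, Prod' G Z) {Y : ℕ} (hY : Y ∈ β) (hne : NE G Y) :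
    ∃ w, w ∈ Lang G β ∧ w ≠ [] := by
  obtain ⟨β₁, β₂, rfl⟩ := List.append_of_mem hY
  obtain ⟨u, hu⟩ := exists_lang (β := β₁) (fun Z hZ => h Z (by simp [hZ]))
  obtain ⟨v, hv⟩ := exists_lang (β := β₂) (fun Z hZ => h Z (by simp [hZ]))
  obtain ⟨w, hw, hw'⟩ := hne
  exact ⟨u ++ (w ++ v), lang_append hu (lang_append (α := [Y]) hw hv), by simp [hw']⟩

theorem reach_of_prod {X Y : ℕ} {γ₁ γ₂ u v : List ℕ} (hp : (X, γ₁ ++ Y :: γ₂) ∈ G.P)
    (hu : u ∈ Lang G γ₁) (hv : v ∈ Lang G γ₂) : Gen G [X] (u ++ Y :: v) := by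
  refine Gen.prod hp ?_
  simpa using Gen.append3 hu.2 (Gen.refl [Y]) hv.2

theorem reach_of_mem {X Y : ℕ} {γ : List ℕ} (hp : (X, γ) ∈ G.P) (h : ∀ Z ∈ γ, Prod' G Z)
    (hY : Y ∈ γ) : Reach G X Y := by
  obtain ⟨β₁, β₂, rfl⟩ := List.append_of_mem hY
  obtain ⟨u, hu⟩ := exists_lang (β := β₁) (fun Z hZ => h Z (by simp [hZ]))
  obtain ⟨v, hv⟩ := exists_lang (β := β₂) (fun Z hZ => h Z (by simp [hZ]))
  exact ⟨u, v, hu.1, hv.1, reach_of_prod hp hu hv⟩

theorem Reach.of_term (hG : IsCF G) {X Y : ℕ} (hX : X ∈ G.T) (h : Reach G X Y) : Y = X := by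
  obtain ⟨l, r, _, _, g⟩ := h
  have := Gen.of_term hG (w := [X]) (by simpa [Term] using hX) g
  have hl := congrArg List.length this
  simp only [List.length_append, List.length_cons, List.length_nil] at hl
  have e1 : l = [] := List.eq_nil_of_length_eq_zero (by omega)
  subst e1
  simp only [List.nil_append, List.cons.injEq] at this
  exact this.1

theorem SE.not_term (hG : IsCF G) {X : ℕ} (h : SE G X) : X ∉ G.T := by
  intro hX
  obtain ⟨u, v, _, _, hu, _, g⟩ := h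
  have := Gen.of_term hG (w := [X]) (by simpa [Term] using hX) g
  have hl := congrArg List.length this
  simp only [List.length_append, List.length_cons, List.length_nil] at hl
  exact hu (List.eq_nil_of_length_eq_zero (by omega))

/-- Edge labels of the linear system attached to a set `C` of nonterminals. -/
def sysLab (G : Grammar) (C : Set ℕ) (b : Bool) : Option ℕ → Option ℕ → Set Ctx
  | some X, some Y => {c | X ∈ C ∧ Y ∈ C ∧ ∃ γ₁ γ₂, (X, γ₁ ++ Y :: γ₂) ∈ G.P ∧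
      (∀ Z ∈ γ₁, Z ∉ C) ∧ (∀ Z ∈ γ₂, Z ∉ C) ∧ c.l ∈ Lang G γ₁ ∧ c.r ∈ Lang G γ₂}
  | some X, none => {c | X ∈ C ∧ ∃ γ, (X, γ) ∈ G.P ∧ (∀ Z ∈ γ, Z ∉ C) ∧
      ((b = true ∧ c.l ∈ Lang G γ ∧ c.r = []) ∨ (b = false ∧ c.l = [] ∧ c.r ∈ Lang G γ))}
  | none, _ => ∅

theorem sys_sound {C : Set ℕ} {b : Bool} {X : ℕ} {c : Ctx}
    (h : Path (sysLab G C b) (some X) none c) : c.l ++ c.r ∈ Lang G [X] := by
  have key : ∀ p q c, Path (sysLab G C b) p q c → q = none →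
      (p = none ∧ c = 1) ∨ ∃ X, p = some X ∧ c.l ++ c.r ∈ Lang G [X] := by
    intro p q c h
    induction h with
    | refl q => intro hq; exact Or.inl ⟨hq, rfl⟩
    | @step p r q x m hx _ ih =>
      intro hq
      right
      rcases ih hq with ⟨rfl, rfl⟩ | ⟨Y, rfl, hY⟩
      · cases p with
        | none => exact absurd hx (Set.notMem_empty _)
        | some X =>
          refine ⟨X, rfl, ?_⟩
          obtain ⟨_, γ, hp, _, ⟨_, h1, h2⟩ | ⟨_, h1, h2⟩⟩ := hx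
          · simp only [mul_one, h2, List.append_nil]
            exact ⟨h1.1, Gen.prod hp h1.2⟩
          · simp only [mul_one, h1, List.nil_append]
            exact ⟨h2.1, Gen.prod hp h2.2⟩
      · cases p with
        | none => exact absurd hx (Set.notMem_empty _)
        | some X =>
          refine ⟨X, rfl, ?_⟩
          obtain ⟨_, _, γ₁, γ₂, hp, _, _, h1, h2⟩ := hx
          have := lang_append h1 (lang_append (α := [Y]) hY h2)
          have e : (x * m).l ++ (x * m).r = x.l ++ (m.l ++ m.r ++ x.r) := by simp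
          rw [e]
          exact ⟨this.1, Gen.prod hp this.2⟩
  rcases key _ _ _ h rfl with ⟨h, _⟩ | ⟨Y, h1, h2⟩
  · cases h
  · cases h1; exact h2

theorem term_flatten {ws : List (List ℕ)} (h : Term G ws.flatten) : ∀ w ∈ ws, Term G w :=
  fun w hw a ha => h a (List.mem_flatten.mpr ⟨w, hw, ha⟩)

theorem sys_complete {C : Set ℕ} (b : Bool) (hC : ∀ X ∈ C, X ∉ G.T)
    (hone : ∀ X ∈ C, ∀ γ₁ Y γ₂, (X, γ₁ ++ Y :: γ₂) ∈ G.P → (∀ Z ∈ γ₁ ++ Y :: γ₂, Prod' G Z) →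
      Y ∈ C → (∀ Z ∈ γ₁, Z ∉ C) ∧ (∀ Z ∈ γ₂, Z ∉ C))
    {X : ℕ} (hX : X ∈ C) {w : List ℕ} (hw : w ∈ Lang G [X]) :
    ∃ c, Path (sysLab G C b) (some X) none c ∧ w = c.l ++ c.r := by
  refine Gen.ind (Q := fun X w => Term G w → X ∈ C →
    ∃ c, Path (sysLab G C b) (some X) none c ∧ w = c.l ++ c.r) ?_ ?_ hw.2 hw.1 hX
  · intro X ht hX
    exact absurd (ht X (by simp)) (hC X hX)
  · intro A γ ws hp hws ht hA
    have hl : ws.flatten ∈ Lang G γ := ⟨ht, gen_of_forall₂ hws⟩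
    by_cases hno : ∀ Z ∈ γ, Z ∉ C
    · cases b with
      | true =>
        exact ⟨⟨ws.flatten, []⟩, Path.edge ⟨hA, γ, hp, hno, Or.inl ⟨rfl, hl, rfl⟩⟩, by simp⟩
      | false =>
        exact ⟨⟨[], ws.flatten⟩, Path.edge ⟨hA, γ, hp, hno, Or.inr ⟨rfl, rfl, hl⟩⟩, by simp⟩
    · push Not at hno
      obtain ⟨Y, hY, hYC⟩ := hno
      obtain ⟨γ₁, γ₂, rfl⟩ := List.append_of_mem hY
      obtain ⟨n1, n2⟩ := hone A hA γ₁ Y γ₂ hp (prod_of_lang hl) hYC
      obtain ⟨ws₁, w, ws₂, rfl, h1, h2, h3⟩ := forall₂_split hws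
      simp only [List.flatten_append, List.flatten_cons] at ht ⊢
      obtain ⟨t1, t⟩ := term_append.mp ht
      obtain ⟨t2, t3⟩ := term_append.mp t
      obtain ⟨c, hc, rfl⟩ := h2.2 t2 hYC
      refine ⟨(⟨ws₁.flatten, ws₂.flatten⟩ : Ctx) * c, Path.step (r := some Y)
        ⟨hA, hYC, γ₁, γ₂, hp, n1, n2, ⟨t1, gen_of_forall₂ h1⟩, ⟨t3, gen_of_forall₂ h3⟩⟩ hc, by simp⟩

theorem finite_splits (G : Grammar) (X Y : ℕ) :
    {p : List ℕ × List ℕ | (X, p.1 ++ Y :: p.2) ∈ G.P}.Finite := by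
  refine Set.Finite.subset (s := ⋃ q ∈ (G.P : Set (ℕ × List ℕ)), ⋃ i ∈ Set.Iic q.2.length,
    {(q.2.take i, q.2.drop (i + 1))}) ?_ ?_
  · exact G.P.finite_toSet.biUnion fun q _ =>
      (Set.finite_Iic _).biUnion fun i _ => Set.finite_singleton _
  · rintro ⟨γ₁, γ₂⟩ hp
    simp only [Set.mem_iUnion, Set.mem_singleton_iff]
    exact ⟨_, hp, γ₁.length, by simp, by simp⟩

theorem sys_rat {C : Set ℕ} (b : Bool) (hprod : ∀ Y ∈ C, Prod' G Y)
    (hreg : ∀ X ∈ C, ∀ γ, (X, γ) ∈ G.P → (∀ Z ∈ γ, Prod' G Z) → ∀ Z ∈ γ, Z ∉ C →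
      Reg (Lang G [Z])) (X : ℕ) : RatSet {c | Path (sysLab G C b) (some X) none c} := by
  refine ratSet_path (S := (fun p : ℕ × List ℕ => some p.1) '' (G.P : Set (ℕ × List ℕ))) ?_
    (G.P.finite_toSet.image _) ?_ (by simp)
  · rintro (_ | X) (_ | Y)
    · exact RatSet.empty
    · exact RatSet.empty
    · have hfin : {γ : List ℕ | (X, γ) ∈ G.P ∧ X ∈ C ∧ (∀ Z ∈ γ, Z ∉ C) ∧
          ∀ Z ∈ γ, Prod' G Z}.Finite := by
        refine (G.P.finite_toSet.image Prod.snd).subset ?_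
        rintro γ ⟨h, _⟩
        exact ⟨_, h, rfl⟩
      have := RatSet.biUnion hfin (f := fun γ => {c : Ctx |
        ((b = true ∧ c.l ∈ Lang G γ ∧ c.r = []) ∨ (b = false ∧ c.l = [] ∧ c.r ∈ Lang G γ))}) (by
          rintro γ ⟨h1, h2, h3, h4⟩
          have hr : Reg (Lang G γ) := reg_lang fun Z hZ => hreg X h2 γ h1 h4 Z hZ (h3 Z hZ)
          cases b with
          | true => simpa [Reg] using hr
          | false => simpa [RegR] using reg_iff_regR.mp hr)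
      convert this using 1
      ext c
      simp only [sysLab, Set.mem_ofPred_eq, Set.mem_iUnion]
      constructor
      · rintro ⟨h1, γ, h2, h3, h4⟩
        refine ⟨γ, ⟨h2, h1, h3, ?_⟩, h4⟩
        rcases h4 with ⟨_, h, _⟩ | ⟨_, _, h⟩ <;> exact prod_of_lang h
      · rintro ⟨γ, ⟨h2, h1, h3, _⟩, h4⟩
        exact ⟨h1, γ, h2, h3, h4⟩
    · have hfin : {p : List ℕ × List ℕ | (X, p.1 ++ Y :: p.2) ∈ G.P ∧ X ∈ C ∧ Y ∈ C ∧
          (∀ Z ∈ p.1, Z ∉ C) ∧ (∀ Z ∈ p.2, Z ∉ C) ∧ (∀ Z ∈ p.1, Prod' G Z) ∧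
          ∀ Z ∈ p.2, Prod' G Z}.Finite :=
        (finite_splits G X Y).subset fun p hp => hp.1
      have := RatSet.biUnion hfin (f := fun p => {c : Ctx | c.l ∈ Lang G p.1 ∧ c.r ∈ Lang G p.2})
        (by
          rintro ⟨γ₁, γ₂⟩ ⟨h1, h2, h3, h4, h5, h6, h7⟩
          have hall : ∀ Z ∈ γ₁ ++ Y :: γ₂, Prod' G Z := by
            intro Z hZ
            simp only [List.mem_append, List.mem_cons] at hZ
            rcases hZ with hZ | rfl | hZ
            · exact h6 Z hZ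
            · exact hprod _ h3
            · exact h7 Z hZ
          refine ratSet_pair (reg_lang fun Z hZ => ?_) (reg_lang fun Z hZ => ?_)
          · exact hreg X h2 _ h1 hall Z (by simp [hZ]) (h4 Z hZ)
          · exact hreg X h2 _ h1 hall Z (by simp [hZ]) (h5 Z hZ))
      convert this using 1
      ext c
      simp only [sysLab, Set.mem_ofPred_eq, Set.mem_iUnion]
      constructor
      · rintro ⟨h1, h2, γ₁, γ₂, h3, h4, h5, h6, h7⟩
        exact ⟨(γ₁, γ₂), ⟨h3, h1, h2, h4, h5, prod_of_lang h6, prod_of_lang h7⟩, h6, h7⟩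
      · rintro ⟨⟨γ₁, γ₂⟩, ⟨h3, h1, h2, h4, h5, _, _⟩, h6, h7⟩
        exact ⟨h1, h2, γ₁, γ₂, h3, h4, h5, h6, h7⟩
  · rintro (_ | X) (_ | Y) x hx
    · exact absurd hx (Set.notMem_empty _)
    · exact absurd hx (Set.notMem_empty _)
    · obtain ⟨_, γ, hp, _⟩ := hx
      exact ⟨_, hp, rfl⟩
    · obtain ⟨_, _, γ₁, γ₂, hp, _⟩ := hx
      exact ⟨_, hp, rfl⟩

theorem path_side {lab : Option ℕ → Option ℕ → Set Ctx} {f : Ctx → List ℕ} (h1 : f 1 = [])
    (hm : ∀ x y, f x = [] → f y = [] → f (x * y) = []) (hl : ∀ p q x, x ∈ lab p q → f x = [])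
    {p q : Option ℕ} {c : Ctx} (h : Path lab p q c) : f c = [] := by
  induction h with
  | refl => exact h1
  | step hx _ ih => exact hm _ _ (hl _ _ _ hx) ih

/-- Chomsky's theorem on non-self-embedding nonterminals. -/
theorem reg_of_not_bad (hG : IsCF G) : ∀ (n : ℕ) (A : ℕ), A ∈ G.V →
    {Y | Y ∈ G.V ∧ Reach G A Y}.ncard ≤ n → ¬ Bad G A → Reg (Lang G [A]) := by
  intro n
  induction n with
  | zero =>
    intro A hA hn _
    have hfin : {Y | Y ∈ G.V ∧ Reach G A Y}.Finite := G.V.finite_toSet.subset fun Y hY => hY.1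
    have := (Set.ncard_pos hfin).mpr ⟨A, hA, Reach.refl A⟩
    omega
  | succ n ih =>
    intro A hA hn hbad
    by_cases hT : A ∈ G.T
    · have : Lang G [A] = {[A]} := by
        ext w
        constructor
        · rintro ⟨_, h⟩
          exact Gen.of_term hG (w := [A]) (by simpa [Term] using hT) h
        · rintro rfl
          exact ⟨by simpa [Term] using hT, Gen.refl _⟩
      rw [this]
      exact reg_single _
    by_cases hne : ¬ NE G A
    · by_cases h0 : [] ∈ Lang G [A]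
      · have : Lang G [A] = {[]} := by
          ext w
          constructor
          · intro hw
            by_contra hw'
            exact hne ⟨w, hw, hw'⟩
          · rintro rfl
            exact h0
        rw [this]
        exact reg_single _
      · have : Lang G [A] = ∅ := by
          ext w
          constructor
          · intro hw
            by_cases hw' : w = []
            · exact absurd (hw' ▸ hw) h0
            · exact absurd ⟨w, hw, hw'⟩ hne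
          · intro h
            exact absurd h (Set.notMem_empty _)
        rw [this]
        exact reg_empty
    rw [not_not] at hne
    let C : Set ℕ := {Y | Reach G A Y ∧ Reach G Y A}
    have hAC : A ∈ C := ⟨Reach.refl A, Reach.refl A⟩
    have hNE : ∀ Y ∈ C, NE G Y := by
      rintro Y ⟨_, l, r, t1, t2, g⟩
      obtain ⟨w, hw, hw'⟩ := hne
      refine ⟨l ++ w ++ r, ⟨term_append.mpr ⟨term_append.mpr ⟨t1, hw.1⟩, t2⟩, ?_⟩, by simp [hw']⟩
      exact g.trans (Gen.append3 (Gen.refl l) hw.2 (Gen.refl r))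
    have hprod : ∀ Y ∈ C, Prod' G Y := fun Y hY => (hNE Y hY).imp fun _ h => h.1
    have hC : ∀ X ∈ C, X ∉ G.T := by
      intro X hX hXT
      have := Reach.of_term hG hXT hX.2
      exact hT (this ▸ hXT)
    have loop : ∀ X ∈ C, ∀ Y ∈ C, ∀ γ₁ γ₂ u v, (X, γ₁ ++ Y :: γ₂) ∈ G.P → u ∈ Lang G γ₁ →
        v ∈ Lang G γ₂ → ∃ l l' r r', Term G (l ++ u ++ l') ∧ Term G (r' ++ v ++ r) ∧
          Gen G [A] ((l ++ u ++ l') ++ A :: (r' ++ v ++ r)) := by
      rintro X ⟨⟨l, r, t1, t2, g⟩, _⟩ Y ⟨_, l', r', t1', t2', g'⟩ γ₁ γ₂ u v hp hu hv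
      refine ⟨l, l', r, r', term_append.mpr ⟨term_append.mpr ⟨t1, hu.1⟩, t1'⟩,
        term_append.mpr ⟨term_append.mpr ⟨t2', hv.1⟩, t2⟩, ?_⟩
      have g1 := (reach_of_prod hp hu hv).trans (Gen.append3 (Gen.refl u) g' (Gen.refl v))
      have := g.trans (Gen.append3 (Gen.refl l) g1 (Gen.refl r))
      simpa using this
    have hLR : (∃ u v, Term G u ∧ Term G v ∧ u ≠ [] ∧ Gen G [A] (u ++ A :: v)) →
        (∃ u v, Term G u ∧ Term G v ∧ v ≠ [] ∧ Gen G [A] (u ++ A :: v)) → False := by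
      rintro ⟨u, v, t1, t2, hu, g⟩ ⟨u', v', t1', t2', hv', g'⟩
      refine hbad ⟨A, Reach.refl A, ⟨u ++ u', v' ++ v, term_append.mpr ⟨t1, t1'⟩,
        term_append.mpr ⟨t2', t2⟩, by simp [hu], by simp [hv'], ?_⟩, hprod A hAC⟩
      have := g.trans (Gen.append3 (Gen.refl u) g' (Gen.refl v))
      simpa using this
    have LG : ∀ X ∈ C, ∀ Y ∈ C, ∀ γ₁ γ₂ u v, (X, γ₁ ++ Y :: γ₂) ∈ G.P → u ∈ Lang G γ₁ →
        v ∈ Lang G γ₂ → u ≠ [] →
        ∃ u v, Term G u ∧ Term G v ∧ u ≠ [] ∧ Gen G [A] (u ++ A :: v) := by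
      intro X hX Y hY γ₁ γ₂ u v hp hu hv hne
      obtain ⟨l, l', r, r', t1, t2, g⟩ := loop X hX Y hY γ₁ γ₂ u v hp hu hv
      exact ⟨_, _, t1, t2, by simp [hne], g⟩
    have RG : ∀ X ∈ C, ∀ Y ∈ C, ∀ γ₁ γ₂ u v, (X, γ₁ ++ Y :: γ₂) ∈ G.P → u ∈ Lang G γ₁ →
        v ∈ Lang G γ₂ → v ≠ [] →
        ∃ u v, Term G u ∧ Term G v ∧ v ≠ [] ∧ Gen G [A] (u ++ A :: v) := by
      intro X hX Y hY γ₁ γ₂ u v hp hu hv hne
      obtain ⟨l, l', r, r', t1, t2, g⟩ := loop X hX Y hY γ₁ γ₂ u v hp hu hv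
      exact ⟨_, _, t1, t2, by simp [hne], g⟩
    have two : ∀ X ∈ C, ∀ γ₁ Y γ₂ Z γ₃, (X, γ₁ ++ Y :: γ₂ ++ Z :: γ₃) ∈ G.P →
        (∀ W ∈ γ₁ ++ Y :: γ₂ ++ Z :: γ₃, Prod' G W) → Y ∈ C → Z ∈ C → False := by
      intro X hX γ₁ Y γ₂ Z γ₃ hp hall hY hZ
      apply hLR
      · obtain ⟨u, hu, hu'⟩ := exists_lang_ne (β := γ₁ ++ Y :: γ₂)
          (fun W hW => hall W (List.mem_append_left _ hW)) (Y := Y) (by simp) (hNE Y hY)
        obtain ⟨v, hv⟩ := exists_lang (β := γ₃) (fun W hW => hall W (by simp [hW]))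
        exact LG X hX Z hZ _ _ u v hp hu hv hu'
      · obtain ⟨v, hv, hv'⟩ := exists_lang_ne (β := γ₂ ++ Z :: γ₃)
          (fun W hW => hall W (by
            simp only [List.mem_append, List.mem_cons] at hW ⊢; tauto)) (Y := Z) (by simp) (hNE Z hZ)
        obtain ⟨u, hu⟩ := exists_lang (β := γ₁) (fun W hW => hall W (by simp [hW]))
        exact RG X hX Y hY γ₁ _ u v (by simpa using hp) hu hv hv'
    have hone : ∀ X ∈ C, ∀ γ₁ Y γ₂, (X, γ₁ ++ Y :: γ₂) ∈ G.P →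
        (∀ Z ∈ γ₁ ++ Y :: γ₂, Prod' G Z) → Y ∈ C → (∀ Z ∈ γ₁, Z ∉ C) ∧ (∀ Z ∈ γ₂, Z ∉ C) := by
      intro X hX γ₁ Y γ₂ hp hall hY
      constructor
      · intro Z hZ hZC
        obtain ⟨δ₁, δ₂, rfl⟩ := List.append_of_mem hZ
        exact two X hX δ₁ Z δ₂ Y γ₂ hp hall hZC hY
      · intro Z hZ hZC
        obtain ⟨δ₁, δ₂, rfl⟩ := List.append_of_mem hZ
        exact two X hX γ₁ Y δ₁ Z δ₂ (by simpa using hp) (by simpa using hall) hY hZC
    have hreg : ∀ X ∈ C, ∀ γ, (X, γ) ∈ G.P → (∀ Z ∈ γ, Prod' G Z) → ∀ Z ∈ γ, Z ∉ C →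
        Reg (Lang G [Z]) := by
      intro X hX γ hp hall Z hZ hZC
      have hAZ : Reach G A Z := hX.1.trans (reach_of_mem hp hall hZ)
      refine ih Z ((hG.1.2.2 _ hp).2 Z hZ) ?_ ?_
      · have hfin : {Y | Y ∈ G.V ∧ Reach G A Y}.Finite := G.V.finite_toSet.subset fun Y hY => hY.1
        have hss : {Y | Y ∈ G.V ∧ Reach G Z Y} ⊂ {Y | Y ∈ G.V ∧ Reach G A Y} := by
          refine ⟨fun Y hY => ⟨hY.1, hAZ.trans hY.2⟩, fun hsub => ?_⟩
          exact hZC ⟨hAZ, (hsub ⟨hA, Reach.refl A⟩).2⟩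
        have := Set.ncard_lt_ncard hss hfin
        omega
      · rintro ⟨Y, h1, h2⟩
        exact hbad ⟨Y, hAZ.trans h1, h2⟩
    by_cases hL : ∃ u v, Term G u ∧ Term G v ∧ u ≠ [] ∧ Gen G [A] (u ++ A :: v)
    · have hR := hLR hL
      have hside : ∀ c, Path (sysLab G C true) (some A) none c → c.r = [] := by
        intro c hc
        refine path_side (f := Ctx.r) rfl (fun x y h1 h2 => by simp [h1, h2]) ?_ hc
        rintro (_ | X) (_ | Y) x hx
        · exact absurd hx (Set.notMem_empty _)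
        · exact absurd hx (Set.notMem_empty _)
        · obtain ⟨_, γ, _, _, ⟨_, _, h⟩ | ⟨h, _⟩⟩ := hx
          · exact h
          · cases h
        · obtain ⟨h1, h2, γ₁, γ₂, hp, _, _, h3, h4⟩ := hx
          by_contra hne
          exact hR (RG X h1 Y h2 γ₁ γ₂ _ _ hp h3 h4 hne)
      unfold Reg
      convert sys_rat true hprod hreg A using 1
      ext c
      constructor
      · rintro ⟨h1, h2⟩
        obtain ⟨d, hd, e⟩ := sys_complete true hC hone hAC h1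
        have h3 := hside d hd
        have : c = d := Ctx.ext' (by simpa [h3] using e) (by rw [h2, h3])
        rw [this]
        exact hd
      · intro hc
        have h3 := hside c hc
        exact ⟨by simpa [h3] using sys_sound hc, h3⟩
    · have hside : ∀ c, Path (sysLab G C false) (some A) none c → c.l = [] := by
        intro c hc
        refine path_side (f := Ctx.l) rfl (fun x y h1 h2 => by simp [h1, h2]) ?_ hc
        rintro (_ | X) (_ | Y) x hx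
        · exact absurd hx (Set.notMem_empty _)
        · exact absurd hx (Set.notMem_empty _)
        · obtain ⟨_, γ, _, _, ⟨h, _⟩ | ⟨_, h, _⟩⟩ := hx
          · cases h
          · exact h
        · obtain ⟨h1, h2, γ₁, γ₂, hp, _, _, h3, h4⟩ := hx
          by_contra hne
          exact hL (LG X h1 Y h2 γ₁ γ₂ _ _ hp h3 h4 hne)
      rw [reg_iff_regR]
      unfold RegR
      convert sys_rat false hprod hreg A using 1
      ext c
      constructor
      · rintro ⟨h2, h1⟩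
        obtain ⟨d, hd, e⟩ := sys_complete false hC hone hAC h1
        have h3 := hside d hd
        have : c = d := Ctx.ext' (by rw [h2, h3]) (by simpa [h3] using e)
        rw [this]
        exact hd
      · intro hc
        have h3 := hside c hc
        exact ⟨h3, by simpa [h3] using sys_sound hc⟩

/-- Two independent productive self-embedding nonterminals below the start symbol. -/
def DoubleSE (G : Grammar) : Prop :=
  ∃ (D E : ℕ) (x₀ x₁ x₂ : List ℕ), Term G x₀ ∧ Term G x₁ ∧ Term G x₂ ∧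
    Gen G [G.S] (x₀ ++ D :: x₁ ++ E :: x₂) ∧ SE G D ∧ Prod' G D ∧ SE G E ∧ Prod' G E

theorem linR_of_not_doubleSE (hG : IsCF G) (h : ¬ DoubleSE G) : LinR (cfLang G) := by
  have hL : cfLang G = Lang G [G.S] := by
    ext w
    exact mem_cfLang
  rw [hL]
  by_cases hS : ¬ Bad G G.S
  · exact (reg_of_not_bad hG _ _ hG.1.2.1 le_rfl hS).linR
  rw [not_not] at hS
  let C : Set ℕ := {Y | Reach G G.S Y ∧ Bad G Y}
  have hSC : G.S ∈ C := ⟨Reach.refl _, hS⟩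
  have hprod : ∀ Y ∈ C, Prod' G Y := by
    rintro Y ⟨_, Z, ⟨l, r, t1, t2, g⟩, _, w, hw⟩
    exact ⟨l ++ w ++ r, term_append.mpr ⟨term_append.mpr ⟨t1, hw.1⟩, t2⟩,
      g.trans (Gen.append3 (Gen.refl l) hw.2 (Gen.refl r))⟩
  have hC : ∀ X ∈ C, X ∉ G.T := by
    rintro X ⟨_, Z, h1, h2, _⟩ hXT
    have := Reach.of_term hG hXT h1
    exact h2.not_term hG (this ▸ hXT)
  have two : ∀ X ∈ C, ∀ γ₁ Y γ₂ Z γ₃, (X, γ₁ ++ Y :: γ₂ ++ Z :: γ₃) ∈ G.P →
      (∀ W ∈ γ₁ ++ Y :: γ₂ ++ Z :: γ₃, Prod' G W) → Y ∈ C → Z ∈ C → False := by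
    rintro X ⟨⟨l, r, t1, t2, g⟩, _⟩ γ₁ Y γ₂ Z γ₃ hp hall ⟨_, D, ⟨l₁, r₁, t3, t4, g₁⟩, hD⟩
      ⟨_, E, ⟨l₂, r₂, t5, t6, g₂⟩, hE⟩
    obtain ⟨u₁, hu₁⟩ := exists_lang (β := γ₁) (fun W hW => hall W (by simp [hW]))
    obtain ⟨u₂, hu₂⟩ := exists_lang (β := γ₂) (fun W hW => hall W (by simp [hW]))
    obtain ⟨u₃, hu₃⟩ := exists_lang (β := γ₃) (fun W hW => hall W (by simp [hW]))
    refine h ⟨D, E, l ++ u₁ ++ l₁, r₁ ++ u₂ ++ l₂, r₂ ++ u₃ ++ r, ?_, ?_, ?_, ?_, hD.1, hD.2,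
      hE.1, hE.2⟩
    · exact term_append.mpr ⟨term_append.mpr ⟨t1, hu₁.1⟩, t3⟩
    · exact term_append.mpr ⟨term_append.mpr ⟨t4, hu₂.1⟩, t5⟩
    · exact term_append.mpr ⟨term_append.mpr ⟨t6, hu₃.1⟩, t2⟩
    · have g3 := Gen.prod hp (Gen.append3 (Gen.append3 hu₁.2 g₁ hu₂.2) g₂ hu₃.2)
      have := g.trans (Gen.append3 (Gen.refl l) g3 (Gen.refl r))
      simpa using this
  have hone : ∀ X ∈ C, ∀ γ₁ Y γ₂, (X, γ₁ ++ Y :: γ₂) ∈ G.P →
      (∀ Z ∈ γ₁ ++ Y :: γ₂, Prod' G Z) → Y ∈ C → (∀ Z ∈ γ₁, Z ∉ C) ∧ (∀ Z ∈ γ₂, Z ∉ C) := by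
    intro X hX γ₁ Y γ₂ hp hall hY
    constructor
    · intro Z hZ hZC
      obtain ⟨δ₁, δ₂, rfl⟩ := List.append_of_mem hZ
      exact two X hX δ₁ Z δ₂ Y γ₂ hp hall hZC hY
    · intro Z hZ hZC
      obtain ⟨δ₁, δ₂, rfl⟩ := List.append_of_mem hZ
      exact two X hX γ₁ Y δ₁ Z δ₂ (by simpa using hp) (by simpa using hall) hY hZC
  have hreg : ∀ X ∈ C, ∀ γ, (X, γ) ∈ G.P → (∀ Z ∈ γ, Prod' G Z) → ∀ Z ∈ γ, Z ∉ C →
      Reg (Lang G [Z]) := by
    intro X hX γ hp hall Z hZ hZC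
    have hAZ : Reach G G.S Z := hX.1.trans (reach_of_mem hp hall hZ)
    exact reg_of_not_bad hG _ Z ((hG.1.2.2 _ hp).2 Z hZ) le_rfl fun hb => hZC ⟨hAZ, hb⟩
  refine ⟨_, sys_rat true hprod hreg G.S, ?_⟩
  ext w
  constructor
  · intro hw
    exact sys_complete true hC hone hSC hw
  · rintro ⟨c, hc, rfl⟩
    exact sys_sound hc

theorem doubleSE_of_not_linear (hG : IsCF G) (h : cfLang G ∉ famLIN) : DoubleSE G := by
  by_contra hd
  exact h (linR_of_not_doubleSE hG hd).exists_grammar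

end Pool.Agent.P.MP_1e6486_lc
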