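import Mathlib
import Pool.Agent.P.MP_1e6486_lc.CF

/-!
Parallel derivations of fixed length, mortal and immortal symbols.
-/

namespace Pool.Agent.P.MP_1e6486_lc

/-- Parallel derivations with exactly `d` steps. -/
def D (G : Grammar) : ℕ → List ℕ → List ℕ → Prop
  | 0, α, w => w = α
  | d + 1, α, w => ∃ β, eolStep G α β ∧ D G d β w

variable {G : Grammar}

theorem eolStep_nil {β : List ℕ} : eolStep G [] β ↔ β = [] := by
  constructor
  · rintro ⟨αs, h, rfl⟩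
    cases h
    rfl
  · rintro rfl
    exact ⟨[], List.Forall₂.nil, rfl⟩

theorem eolStep_cons {X : ℕ} {α β : List ℕ} :
    eolStep G (X :: α) β ↔ ∃ γ β', β = γ ++ β' ∧ (X, γ) ∈ G.P ∧ eolStep G α β' := by
  constructor
  · rintro ⟨αs, h, rfl⟩
    cases h with
    | cons h1 h2 => exact ⟨_, _, List.flatten_cons, h1, _, h2, rfl⟩
  · rintro ⟨γ, β', rfl, h1, αs, h2, rfl⟩
    exact ⟨γ :: αs, List.Forall₂.cons h1 h2, by simp⟩

theorem eolStep_single {X : ℕ} {γ : List ℕ} : eolStep G [X] γ ↔ (X, γ) ∈ G.P := by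
  simp [eolStep_cons, eolStep_nil]

theorem eolStep_append {α β δ : List ℕ} :
    eolStep G (α ++ β) δ ↔ ∃ δ₁ δ₂, δ = δ₁ ++ δ₂ ∧ eolStep G α δ₁ ∧ eolStep G β δ₂ := by
  induction α generalizing δ with
  | nil => simp [eolStep_nil]
  | cons X α ih =>
    simp only [List.cons_append, eolStep_cons, ih]
    constructor
    · rintro ⟨γ, _, rfl, h1, δ₁, δ₂, rfl, h2, h3⟩
      exact ⟨γ ++ δ₁, δ₂, by simp, ⟨γ, δ₁, rfl, h1, h2⟩, h3⟩
    · rintro ⟨_, δ₂, rfl, ⟨γ, δ₁, rfl, h1, h2⟩, h3⟩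
      exact ⟨γ, δ₁ ++ δ₂, by simp, h1, δ₁, δ₂, rfl, h2, h3⟩

theorem D_nil {d : ℕ} {w : List ℕ} : D G d [] w ↔ w = [] := by
  induction d with
  | zero => rfl
  | succ d ih => simp [D, eolStep_nil, ih]

theorem D_append {d : ℕ} {α β w : List ℕ} :
    D G d (α ++ β) w ↔ ∃ u v, w = u ++ v ∧ D G d α u ∧ D G d β v := by
  induction d generalizing α β with
  | zero => simp [D]
  | succ d ih =>
    simp only [D, eolStep_append]
    constructor
    · rintro ⟨_, ⟨δ₁, δ₂, rfl, h1, h2⟩, h3⟩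
      obtain ⟨u, v, rfl, h4, h5⟩ := ih.mp h3
      exact ⟨u, v, rfl, ⟨δ₁, h1, h4⟩, ⟨δ₂, h2, h5⟩⟩
    · rintro ⟨u, v, rfl, ⟨δ₁, h1, h4⟩, ⟨δ₂, h2, h5⟩⟩
      exact ⟨δ₁ ++ δ₂, ⟨δ₁, δ₂, rfl, h1, h2⟩, ih.mpr ⟨u, v, rfl, h4, h5⟩⟩

theorem D.append {d : ℕ} {α β u v : List ℕ} (h1 : D G d α u) (h2 : D G d β v) :
    D G d (α ++ β) (u ++ v) := D_append.mpr ⟨u, v, rfl, h1, h2⟩

theorem D_cons {d X : ℕ} {β w : List ℕ} :
    D G d (X :: β) w ↔ ∃ u v, w = u ++ v ∧ D G d [X] u ∧ D G d β v := D_append (α := [X])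

theorem D_split3 {d X : ℕ} {α β w : List ℕ} (h : D G d (α ++ X :: β) w) :
    ∃ w₁ w₂ w₃, w = w₁ ++ w₂ ++ w₃ ∧ D G d α w₁ ∧ D G d [X] w₂ ∧ D G d β w₃ := by
  obtain ⟨w₁, v, rfl, h1, h2⟩ := D_append.mp h
  obtain ⟨w₂, w₃, rfl, h3, h4⟩ := D_cons.mp h2
  exact ⟨w₁, w₂, w₃, by simp, h1, h3, h4⟩

theorem D.append3 {d X : ℕ} {α β w₁ w₂ w₃ : List ℕ} (h1 : D G d α w₁) (h2 : D G d [X] w₂)
    (h3 : D G d β w₃) : D G d (α ++ X :: β) (w₁ ++ w₂ ++ w₃) := by
  have := h1.append (h2.append h3)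
  simpa using this

theorem D_succ_single {d X : ℕ} {w : List ℕ} :
    D G (d + 1) [X] w ↔ ∃ γ, (X, γ) ∈ G.P ∧ D G d γ w := by
  simp [D, eolStep_single]

theorem D_add {i j : ℕ} {α w : List ℕ} : D G (i + j) α w ↔ ∃ β, D G i α β ∧ D G j β w := by
  induction i generalizing α with
  | zero => simp [D]
  | succ i ih =>
    rw [show i + 1 + j = (i + j) + 1 by omega]
    simp only [D, ih]
    constructor
    · rintro ⟨β, h1, δ, h2, h3⟩
      exact ⟨δ, ⟨β, h1, h2⟩, h3⟩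
    · rintro ⟨δ, ⟨β, h1, h2⟩, h3⟩
      exact ⟨β, h1, δ, h2, h3⟩

theorem D.trans {i j : ℕ} {α β w : List ℕ} (h1 : D G i α β) (h2 : D G j β w) :
    D G (i + j) α w := D_add.mpr ⟨β, h1, h2⟩

theorem D_one {α β : List ℕ} : D G 1 α β ↔ eolStep G α β := by simp [D]

theorem rtg_iff_D {α w : List ℕ} :
    Relation.ReflTransGen (eolStep G) α w ↔ ∃ d, D G d α w := by
  constructor
  · intro h
    induction h with
    | refl => exact ⟨0, rfl⟩
    | tail _ hs ih =>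
      obtain ⟨d, hd⟩ := ih
      exact ⟨d + 1, hd.trans (D_one.mpr hs)⟩
  · rintro ⟨d, hd⟩
    induction d generalizing α with
    | zero => cases hd; exact Relation.ReflTransGen.refl
    | succ d ih =>
      obtain ⟨β, h1, h2⟩ := hd
      exact Relation.ReflTransGen.head h1 (ih h2)

theorem mem_eolLang {w : List ℕ} : w ∈ eolLang G ↔ Term G w ∧ ∃ d, D G d [G.S] w := by
  simp only [eolLang, Set.mem_ofPred_eq, rtg_iff_D, Term]

theorem eolStep_length {α β : List ℕ} (h : eolStep G α β) : β.length ≤ α.length * G.K := by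
  induction α generalizing β with
  | nil => simp [eolStep_nil.mp h]
  | cons X α ih =>
    obtain ⟨γ, β', rfl, h1, h2⟩ := eolStep_cons.mp h
    have := ih h2
    have := Grammar.length_le_K h1
    simp only [List.length_append, List.length_cons]
    nlinarith

theorem D_length {d : ℕ} {α w : List ℕ} (h : D G d α w) : w.length ≤ α.length * G.K ^ d := by
  induction d generalizing α with
  | zero => cases h; simp
  | succ d ih =>
    obtain ⟨β, h1, h2⟩ := h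
    calc w.length ≤ β.length * G.K ^ d := ih h2
      _ ≤ α.length * G.K * G.K ^ d := Nat.mul_le_mul_right _ (eolStep_length h1)
      _ = α.length * G.K ^ (d + 1) := by ring

theorem D_length_single {d X : ℕ} {w : List ℕ} (h : D G d [X] w) : w.length ≤ G.K ^ d := by
  simpa using D_length h

theorem eolStep_mem_V (hG : G.WF) {α β : List ℕ} (h : eolStep G α β) : ∀ y ∈ β, y ∈ G.V := by
  induction α generalizing β with
  | nil => simp [eolStep_nil.mp h]
  | cons X α ih =>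
    obtain ⟨γ, β', rfl, h1, h2⟩ := eolStep_cons.mp h
    intro y hy
    rcases List.mem_append.mp hy with hy | hy
    · exact (hG.2.2 _ h1).2 y hy
    · exact ih h2 y hy

theorem D_mem_V (hG : G.WF) {d : ℕ} {α w : List ℕ} (hα : ∀ y ∈ α, y ∈ G.V) (h : D G d α w) :
    ∀ y ∈ w, y ∈ G.V := by
  induction d generalizing α with
  | zero => cases h; exact hα
  | succ d ih =>
    obtain ⟨β, h1, h2⟩ := h
    exact ih (eolStep_mem_V hG h1) h2

theorem D_forall₂ {d : ℕ} {γ w : List ℕ} (h : D G d γ w) :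
    ∃ ws, List.Forall₂ (fun X w => D G d [X] w) γ ws ∧ w = ws.flatten := by
  induction γ generalizing w with
  | nil => exact ⟨[], List.Forall₂.nil, D_nil.mp h⟩
  | cons X γ ih =>
    obtain ⟨u, v, rfl, h1, h2⟩ := D_cons.mp h
    obtain ⟨ws, h3, rfl⟩ := ih h2
    exact ⟨u :: ws, List.Forall₂.cons h1 h3, by simp⟩

theorem D_of_forall₂ {d : ℕ} {γ : List ℕ} {ws : List (List ℕ)}
    (h : List.Forall₂ (fun X w => D G d [X] w) γ ws) : D G d γ ws.flatten := by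
  induction h with
  | nil => exact D_nil.mpr rfl
  | cons h1 _ ih => exact D_cons.mpr ⟨_, _, List.flatten_cons, h1, ih⟩

theorem D_choice {F : ℕ → Prop} {d : ℕ} {γ : List ℕ}
    (h : ∀ X ∈ γ, ∃ w, (∀ y ∈ w, F y) ∧ D G d [X] w) : ∃ w, (∀ y ∈ w, F y) ∧ D G d γ w := by
  induction γ with
  | nil => exact ⟨[], by simp, D_nil.mpr rfl⟩
  | cons X γ ih =>
    obtain ⟨u, hu, h1⟩ := h X (by simp)
    obtain ⟨v, hv, h2⟩ := ih fun Y hY => h Y (List.mem_cons_of_mem _ hY)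
    refine ⟨u ++ v, fun y hy => ?_, D_cons.mpr ⟨u, v, rfl, h1, h2⟩⟩
    exact (List.mem_append.mp hy).elim (hu y) (hv y)

theorem D_part {d : ℕ} {γ w : List ℕ} (h : D G d γ w) {X : ℕ} (hX : X ∈ γ) :
    ∃ u, D G d [X] u ∧ u.Sublist w := by
  obtain ⟨γ₁, γ₂, rfl⟩ := List.append_of_mem hX
  obtain ⟨w₁, w₂, w₃, rfl, _, h2, _⟩ := D_split3 h
  exact ⟨w₂, h2, (List.sublist_append_right _ _).trans (List.sublist_append_left _ _)⟩

theorem D_part2 {d : ℕ} {γ w : List ℕ} (h : D G d γ w) {X Y : ℕ} (hX : X ∈ γ) (hY : Y ∈ γ)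
    (hne : X ≠ Y) : ∃ u v, D G d [X] u ∧ D G d [Y] v ∧ ((u ++ v).Sublist w ∨ (v ++ u).Sublist w) := by
  obtain ⟨γ₁, γ₂, rfl⟩ := List.append_of_mem hX
  obtain ⟨w₁, w₂, w₃, rfl, h1, h2, h3⟩ := D_split3 h
  simp only [List.mem_append, List.mem_cons] at hY
  rcases hY with hY | rfl | hY
  · obtain ⟨v, hv, hs⟩ := D_part h1 hY
    exact ⟨w₂, v, h2, hv, Or.inr ((hs.append (List.Sublist.refl _)).trans
      (List.sublist_append_left _ _))⟩
  · exact absurd rfl hne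
  · obtain ⟨v, hv, hs⟩ := D_part h3 hY
    refine ⟨w₂, v, h2, hv, Or.inl ?_⟩
    rw [List.append_assoc]
    exact ((List.Sublist.refl _).append hs).trans (List.sublist_append_right _ _)

theorem D_letter {d : ℕ} {γ w : List ℕ} (h : D G d γ w) {a : ℕ} (ha : a ∈ w) :
    ∃ γ₁ X γ₂ w₁ u w₂, γ = γ₁ ++ X :: γ₂ ∧ w = w₁ ++ u ++ w₂ ∧ D G d γ₁ w₁ ∧ D G d [X] u ∧
      D G d γ₂ w₂ ∧ a ∈ u := by
  induction γ generalizing w with
  | nil => simp [D_nil.mp h] at ha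
  | cons X γ ih =>
    obtain ⟨u, v, rfl, h1, h2⟩ := D_cons.mp h
    rcases List.mem_append.mp ha with ha | ha
    · exact ⟨[], X, γ, [], u, v, rfl, by simp, D_nil.mpr rfl, h1, h2, ha⟩
    · obtain ⟨γ₁, Y, γ₂, w₁, u', w₂, rfl, rfl, h3, h4, h5, h6⟩ := ih h2 ha
      exact ⟨X :: γ₁, Y, γ₂, u ++ w₁, u', w₂, rfl, by simp, D_cons.mpr ⟨_, _, rfl, h1, h3⟩,
        h4, h5, h6⟩

theorem D_heavy {d a n : ℕ} {γ w : List ℕ} (h : D G d γ w) (hn : γ.length * n < w.count a) :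
    ∃ γ₁ X γ₂ w₁ u w₂, γ = γ₁ ++ X :: γ₂ ∧ w = w₁ ++ u ++ w₂ ∧ D G d γ₁ w₁ ∧ D G d [X] u ∧
      D G d γ₂ w₂ ∧ n < u.count a := by
  obtain ⟨ws, h1, rfl⟩ := D_forall₂ h
  obtain ⟨γ₁, X, γ₂, ws₁, u, ws₂, rfl, rfl, h2, h3, h4, h5⟩ :=
    forall₂_heavy (List.count a) (fun u v => List.count_append) h1 hn
  exact ⟨γ₁, X, γ₂, ws₁.flatten, u, ws₂.flatten, rfl, by simp, D_of_forall₂ h2, h3,
    D_of_forall₂ h4, h5⟩

theorem D_total (hG : IsEOL G) (d : ℕ) {α : List ℕ} (hα : ∀ y ∈ α, y ∈ G.V) :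
    ∃ w, D G d α w := by
  induction d generalizing α with
  | zero => exact ⟨α, rfl⟩
  | succ d ih =>
    have : ∃ β, eolStep G α β := by
      induction α with
      | nil => exact ⟨[], eolStep_nil.mpr rfl⟩
      | cons X α ih2 =>
        obtain ⟨γ, h1⟩ := hG.2 X (hα X (by simp))
        obtain ⟨β, h2⟩ := ih2 fun y hy => hα y (List.mem_cons_of_mem _ hy)
        exact ⟨γ ++ β, eolStep_cons.mpr ⟨γ, β, rfl, h1, h2⟩⟩
    obtain ⟨β, hβ⟩ := this
    obtain ⟨w, hw⟩ := ih (eolStep_mem_V hG.1 hβ)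
    exact ⟨w, β, hβ, hw⟩

/-- Immortal symbols have nonempty derivations of every length. -/
def Imm (G : Grammar) (X : ℕ) : Prop := ∀ n, ∃ w, w ≠ [] ∧ D G n [X] w

theorem exists_mortal_bound (G : Grammar) :
    ∃ n₀, ∀ X ∈ G.V, ¬ Imm G X → ∀ n, n₀ ≤ n → ∀ w, D G n [X] w → w = [] := by
  have : ∀ᶠ n₀ in Filter.atTop, ∀ X ∈ (G.V : Set ℕ),
      ¬ Imm G X → ∀ n, n₀ ≤ n → ∀ w, D G n [X] w → w = [] := by
    rw [Filter.eventually_all_finite G.V.finite_toSet]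
    intro X _
    by_cases hX : Imm G X
    · exact Filter.Eventually.of_forall fun _ h => absurd hX h
    · have hX' := hX
      simp only [Imm, not_forall, not_exists, not_and] at hX'
      obtain ⟨m, hm⟩ := hX'
      filter_upwards [Filter.eventually_ge_atTop m] with n₀ hn₀ _ n hn w hw
      obtain ⟨k, rfl⟩ := Nat.exists_eq_add_of_le (hn₀.trans hn)
      obtain ⟨β, h1, h2⟩ := D_add.mp hw
      have : β = [] := by
        by_contra hβ
        exact hm β hβ h1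
      subst this
      exact D_nil.mp h2
  exact this.exists

theorem D_mortal {n : ℕ} {γ w : List ℕ} (h : ∀ X ∈ γ, ∀ w, D G n [X] w → w = [])
    (hw : D G n γ w) : w = [] := by
  by_contra hne
  obtain ⟨a, ha⟩ := List.exists_mem_of_ne_nil w hne
  obtain ⟨γ₁, X, γ₂, w₁, u, w₂, rfl, rfl, _, h2, _, h4⟩ := D_letter hw ha
  rw [h X (by simp) u h2] at h4
  simp at h4

theorem Imm.prod (hG : G.WF) {X : ℕ} (hX : Imm G X) : ∃ γ, (X, γ) ∈ G.P ∧ ∃ Y ∈ γ, Imm G Y := by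
  obtain ⟨n₀, h₀⟩ := exists_mortal_bound G
  obtain ⟨w, hw, hd⟩ := hX (n₀ + 1)
  obtain ⟨γ, hp, hd⟩ := D_succ_single.mp hd
  refine ⟨γ, hp, ?_⟩
  by_contra hno
  push Not at hno
  exact hw (D_mortal (fun Y hY => h₀ Y ((hG.2.2 _ hp).2 Y hY) (hno Y hY) n₀ le_rfl) hd)

theorem imm_of_derives (hG : IsEOL G) {d X a : ℕ} {w : List ℕ} (hX : X ∈ G.V) (h : D G d [X] w)
    (ha : a ∈ w) (hi : Imm G a) : Imm G X := by
  intro n
  have hw := D_mem_V hG.1 (by simpa using hX) h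
  obtain ⟨w₁, w₂, rfl⟩ := List.append_of_mem ha
  obtain ⟨u, hu, h2⟩ := hi n
  obtain ⟨u₁, h1⟩ := D_total hG n (α := w₁) fun y hy => hw y (by simp [hy])
  obtain ⟨u₃, h3⟩ := D_total hG n (α := w₂) fun y hy => hw y (by simp [hy])
  have := h.trans (h1.append3 h2 h3)
  rw [Nat.add_comm] at this
  obtain ⟨β, h4, h5⟩ := D_add.mp this
  refine ⟨β, ?_, h4⟩
  rintro rfl
  have := D_nil.mp h5
  simp [hu] at this

theorem eventually_periodic {β : Type} [Finite β] (s : ℕ → β)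
    (hs : ∀ i j, s i = s j → s (i + 1) = s (j + 1)) :
    ∃ N p : ℕ, ∀ d d', N ≤ d → N ≤ d' → (d : ZMod (p + 1)) = (d' : ZMod (p + 1)) → s d = s d' := by
  have key : ∀ i j, i < j → s i = s j → ∃ N p : ℕ, ∀ d d', N ≤ d → N ≤ d' →
      (d : ZMod (p + 1)) = (d' : ZMod (p + 1)) → s d = s d' := by
    intro i j hij h
    obtain ⟨p, rfl⟩ := Nat.exists_eq_add_of_lt hij
    have h1 : ∀ k, s (i + k) = s (i + p + 1 + k) := by
      intro k
      induction k with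
      | zero => exact h
      | succ k ih => exact hs _ _ ih
    have h2 : ∀ d, i ≤ d → ∀ c, s d = s (d + c * (p + 1)) := by
      intro d hd c
      induction c with
      | zero => simp
      | succ c ih =>
        obtain ⟨k, rfl⟩ := Nat.exists_eq_add_of_le hd
        rw [ih, show i + k + c * (p + 1) = i + (k + c * (p + 1)) by ring, h1]
        congr 1
        ring
    have h3 : ∀ d d', i ≤ d → d ≤ d' → (d : ZMod (p + 1)) = (d' : ZMod (p + 1)) → s d = s d' := by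
      intro d d' hd hdd he
      rw [ZMod.natCast_eq_natCast_iff] at he
      obtain ⟨c, hc⟩ := (Nat.modEq_iff_dvd' hdd).mp he
      rw [h2 d hd c]
      congr 1
      rw [mul_comm, ← hc]
      omega
    refine ⟨i, p, fun d d' hd hd' he => ?_⟩
    rcases le_total d d' with h | h
    · exact h3 d d' hd h he
    · exact (h3 d' d hd' h he.symm).symm
  obtain ⟨i, j, hij, h⟩ := Finite.exists_ne_map_eq_of_infinite s
  rcases lt_or_gt_of_ne hij with h' | h'
  · exact key i j h' h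
  · exact key j i h' h.symm

/-- A node high enough whose yield consists of mortal terminals can be erased. -/
theorem exists_erase (hG : IsEOL G) : ∃ N₁, ∀ X ∈ G.V, ∀ w, (∀ y ∈ w, y ∈ G.T ∧ ¬ Imm G y) →
    D G N₁ [X] w → D G N₁ [X] [] := by
  obtain ⟨n₀, h₀⟩ := exists_mortal_bound G
  let s : ℕ → Set G.V := fun d => {X | ∃ w, (∀ y ∈ w, y ∈ G.T ∧ ¬ Imm G y) ∧ D G d [X.1] w}
  have step : ∀ i j, s i = s j → s (i + 1) ⊆ s (j + 1) := by
    rintro i j h X ⟨w, hw, hd⟩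
    obtain ⟨γ, hp, hd⟩ := D_succ_single.mp hd
    obtain ⟨w', hw', hd'⟩ := D_choice (G := G) (F := fun y => y ∈ G.T ∧ ¬ Imm G y) (d := j)
      (γ := γ) (by
        intro Y hY
        obtain ⟨u, hu, hs⟩ := D_part hd hY
        have : (⟨Y, (hG.1.2.2 _ hp).2 Y hY⟩ : G.V) ∈ s i := ⟨u, fun y hy => hw y (hs.subset hy), hu⟩
        rw [h] at this
        exact this)
    exact ⟨w', hw', D_succ_single.mpr ⟨γ, hp, hd'⟩⟩
  obtain ⟨N, p, hper⟩ := eventually_periodic s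
    fun i j h => Set.Subset.antisymm (step i j h) (step j i h.symm)
  refine ⟨N + n₀ * (p + 1), fun X hX w hw hd => ?_⟩
  have h1 : (⟨X, hX⟩ : G.V) ∈ s (N + n₀ * (p + 1)) := ⟨w, hw, hd⟩
  rw [hper (N + n₀ * (p + 1)) N (by omega) le_rfl (by simp)] at h1
  obtain ⟨w', hw', hd'⟩ := h1
  obtain ⟨z, hz⟩ := D_total hG (n₀ * (p + 1)) (α := w') fun y hy => hG.1.1 (hw' y hy).1
  have : z = [] := D_mortal (fun Y hY => h₀ Y (hG.1.1 (hw' Y hY).1) (hw' Y hY).2 _
    (Nat.le_mul_of_pos_right _ (by omega))) hz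
  subst this
  exact D.trans hd' hz

theorem block_aux {b : ℕ} {ws : List (List ℕ)} (hb : ∀ w ∈ ws, w.length ≤ b) {y z : List ℕ}
    (h : ws.flatten = y ++ z) (hy : b < y.length) :
    ∃ ws₁ w ws₂, ws = ws₁ ++ w :: ws₂ ∧ w ≠ [] ∧ ∀ c ∈ w, c ∈ y := by
  induction ws with
  | nil =>
    have := congrArg List.length h
    simp at this
    omega
  | cons w ws ih =>
    by_cases hw : w = []
    · subst hw
      obtain ⟨ws₁, w', ws₂, rfl, h1, h2⟩ :=
        ih (fun w hw => hb w (List.mem_cons_of_mem _ hw)) (by simpa using h)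
      exact ⟨[] :: ws₁, w', ws₂, rfl, h1, h2⟩
    · refine ⟨[], w, ws, rfl, hw, ?_⟩
      rw [List.flatten_cons, List.append_eq_append_iff] at h
      rcases h with ⟨a, rfl, _⟩ | ⟨a, rfl, _⟩
      · intro c hc
        simp [hc]
      · have := hb _ (List.mem_cons_self)
        simp at this
        omega

theorem block_inside {b : ℕ} {ws : List (List ℕ)} (hb : ∀ w ∈ ws, w.length ≤ b) {x y z : List ℕ}
    (h : ws.flatten = x ++ (y ++ z)) (hy : 2 * b < y.length) :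
    ∃ ws₁ w ws₂, ws = ws₁ ++ w :: ws₂ ∧ w ≠ [] ∧ ∀ c ∈ w, c ∈ y := by
  induction ws generalizing x with
  | nil =>
    have := congrArg List.length h
    simp at this
    omega
  | cons w ws ih =>
    have hb' : ∀ w ∈ ws, w.length ≤ b := fun w hw => hb w (List.mem_cons_of_mem _ hw)
    have hw := hb _ (List.mem_cons_self)
    rw [List.flatten_cons, List.append_eq_append_iff] at h
    rcases h with ⟨a, rfl, h⟩ | ⟨a, rfl, h⟩
    · obtain ⟨ws₁, w', ws₂, rfl, h1, h2⟩ := ih hb' h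
      exact ⟨w :: ws₁, w', ws₂, rfl, h1, h2⟩
    · rw [List.append_eq_append_iff] at h
      rcases h with ⟨a', rfl, h⟩ | ⟨a', rfl, h⟩
      · simp at hw
        omega
      · simp only [List.length_append] at hw hy
        obtain ⟨ws₁, w', ws₂, rfl, h1, h2⟩ := block_aux hb' h (by omega)
        exact ⟨(x ++ a) :: ws₁, w', ws₂, rfl, h1, fun c hc => by simp [h2 c hc]⟩

end Pool.Agent.P.MP_1e6486_lc
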