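import Mathlib
import Pool.Agent.P.MP_1e6486_lc.Defs

/-!
Interpretations obtained by attaching finitely many marks to the symbols of a grammar.
-/

namespace Pool.Agent.P.MP_1e6486_lc

/-- The underlying symbol of a marked symbol. -/
def pr (n : ℕ) : ℕ := (Nat.unpair n).1

/-- The mark of a marked symbol. -/
def mk (n : ℕ) : ℕ := (Nat.unpair n).2

@[simp] theorem pr_pair (a b : ℕ) : pr (Nat.pair a b) = a := by simp [pr]
@[simp] theorem mk_pair (a b : ℕ) : mk (Nat.pair a b) = b := by simp [mk]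
theorem pair_pr_mk (n : ℕ) : Nat.pair (pr n) (mk n) = n := Nat.pair_unpair n

/-- Marked copies of the symbols of `S`. -/
def mV (S : Finset ℕ) (B : ℕ) : Finset ℕ :=
  (S ×ˢ Finset.range B).image (fun p => Nat.pair p.1 p.2)

theorem mem_mV {S : Finset ℕ} {B n : ℕ} : n ∈ mV S B ↔ pr n ∈ S ∧ mk n < B := by
  simp only [mV, Finset.mem_image, Finset.mem_product, Finset.mem_range]
  constructor
  · rintro ⟨⟨a, b⟩, ⟨h1, h2⟩, rfl⟩
    simpa using ⟨h1, h2⟩
  · rintro ⟨h1, h2⟩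
    exact ⟨(pr n, mk n), ⟨h1, h2⟩, pair_pr_mk n⟩

theorem finite_markings (B : ℕ) (γ : List ℕ) :
    {γ' : List ℕ | γ'.map pr = γ ∧ ∀ x ∈ γ', mk x < B}.Finite := by
  induction γ with
  | nil =>
    refine (Set.finite_singleton []).subset ?_
    rintro γ' ⟨h, _⟩
    simpa using h
  | cons X γ ih =>
    refine (Set.Finite.image2 List.cons (mV {X} B).finite_toSet ih).subset ?_
    rintro γ' ⟨h1, h2⟩
    cases γ' with
    | nil => simp at h1
    | cons x γ' =>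
      simp only [List.map_cons, List.cons.injEq] at h1
      refine ⟨x, ?_, γ', ⟨h1.2, fun y hy => h2 y (List.mem_cons_of_mem _ hy)⟩, rfl⟩
      simp only [Finset.mem_coe, mem_mV, Finset.mem_singleton]
      exact ⟨h1.1, h2 x (by simp)⟩

theorem finite_markSet (G : Grammar) (B : ℕ) (ok : ℕ → List ℕ → Prop) :
    {p : ℕ × List ℕ | (pr p.1, p.2.map pr) ∈ G.P ∧ mk p.1 < B ∧ (∀ x ∈ p.2, mk x < B) ∧
      ok p.1 p.2}.Finite := by
  refine (G.P.finite_toSet.biUnion (t := fun q => (mV {q.1} B : Set ℕ) ×ˢ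
    {γ' : List ℕ | γ'.map pr = q.2 ∧ ∀ x ∈ γ', mk x < B}) fun q _ =>
      (mV {q.1} B).finite_toSet.prod (finite_markings B q.2)).subset ?_
  rintro ⟨n, γ'⟩ ⟨h1, h2, h3, _⟩
  simp only [Set.mem_iUnion]
  refine ⟨_, h1, ?_, rfl, h3⟩
  simp only [Finset.mem_coe, mem_mV, Finset.mem_singleton]
  exact ⟨trivial, h2⟩

/-- The marked grammar keeping the marked productions that satisfy `ok`. -/
noncomputable def marked (G : Grammar) (B : ℕ) (ok : ℕ → List ℕ → Prop) (m₀ : ℕ) : Grammar where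
  V := mV G.V B
  T := mV G.T B
  P := (finite_markSet G B ok).toFinset
  S := Nat.pair G.S m₀

variable {G : Grammar} {B m₀ : ℕ} {ok : ℕ → List ℕ → Prop}

theorem mem_marked_P {n : ℕ} {γ : List ℕ} : (n, γ) ∈ (marked G B ok m₀).P ↔
    (pr n, γ.map pr) ∈ G.P ∧ mk n < B ∧ (∀ x ∈ γ, mk x < B) ∧ ok n γ := by
  simp [marked]

theorem mem_marked_T {n : ℕ} : n ∈ (marked G B ok m₀).T ↔ pr n ∈ G.T ∧ mk n < B := mem_mV

theorem mem_marked_V {n : ℕ} : n ∈ (marked G B ok m₀).V ↔ pr n ∈ G.V ∧ mk n < B := mem_mV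

theorem marked_S : (marked G B ok m₀).S = Nat.pair G.S m₀ := rfl

theorem marked_WF (hG : G.WF) (hm : m₀ < B) : (marked G B ok m₀).WF := by
  refine ⟨fun n hn => ?_, ?_, ?_⟩
  · rw [mem_marked_T] at hn
    exact mem_marked_V.mpr ⟨hG.1 hn.1, hn.2⟩
  · rw [marked_S, mem_marked_V]
    simpa using ⟨hG.2.1, hm⟩
  · rintro ⟨n, γ⟩ hp
    rw [mem_marked_P] at hp
    obtain ⟨h1, h2, h3, _⟩ := hp
    refine ⟨mem_marked_V.mpr ⟨(hG.2.2 _ h1).1, h2⟩, fun x hx => mem_marked_V.mpr ⟨?_, h3 x hx⟩⟩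
    exact (hG.2.2 _ h1).2 _ (List.mem_map_of_mem hx)

theorem marked_CF (hG : IsCF G) (hm : m₀ < B) : IsCF (marked G B ok m₀) := by
  refine ⟨marked_WF hG.1 hm, ?_, ?_⟩
  · rw [marked_S, mem_marked_T]
    simp [hG.2.1]
  · rintro ⟨n, γ⟩ hp
    rw [mem_marked_P] at hp
    rw [mem_marked_T]
    exact fun h => hG.2.2 _ hp.1 h.1

theorem marked_interp (hm : m₀ < B) : SInterp (marked G B ok m₀) G := by
  refine ⟨fun X => mV {X} B, ?_, ?_, ?_, ?_, ?_⟩
  · intro a ha n hn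
    rw [mem_mV, Finset.mem_singleton] at hn
    exact mem_marked_T.mpr ⟨hn.1 ▸ ha, hn.2⟩
  · intro A hA n hn
    rw [mem_mV, Finset.mem_singleton] at hn
    rw [Finset.mem_sdiff] at hA ⊢
    rw [mem_marked_V, mem_marked_T, hn.1]
    exact ⟨⟨hA.1, hn.2⟩, fun h => hA.2 h.1⟩
  · intro X _ Y _ hXY
    rw [Finset.disjoint_left]
    intro n h1 h2
    rw [mem_mV, Finset.mem_singleton] at h1 h2
    exact hXY (h1.1.symm.trans h2.1)
  · rintro ⟨n, γ⟩ hp
    rw [mem_marked_P] at hp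
    refine ⟨_, hp.1, ?_, ?_⟩
    · rw [mem_mV, Finset.mem_singleton]
      exact ⟨rfl, hp.2.1⟩
    · rw [List.forall₂_map_right_iff, List.forall₂_same]
      intro x hx
      rw [mem_mV, Finset.mem_singleton]
      exact ⟨rfl, hp.2.2.1 x hx⟩
  · rw [marked_S, mem_mV]
    simpa using hm

theorem SInterp.trans {G₁ G₂ G₃ : Grammar} (h12 : SInterp G₁ G₂) (h23 : SInterp G₂ G₃)
    (h2 : G₂.WF) : SInterp G₁ G₃ := by
  obtain ⟨μ, a1, a2, a3, a4, a5⟩ := h12
  obtain ⟨ν, b1, b2, b3, b4, b5⟩ := h23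
  have hν : ∀ X ∈ G₃.V, ν X ⊆ G₂.V := by
    intro X hX
    by_cases hT : X ∈ G₃.T
    · exact (b1 X hT).trans h2.1
    · exact (b2 X (Finset.mem_sdiff.mpr ⟨hX, hT⟩)).trans Finset.sdiff_subset
  refine ⟨fun X => (ν X).biUnion μ, ?_, ?_, ?_, ?_, ?_⟩
  · intro a ha n hn
    obtain ⟨Y, hY, hn⟩ := Finset.mem_biUnion.mp hn
    exact a1 Y (b1 a ha hY) hn
  · intro A hA n hn
    obtain ⟨Y, hY, hn⟩ := Finset.mem_biUnion.mp hn
    exact a2 Y (b2 A hA hY) hn
  · intro X hX Y hY hXY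
    rw [Finset.disjoint_left]
    intro n h1 h2
    obtain ⟨X', hX', h1⟩ := Finset.mem_biUnion.mp h1
    obtain ⟨Y', hY', h2⟩ := Finset.mem_biUnion.mp h2
    have hne : X' ≠ Y' := by
      rintro rfl
      exact Finset.disjoint_left.mp (b3 X hX Y hY hXY) hX' hY'
    exact Finset.disjoint_left.mp (a3 X' (hν X hX hX') Y' (hν Y hY hY') hne) h1 h2
  · intro p hp
    obtain ⟨q, hq, h1, h2⟩ := a4 p hp
    obtain ⟨r, hr, h3, h4⟩ := b4 q hq
    refine ⟨r, hr, Finset.mem_biUnion.mpr ⟨_, h3, h1⟩, ?_⟩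
    generalize p.2 = x at h2
    generalize q.2 = y at h2 h4
    generalize r.2 = z at h4
    induction h2 generalizing z with
    | nil => cases h4; exact List.Forall₂.nil
    | cons h5 _ ih =>
      cases h4 with
      | cons h6 h7 => exact List.Forall₂.cons (Finset.mem_biUnion.mpr ⟨_, h6, h5⟩) (ih _ h7)
  · exact Finset.mem_biUnion.mpr ⟨_, b5, a5⟩

end Pool.Agent.P.MP_1e6486_lc
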