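import Mathlib
import Pool.Agent.P.MP_1e6486_lc.EOL

/-!
Finding two simultaneous growth spines in an EOL grammar.
-/

namespace Pool.Agent.P.MP_1e6486_lc

/-- Symbols deriving a terminal word in exactly `d` steps. -/
def Val (H : Grammar) (d X : ℕ) : Prop := ∃ w, Term H w ∧ D H d [X] w

/-- Symbols deriving, in exactly `d` steps, a terminal word containing `a`. -/
def ValL (H : Grammar) (a d X : ℕ) : Prop := ∃ w, Term H w ∧ a ∈ w ∧ D H d [X] w

/-- Periodicity data for the sets of valid symbols. -/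
def Per (H : Grammar) (x : Bool → ℕ) (N p : ℕ) : Prop :=
  ∀ d d', N ≤ d → N ≤ d' → (d : ZMod (p + 1)) = (d' : ZMod (p + 1)) → ∀ X ∈ H.V,
    (Val H d X → Val H d' X) ∧ ∀ j, ValL H (x j) d X → ValL H (x j) d' X

theorem D_val {H : Grammar} {d : ℕ} {γ : List ℕ} (h : ∀ X ∈ γ, Val H d X) :
    ∃ w, Term H w ∧ D H d γ w := D_choice (F := fun y => y ∈ H.T) h

theorem val_of_D {H : Grammar} {d : ℕ} {γ w : List ℕ} (ht : Term H w) (h : D H d γ w) :
    ∀ X ∈ γ, Val H d X := by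
  intro X hX
  obtain ⟨u, hu, hs⟩ := D_part h hX
  exact ⟨u, fun y hy => ht y (hs.subset hy), hu⟩

theorem valL_of_D {H : Grammar} {d a : ℕ} {γ w : List ℕ} (ht : Term H w) (h : D H d γ w)
    (ha : a ∈ w) : ∃ X ∈ γ, ValL H a d X := by
  obtain ⟨γ₁, X, γ₂, w₁, u, w₂, rfl, rfl, _, h2, _, h4⟩ := D_letter h ha
  exact ⟨X, by simp, u, (term_append.mp (term_append.mp ht).1).2, h4, h2⟩

theorem D_valL {H : Grammar} {d a : ℕ} {γ : List ℕ} (h : ∀ X ∈ γ, Val H d X) {Y : ℕ}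
    (hY : Y ∈ γ) (ha : ValL H a d Y) : ∃ w, Term H w ∧ a ∈ w ∧ D H d γ w := by
  obtain ⟨γ₁, γ₂, rfl⟩ := List.append_of_mem hY
  obtain ⟨w₁, t1, h1⟩ := D_val (γ := γ₁) fun X hX => h X (by simp [hX])
  obtain ⟨w₃, t3, h3⟩ := D_val (γ := γ₂) fun X hX => h X (by simp [hX])
  obtain ⟨w₂, t2, ha, h2⟩ := ha
  exact ⟨_, term_append.mpr ⟨term_append.mpr ⟨t1, t2⟩, t3⟩, by simp [ha], h1.append3 h2 h3⟩

theorem exists_per {H : Grammar} (hH : H.WF) (x : Bool → ℕ) : ∃ N p, Per H x N p := by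
  let s : ℕ → Set H.V × (Bool → Set H.V) := fun d =>
    ({X | Val H d X.1}, fun j => {X | ValL H (x j) d X.1})
  have step : ∀ i j, s i = s j → (s (i + 1)).1 ⊆ (s (j + 1)).1 ∧
      ∀ b, (s (i + 1)).2 b ⊆ (s (j + 1)).2 b := by
    intro i j h
    have h1 : ∀ Y ∈ H.V, Val H i Y → Val H j Y := by
      intro Y hY hv
      have : (⟨Y, hY⟩ : H.V) ∈ (s i).1 := hv
      rw [h] at this
      exact this
    have h2 : ∀ b, ∀ Y ∈ H.V, ValL H (x b) i Y → ValL H (x b) j Y := by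
      intro b Y hY hv
      have : (⟨Y, hY⟩ : H.V) ∈ (s i).2 b := hv
      rw [h] at this
      exact this
    constructor
    · rintro X ⟨w, hw, hd⟩
      obtain ⟨γ, hp, hd⟩ := D_succ_single.mp hd
      obtain ⟨w', hw', hd'⟩ := D_val (γ := γ) fun Y hY =>
        h1 Y ((hH.2.2 _ hp).2 Y hY) (val_of_D hw hd Y hY)
      exact ⟨w', hw', D_succ_single.mpr ⟨γ, hp, hd'⟩⟩
    · rintro b X ⟨w, hw, ha, hd⟩
      obtain ⟨γ, hp, hd⟩ := D_succ_single.mp hd
      obtain ⟨Y, hY, hv⟩ := valL_of_D hw hd ha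
      obtain ⟨w', hw', ha', hd'⟩ := D_valL (γ := γ) (fun Y hY =>
        h1 Y ((hH.2.2 _ hp).2 Y hY) (val_of_D hw hd Y hY)) hY (h2 b Y ((hH.2.2 _ hp).2 Y hY) hv)
      exact ⟨w', hw', ha', D_succ_single.mpr ⟨γ, hp, hd'⟩⟩
  obtain ⟨N, p, hper⟩ := eventually_periodic s fun i j h =>
    Prod.ext (Set.Subset.antisymm (step i j h).1 (step j i h.symm).1)
      (funext fun b => Set.Subset.antisymm ((step i j h).2 b) ((step j i h.symm).2 b))
  refine ⟨N, p, fun d d' hd hd' he X hX => ?_⟩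
  have h := hper d d' hd hd' he
  constructor
  · intro hv
    have : (⟨X, hX⟩ : H.V) ∈ (s d).1 := hv
    rw [h] at this
    exact this
  · intro b hv
    have : (⟨X, hX⟩ : H.V) ∈ (s d).2 b := hv
    rw [h] at this
    exact this

section

variable (H : Grammar) (x : Bool → ℕ) (N p : ℕ)

/-- Validity in a residue class of large depths. -/
def ValZ (r : ZMod (p + 1)) (X : ℕ) : Prop :=
  ∀ d, N ≤ d → (d : ZMod (p + 1)) = r → Val H d X

/-- Validity with a prescribed letter in a residue class of large depths. -/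
def ValLZ (j : Bool) (r : ZMod (p + 1)) (X : ℕ) : Prop :=
  ∀ d, N ≤ d → (d : ZMod (p + 1)) = r → ValL H (x j) d X

/-- Unboundedly many occurrences of a letter. -/
def UnbZ (j : Bool) (r : ZMod (p + 1)) (X : ℕ) : Prop :=
  ∀ n, ∃ (d : ℕ) (w : List ℕ), (d : ZMod (p + 1)) = r ∧ Term H w ∧ D H d [X] w ∧ n ≤ w.count (x j)

/-- Unboundedly many occurrences of both letters. -/
def Unb2 (r : ZMod (p + 1)) (X : ℕ) : Prop :=
  ∀ n, ∃ (d : ℕ) (w : List ℕ), (d : ZMod (p + 1)) = r ∧ Term H w ∧ D H d [X] w ∧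
    ∀ j, n ≤ w.count (x j)

/-- A spine that spawns a carrier of the letter after `n` steps. -/
def SpZ (j : Bool) : ℕ → ZMod (p + 1) → ℕ → Prop
  | 0, r, X => ∃ γ₁ Y γ₂, (X, γ₁ ++ Y :: γ₂) ∈ H.P ∧ (∀ Z ∈ γ₁ ++ γ₂, ValZ H N p (r - 1) Z) ∧
      UnbZ H x p j (r - 1) Y ∧ ∃ Z ∈ γ₁ ++ γ₂, ValLZ H x N p j (r - 1) Z
  | n + 1, r, X => ∃ γ₁ Y γ₂, (X, γ₁ ++ Y :: γ₂) ∈ H.P ∧ (∀ Z ∈ γ₁ ++ γ₂, ValZ H N p (r - 1) Z) ∧
      UnbZ H x p j (r - 1) Y ∧ SpZ j n (r - 1) Y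

/-- A path that splits into two spines after `k` steps. -/
def PreZ : ℕ → ZMod (p + 1) → ℕ → Prop
  | 0, r, X => ∃ γ₁ Y₁ γ₂ Y₂ γ₃ j, (X, γ₁ ++ Y₁ :: γ₂ ++ Y₂ :: γ₃) ∈ H.P ∧
      (∀ Z ∈ γ₁ ++ γ₂ ++ γ₃, ValZ H N p (r - 1) Z) ∧
      UnbZ H x p j (r - 1) Y₁ ∧ UnbZ H x p (!j) (r - 1) Y₂
  | k + 1, r, X => ∃ γ₁ Y γ₂, (X, γ₁ ++ Y :: γ₂) ∈ H.P ∧ (∀ Z ∈ γ₁ ++ γ₂, ValZ H N p (r - 1) Z) ∧
      PreZ k (r - 1) Y

open Classical in
/-- A context of `X` with at least `k` carriers of the letter. -/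
def Cx (j : Bool) (k : ℕ) (r : ZMod (p + 1)) (X : ℕ) : Prop :=
  ∃ i α β, D H i [H.S] (α ++ X :: β) ∧ (∀ Z ∈ α, ValZ H N p r Z) ∧ (∀ Z ∈ β, ValZ H N p r Z) ∧
    k ≤ α.countP (fun Z => decide (ValLZ H x N p j r Z)) +
      β.countP (fun Z => decide (ValLZ H x N p j r Z))

end

variable {H : Grammar} {x : Bool → ℕ} {N p : ℕ}

theorem valZ_of_val (hp : Per H x N p) {d X : ℕ} (hX : X ∈ H.V) (hd : N ≤ d) (h : Val H d X) :
    ValZ H N p d X := fun d' hd' he => (hp d d' hd hd' he.symm X hX).1 h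

theorem valLZ_of_valL (hp : Per H x N p) {j : Bool} {d X : ℕ} (hX : X ∈ H.V) (hd : N ≤ d)
    (h : ValL H (x j) d X) : ValLZ H x N p j d X :=
  fun d' hd' he => (hp d d' hd hd' he.symm X hX).2 j h

theorem depth_of_count {d X a : ℕ} {w : List ℕ} (h : D H d [X] w) (hc : H.K ^ N < w.count a) :
    N < d := by
  by_contra hle
  have h1 := D_length_single h
  have h2 : w.count a ≤ w.length := List.count_le_length
  have h3 : H.K ^ d ≤ H.K ^ N := Nat.pow_le_pow_right H.one_le_K (by omega)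
  omega

theorem UnbZ.valLZ (hp : Per H x N p) {j : Bool} {r : ZMod (p + 1)} {X : ℕ} (hX : X ∈ H.V)
    (h : UnbZ H x p j r X) : ValLZ H x N p j r X := by
  obtain ⟨d, w, rfl, t, hd, hc⟩ := h (H.K ^ N + 1)
  exact valLZ_of_valL hp hX (depth_of_count hd hc).le
    ⟨w, t, List.count_pos_iff.mp (by omega), hd⟩

theorem Unb2.unbZ {r : ZMod (p + 1)} {X : ℕ} (h : Unb2 H x p r X) (j : Bool) :
    UnbZ H x p j r X := fun n => by
  obtain ⟨d, w, h1, h2, h3, h4⟩ := h n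
  exact ⟨d, w, h1, h2, h3, h4 j⟩

theorem threshold {ι : Type} {I : Set ι} (hI : I.Finite) (Q : ι → ℕ → Prop)
    (hQ : ∀ i n m, n ≤ m → Q i m → Q i n) :
    ∀ᶠ M in Filter.atTop, ∀ i ∈ I, Q i M → ∀ n, Q i n := by
  rw [Filter.eventually_all_finite hI]
  intro i _
  by_cases h : ∀ n, Q i n
  · exact Filter.Eventually.of_forall fun _ _ => h
  · push Not at h
    obtain ⟨n, hn⟩ := h
    filter_upwards [Filter.eventually_ge_atTop n] with M hM hq
    exact absurd (hQ i n M hM hq) hn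

/-- Threshold beyond which a count certifies unboundedness. -/
def Thr (H : Grammar) (x : Bool → ℕ) (N p M : ℕ) : Prop :=
  H.K ^ N < M ∧
  (∀ j, ∀ X ∈ H.V, ∀ (d : ℕ) (w : List ℕ), Term H w → D H d [X] w → M ≤ w.count (x j) →
    UnbZ H x p j d X) ∧
  (∀ X ∈ H.V, ∀ (d : ℕ) (w : List ℕ), Term H w → D H d [X] w → (∀ j, M ≤ w.count (x j)) →
    Unb2 H x p d X)

theorem exists_thr (H : Grammar) (x : Bool → ℕ) (N p : ℕ) : ∃ M, Thr H x N p M := by
  have hI : ((Set.univ : Set (Bool × ZMod (p + 1))) ×ˢ (H.V : Set ℕ)).Finite :=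
    Set.finite_univ.prod H.V.finite_toSet
  have h1 := threshold hI (fun i n => ∃ (d : ℕ) (w : List ℕ), (d : ZMod (p + 1)) = i.1.2 ∧
    Term H w ∧ D H d [i.2] w ∧ n ≤ w.count (x i.1.1)) (by
      rintro i n m hnm ⟨d, w, a1, a2, a3, a4⟩
      exact ⟨d, w, a1, a2, a3, hnm.trans a4⟩)
  have h2 := threshold hI (fun i n => ∃ (d : ℕ) (w : List ℕ), (d : ZMod (p + 1)) = i.1.2 ∧
    Term H w ∧ D H d [i.2] w ∧ ∀ j, n ≤ w.count (x j)) (by
      rintro i n m hnm ⟨d, w, a1, a2, a3, a4⟩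
      exact ⟨d, w, a1, a2, a3, fun j => hnm.trans (a4 j)⟩)
  obtain ⟨M, ⟨a, b⟩, c⟩ := ((h1.and h2).and (Filter.eventually_gt_atTop (H.K ^ N))).exists
  refine ⟨M, c, fun j X hX d w t hd hc => ?_, fun X hX d w t hd hc => ?_⟩
  · exact a ((j, d), X) ⟨trivial, hX⟩ ⟨d, w, rfl, t, hd, hc⟩
  · exact b ((true, d), X) ⟨trivial, hX⟩ ⟨d, w, rfl, t, hd, hc⟩

theorem cast_succ_sub (d : ℕ) : ((d + 1 : ℕ) : ZMod (p + 1)) - 1 = d := by
  push_cast
  ring

theorem progress (hH : H.WF) (hp : Per H x N p) {M : ℕ} (hM : Thr H x N p M) (j : Bool) :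
    ∀ (d X : ℕ) (w : List ℕ), Term H w → D H d [X] w → H.K * M < w.count (x j) →
      ∃ n, SpZ H x N p j n d X := by
  intro d
  induction d with
  | zero =>
    intro X w _ hd hc
    have h1 := D_length_single hd
    have h2 : w.count (x j) ≤ w.length := List.count_le_length
    have h3 := H.one_le_K
    have h4 : 1 ≤ M := by have := hM.1; omega
    simp only [pow_zero] at h1
    nlinarith
  | succ d ih =>
    intro X w t hd hc
    obtain ⟨γ, hP, hd⟩ := D_succ_single.mp hd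
    have hlen := Grammar.length_le_K hP
    obtain ⟨γ₁, Y, γ₂, w₁, u, w₂, rfl, rfl, h1, h2, h3, h4⟩ :=
      D_heavy (n := M) hd (lt_of_le_of_lt (Nat.mul_le_mul_right M hlen) hc)
    obtain ⟨t12, t3⟩ := term_append.mp t
    obtain ⟨t1, t2⟩ := term_append.mp t12
    have hV := (hH.2.2 _ hP).2
    have hY : Y ∈ H.V := hV Y (by simp)
    have hNd : N ≤ d := (depth_of_count h2 (hM.1.trans h4)).le
    have hV' : ∀ Z ∈ γ₁ ++ γ₂, Z ∈ H.V := fun Z hZ => hV Z (by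
      simp only [List.mem_append, List.mem_cons] at hZ ⊢; tauto)
    have hs : ∀ Z ∈ γ₁ ++ γ₂, ValZ H N p d Z := fun Z hZ =>
      valZ_of_val hp (hV' Z hZ) hNd (val_of_D (term_append.mpr ⟨t1, t3⟩) (h1.append h3) Z hZ)
    have hu : UnbZ H x p j d Y := hM.2.1 j Y hY d u t2 h2 h4.le
    by_cases hsp : x j ∈ w₁ ++ w₂
    · obtain ⟨Z, hZ, hv⟩ := valL_of_D (term_append.mpr ⟨t1, t3⟩) (h1.append h3) hsp
      refine ⟨0, γ₁, Y, γ₂, hP, ?_⟩
      rw [cast_succ_sub]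
      exact ⟨hs, hu, Z, hZ, valLZ_of_valL hp (hV' Z hZ) hNd hv⟩
    · have e1 : w₁.count (x j) = 0 := List.count_eq_zero.mpr fun h => hsp (by simp [h])
      have e2 : w₂.count (x j) = 0 := List.count_eq_zero.mpr fun h => hsp (by simp [h])
      simp only [List.count_append, e1, e2, Nat.zero_add, Nat.add_zero] at hc
      obtain ⟨n, hn⟩ := ih Y u t2 h2 hc
      refine ⟨n + 1, γ₁, Y, γ₂, hP, ?_⟩
      rw [cast_succ_sub]
      exact ⟨hs, hu, hn⟩

theorem exists_spine_bound (hH : H.WF) (hp : Per H x N p) :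
    ∃ R, ∀ j r, ∀ X ∈ H.V, UnbZ H x p j r X → ∃ n ≤ R, SpZ H x N p j n r X := by
  obtain ⟨M, hM⟩ := exists_thr H x N p
  have hI : ((Set.univ : Set (Bool × ZMod (p + 1))) ×ˢ (H.V : Set ℕ)).Finite :=
    Set.finite_univ.prod H.V.finite_toSet
  have : ∀ᶠ R in Filter.atTop, ∀ i ∈ (Set.univ : Set (Bool × ZMod (p + 1))) ×ˢ (H.V : Set ℕ),
      UnbZ H x p i.1.1 i.1.2 i.2 → ∃ n ≤ R, SpZ H x N p i.1.1 n i.1.2 i.2 := by
    rw [Filter.eventually_all_finite hI]
    rintro ⟨⟨j, r⟩, X⟩ _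
    by_cases h : UnbZ H x p j r X
    · obtain ⟨d, w, rfl, t, hd, hc⟩ := h (H.K * M + 1)
      obtain ⟨n, hn⟩ := progress hH hp hM j d X w t hd hc
      filter_upwards [Filter.eventually_ge_atTop n] with R hR _
      exact ⟨n, hR, hn⟩
    · exact Filter.Eventually.of_forall fun _ h' => absurd h' h
  obtain ⟨R, hR⟩ := this.exists
  exact ⟨R, fun j r X hX => hR ((j, r), X) ⟨trivial, hX⟩⟩

theorem exists_depth (N p : ℕ) (r : ZMod (p + 1)) :
    ∃ d, N ≤ d ∧ d ≤ N + p ∧ (d : ZMod (p + 1)) = r := by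
  refine ⟨N + (r - N).val, by omega, ?_, by simp⟩
  have := ZMod.val_lt (r - (N : ZMod (p + 1)))
  omega

open Classical in
theorem ctx_step (hH : H.WF) (hp : Per H x N p) (j : Bool) (r : ZMod (p + 1)) {α : List ℕ}
    (h : ∀ Z ∈ α, ValZ H N p r Z) :
    ∃ α', eolStep H α α' ∧ (∀ Z ∈ α', ValZ H N p (r - 1) Z) ∧
      α.countP (fun Z => decide (ValLZ H x N p j r Z)) ≤
        α'.countP (fun Z => decide (ValLZ H x N p j (r - 1) Z)) := by
  obtain ⟨d, hd, _, he⟩ := exists_depth N p (r - 1)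
  have he' : ((d + 1 : ℕ) : ZMod (p + 1)) = r := by
    push_cast
    rw [he]
    ring
  induction α with
  | nil => exact ⟨[], eolStep_nil.mpr rfl, by simp, le_rfl⟩
  | cons Z α ih =>
    obtain ⟨α', h1, h2, h3⟩ := ih fun Y hY => h Y (List.mem_cons_of_mem _ hY)
    have key : ∃ γ, (Z, γ) ∈ H.P ∧ (∀ Y ∈ γ, ValZ H N p (r - 1) Y) ∧
        (ValLZ H x N p j r Z → ∃ Y ∈ γ, ValLZ H x N p j (r - 1) Y) := by
      by_cases hL : ValLZ H x N p j r Z
      · obtain ⟨w, t, ha, hw⟩ := hL (d + 1) (by omega) he'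
        obtain ⟨γ, hP, hw⟩ := D_succ_single.mp hw
        obtain ⟨Y, hY, hv⟩ := valL_of_D t hw ha
        refine ⟨γ, hP, fun Y hY => ?_, fun _ => ⟨Y, hY, ?_⟩⟩
        · rw [← he]
          exact valZ_of_val hp ((hH.2.2 _ hP).2 Y hY) hd (val_of_D t hw Y hY)
        · rw [← he]
          exact valLZ_of_valL hp ((hH.2.2 _ hP).2 Y hY) hd hv
      · obtain ⟨w, t, hw⟩ := h Z (by simp) (d + 1) (by omega) he'
        obtain ⟨γ, hP, hw⟩ := D_succ_single.mp hw
        refine ⟨γ, hP, fun Y hY => ?_, fun h => absurd h hL⟩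
        rw [← he]
        exact valZ_of_val hp ((hH.2.2 _ hP).2 Y hY) hd (val_of_D t hw Y hY)
    obtain ⟨γ, k1, k2, k3⟩ := key
    refine ⟨γ ++ α', eolStep_cons.mpr ⟨γ, α', rfl, k1, h1⟩,
      fun Y hY => (List.mem_append.mp hY).elim (k2 Y) (h2 Y), ?_⟩
    rw [List.countP_cons, List.countP_append]
    split_ifs with hL
    · obtain ⟨Y, hY, hv⟩ := k3 (of_decide_eq_true hL)
      have : 0 < γ.countP (fun Z => decide (ValLZ H x N p j (r - 1) Z)) :=
        List.countP_pos_iff.mpr ⟨Y, hY, decide_eq_true hv⟩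
      omega
    · omega

open Classical in
theorem ctx_finish (j : Bool) (r : ZMod (p + 1)) {d : ℕ} (hd : N ≤ d)
    (he : (d : ZMod (p + 1)) = r) {α : List ℕ} (h : ∀ Z ∈ α, ValZ H N p r Z) :
    ∃ w, Term H w ∧ D H d α w ∧
      α.countP (fun Z => decide (ValLZ H x N p j r Z)) ≤ w.count (x j) := by
  induction α with
  | nil => exact ⟨[], term_nil, D_nil.mpr rfl, le_rfl⟩
  | cons Z α ih =>
    obtain ⟨w, t, h1, h2⟩ := ih fun Y hY => h Y (List.mem_cons_of_mem _ hY)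
    rw [List.countP_cons]
    split_ifs with hL
    · obtain ⟨u, tu, ha, hu⟩ := (of_decide_eq_true hL) d hd he
      refine ⟨u ++ w, term_append.mpr ⟨tu, t⟩, D_cons.mpr ⟨u, w, rfl, hu, h1⟩, ?_⟩
      have := List.count_pos_iff.mpr ha
      rw [List.count_append]
      omega
    · obtain ⟨u, tu, hu⟩ := h Z (by simp) d hd he
      refine ⟨u ++ w, term_append.mpr ⟨tu, t⟩, D_cons.mpr ⟨u, w, rfl, hu, h1⟩, ?_⟩
      rw [List.count_append]
      omega

open Classical in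
theorem cx_step (hH : H.WF) (hp : Per H x N p) {j : Bool} {k : ℕ} {r : ZMod (p + 1)} {X Y : ℕ}
    {γ₁ γ₂ : List ℕ} (h : Cx H x N p j k r X) (hP : (X, γ₁ ++ Y :: γ₂) ∈ H.P)
    (hs : ∀ Z ∈ γ₁ ++ γ₂, ValZ H N p (r - 1) Z) :
    Cx H x N p j k (r - 1) Y ∧
      ((∃ Z ∈ γ₁ ++ γ₂, ValLZ H x N p j (r - 1) Z) → Cx H x N p j (k + 1) (r - 1) Y) := by
  obtain ⟨i, α, β, h1, h2, h3, h4⟩ := h
  obtain ⟨α', a1, a2, a3⟩ := ctx_step hH hp j r h2
  obtain ⟨β', b1, b2, b3⟩ := ctx_step hH hp j r h3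
  have hd : D H (i + 1) [H.S] ((α' ++ γ₁) ++ Y :: (γ₂ ++ β')) := by
    refine h1.trans (D_one.mpr ?_)
    exact eolStep_append.mpr ⟨α', _, by simp, a1, eolStep_cons.mpr ⟨_, β', rfl, hP, b1⟩⟩
  have c1 : ∀ Z ∈ α' ++ γ₁, ValZ H N p (r - 1) Z := fun Z hZ =>
    (List.mem_append.mp hZ).elim (a2 Z) fun h => hs Z (by simp [h])
  have c2 : ∀ Z ∈ γ₂ ++ β', ValZ H N p (r - 1) Z := fun Z hZ =>
    (List.mem_append.mp hZ).elim (fun h => hs Z (by simp [h])) (b2 Z)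
  constructor
  · refine ⟨i + 1, _, _, hd, c1, c2, ?_⟩
    simp only [List.countP_append]
    omega
  · rintro ⟨Z, hZ, hv⟩
    refine ⟨i + 1, _, _, hd, c1, c2, ?_⟩
    have : 0 < (γ₁ ++ γ₂).countP (fun Z => decide (ValLZ H x N p j (r - 1) Z)) :=
      List.countP_pos_iff.mpr ⟨Z, hZ, decide_eq_true hv⟩
    simp only [List.countP_append] at this ⊢
    omega

/-- Both letters in a short window bound the number of their occurrences. -/
def Win (H : Grammar) (x : Bool → ℕ) (c₀ : ℕ) : Prop :=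
  ∀ w₁ w w₂, w₁ ++ w ++ w₂ ∈ eolLang H → (∀ j, x j ∈ w) →
    ∀ j, (w₁ ++ w ++ w₂).count (x j) ≤ c₀ * w.length

theorem spawn_bound {c₀ : ℕ} (hw : Win H x c₀) {j : Bool} {k : ℕ} {r : ZMod (p + 1)} {X Y : ℕ}
    {γ₁ γ₂ : List ℕ} (h : Cx H x N p j k r X) (hP : (X, γ₁ ++ Y :: γ₂) ∈ H.P)
    (hs : ∀ Z ∈ γ₁ ++ γ₂, ValZ H N p (r - 1) Z) (hY : ValLZ H x N p (!j) (r - 1) Y)
    (hZ : ∃ Z ∈ γ₁ ++ γ₂, ValLZ H x N p j (r - 1) Z) : k ≤ c₀ * H.K ^ (N + p + 1) := by
  obtain ⟨d, hd, hd', he⟩ := exists_depth N p (r - 1)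
  have he' : ((d + 1 : ℕ) : ZMod (p + 1)) = r := by
    push_cast
    rw [he]
    ring
  obtain ⟨i, α, β, h1, h2, h3, h4⟩ := h
  obtain ⟨wα, ta, a1, a2⟩ := ctx_finish (x := x) j r (d := d + 1) (by omega) he' h2
  obtain ⟨wβ, tb, b1, b2⟩ := ctx_finish (x := x) j r (d := d + 1) (by omega) he' h3
  obtain ⟨Z, hZ, hv⟩ := hZ
  obtain ⟨v, tv, hv1, hv2⟩ := D_valL (fun Z hZ => hs Z hZ d hd he) hZ (hv d hd he)
  obtain ⟨v₁, v₂, rfl, g1, g2⟩ := D_append.mp hv2
  obtain ⟨u, tu, hu1, hu2⟩ := hY d hd he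
  have hm : D H (d + 1) [X] (v₁ ++ u ++ v₂) := D_succ_single.mpr ⟨_, hP, g1.append3 hu2 g2⟩
  have hL : wα ++ (v₁ ++ u ++ v₂) ++ wβ ∈ eolLang H := by
    rw [mem_eolLang]
    refine ⟨term_append.mpr ⟨term_append.mpr ⟨ta, term_append.mpr ⟨term_append.mpr
      ⟨(term_append.mp tv).1, tu⟩, (term_append.mp tv).2⟩⟩, tb⟩, _, h1.trans (a1.append3 hm b1)⟩
  have h5 := hw _ _ _ hL (by
    intro b
    by_cases hb : b = j
    · subst hb
      simp only [List.mem_append] at hv1 ⊢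
      tauto
    · have : b = !j := by cases b <;> cases j <;> simp_all
      subst this
      simp [hu1]) j
  have h6 := D_length_single hm
  have h7 : H.K ^ (d + 1) ≤ H.K ^ (N + p + 1) := Nat.pow_le_pow_right H.one_le_K (by omega)
  have h8 : c₀ * (v₁ ++ u ++ v₂).length ≤ c₀ * H.K ^ (N + p + 1) :=
    Nat.mul_le_mul_left _ (h6.trans h7)
  rw [List.count_append, List.count_append] at h5
  omega

theorem j_step (hH : H.WF) (hp : Per H x N p) {M c₀ : ℕ} (hM : Thr H x N p M) (hw : Win H x c₀)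
    (k : Bool → ℕ) :
    ∀ (d X : ℕ) (w : List ℕ), Term H w → D H d [X] w → (∀ j, H.K * M < w.count (x j)) →
      (∀ j, Cx H x N p j (k j) d X) → (∀ n, ¬ PreZ H x N p n d X) →
      ∃ j r X', X' ∈ H.V ∧ Unb2 H x p r X' ∧ (∀ n, ¬ PreZ H x N p n r X') ∧
        k j ≤ c₀ * H.K ^ (N + p + 1) ∧ Cx H x N p j (k j + 1) r X' ∧
        Cx H x N p (!j) (k (!j)) r X' := by
  intro d
  induction d with
  | zero =>
    intro X w _ hd hc
    have h1 := D_length_single hd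
    have h2 : w.count (x true) ≤ w.length := List.count_le_length
    have h3 := H.one_le_K
    have h4 : 1 ≤ M := by have := hM.1; omega
    have := hc true
    simp only [pow_zero] at h1
    nlinarith
  | succ d ih =>
    intro X w t hd hc hcx hpre
    obtain ⟨γ, hP, hd⟩ := D_succ_single.mp hd
    have hlen := Grammar.length_le_K hP
    obtain ⟨γ₁, Y, γ₂, w₁, u, w₂, rfl, rfl, h1, h2, h3, h4⟩ :=
      D_heavy (n := M) hd (lt_of_le_of_lt (Nat.mul_le_mul_right M hlen) (hc false))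
    obtain ⟨t12, t3⟩ := term_append.mp t
    obtain ⟨t1, t2⟩ := term_append.mp t12
    have hV := (hH.2.2 _ hP).2
    have hY : Y ∈ H.V := hV Y (by simp)
    have hNd : N ≤ d := (depth_of_count h2 (hM.1.trans h4)).le
    have hall : ∀ Z ∈ γ₁ ++ Y :: γ₂, ValZ H N p d Z := fun Z hZ =>
      valZ_of_val hp (hV Z hZ) hNd (val_of_D t hd Z hZ)
    have hV' : ∀ Z ∈ γ₁ ++ γ₂, Z ∈ H.V := fun Z hZ => hV Z (by
      simp only [List.mem_append, List.mem_cons] at hZ ⊢; tauto)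
    have hs : ∀ Z ∈ γ₁ ++ γ₂, ValZ H N p d Z := fun Z hZ => hall Z (by
      simp only [List.mem_append, List.mem_cons] at hZ ⊢; tauto)
    have hu : UnbZ H x p false d Y := hM.2.1 false Y hY d u t2 h2 h4.le
    have h5 : M < u.count (x true) := by
      by_contra hle
      have hc' := hc true
      simp only [List.count_append, List.length_append, List.length_cons] at hc' hlen
      have : γ₁.length * M < w₁.count (x true) ∨ γ₂.length * M < w₂.count (x true) := by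
        by_contra hh
        push Not at hh
        nlinarith [hh.1, hh.2]
      apply hpre 0
      rcases this with h | h
      · obtain ⟨δ₁, Y', δ₂, v₁, u', v₂, rfl, rfl, _, g2, _, g4⟩ := D_heavy h1 h
        refine ⟨δ₁, Y', δ₂, Y, γ₂, true, hP, ?_⟩
        rw [cast_succ_sub]
        refine ⟨fun Z hZ => hall Z ?_, ?_, hu⟩
        · simp only [List.mem_append, List.mem_cons] at hZ ⊢; tauto
        · exact hM.2.1 true Y' (hV Y' (by simp)) d u'
            (term_append.mp (term_append.mp t1).1).2 g2 g4.le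
      · obtain ⟨δ₁, Y', δ₂, v₁, u', v₂, rfl, rfl, _, g2, _, g4⟩ := D_heavy h3 h
        refine ⟨γ₁, Y, δ₁, Y', δ₂, false, by simpa using hP, ?_⟩
        rw [cast_succ_sub]
        refine ⟨fun Z hZ => hall Z ?_, hu, ?_⟩
        · simp only [List.mem_append, List.mem_cons] at hZ ⊢; tauto
        · exact hM.2.1 true Y' (hV Y' (by simp)) d u'
            (term_append.mp (term_append.mp t3).1).2 g2 g4.le
    have hu2 : Unb2 H x p d Y := hM.2.2 Y hY d u t2 h2 fun j => by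
      cases j
      · exact h4.le
      · exact h5.le
    have hpre' : ∀ n, ¬ PreZ H x N p n d Y := by
      intro n hn
      refine hpre (n + 1) ⟨γ₁, Y, γ₂, hP, ?_⟩
      rw [cast_succ_sub]
      exact ⟨hs, hn⟩
    have hs' : ∀ Z ∈ γ₁ ++ γ₂, ValZ H N p (((d + 1 : ℕ) : ZMod (p + 1)) - 1) Z := by
      rw [cast_succ_sub]
      exact hs
    have hcx' := fun j => cx_step hH hp (hcx j) hP hs'
    by_cases hsp : ∃ j, x j ∈ w₁ ++ w₂
    · obtain ⟨j, hsp⟩ := hsp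
      obtain ⟨Z, hZ, hv⟩ := valL_of_D (term_append.mpr ⟨t1, t3⟩) (h1.append h3) hsp
      have hZ' : ∃ Z ∈ γ₁ ++ γ₂, ValLZ H x N p j (((d + 1 : ℕ) : ZMod (p + 1)) - 1) Z := by
        rw [cast_succ_sub]
        exact ⟨Z, hZ, valLZ_of_valL hp (hV' Z hZ) hNd hv⟩
      have hb := spawn_bound hw (hcx j) hP hs'
        (by rw [cast_succ_sub]; exact (hu2.unbZ (!j)).valLZ hp hY) hZ'
      refine ⟨j, d, Y, hY, hu2, hpre', hb, ?_, ?_⟩
      · have := (hcx' j).2 hZ'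
        rwa [cast_succ_sub] at this
      · have := (hcx' (!j)).1
        rwa [cast_succ_sub] at this
    · push Not at hsp
      refine ih Y u t2 h2 (fun j => ?_) (fun j => ?_) hpre'
      · have e1 : w₁.count (x j) = 0 := List.count_eq_zero.mpr fun h => hsp j (by simp [h])
        have e2 : w₂.count (x j) = 0 := List.count_eq_zero.mpr fun h => hsp j (by simp [h])
        have := hc j
        simpa only [List.count_append, e1, e2, Nat.zero_add, Nat.add_zero] using this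
      · have := (hcx' j).1
        rwa [cast_succ_sub] at this

theorem exists_pre (hH : H.WF) (hp : Per H x N p) {c₀ : ℕ} (hw : Win H x c₀)
    (hbig : ∀ n, ∃ w ∈ eolLang H, ∀ j, n ≤ w.count (x j)) : ∃ k r, PreZ H x N p k r H.S := by
  by_contra hno
  push Not at hno
  obtain ⟨M, hM⟩ := exists_thr H x N p
  have J : ∀ n, ∃ k : Bool → ℕ, k false + k true = n ∧ (∀ j, k j ≤ c₀ * H.K ^ (N + p + 1) + 1) ∧
      ∃ r X, X ∈ H.V ∧ Unb2 H x p r X ∧ (∀ n, ¬ PreZ H x N p n r X) ∧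
        ∀ j, Cx H x N p j (k j) r X := by
    intro n
    induction n with
    | zero =>
      obtain ⟨w, hw, hc⟩ := hbig M
      obtain ⟨t, d, hd⟩ := mem_eolLang.mp hw
      refine ⟨fun _ => 0, rfl, fun _ => Nat.zero_le _, d, H.S, hH.2.1,
        hM.2.2 _ hH.2.1 d w t hd hc, fun n => hno n _, fun j => ?_⟩
      exact ⟨0, [], [], rfl, by simp, by simp, by simp⟩
    | succ n ih =>
      obtain ⟨k, h1, h2, r, X, _, h4, h5, h6⟩ := ih
      obtain ⟨d, w, rfl, t, hd, hc⟩ := h4 (H.K * M + 1)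
      obtain ⟨j, r', X', g1, g2, g3, g4, g5, g6⟩ :=
        j_step hH hp hM hw k d X w t hd hc h6 h5
      refine ⟨Function.update k j (k j + 1), ?_, ?_, r', X', g1, g2, g3, ?_⟩
      · cases j <;> simp <;> omega
      · intro b
        by_cases hb : b = j
        · subst hb
          simp only [Function.update_self]
          omega
        · rw [Function.update_of_ne hb]
          exact h2 b
      · intro b
        by_cases hb : b = j
        · subst hb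
          simpa using g5
        · rw [Function.update_of_ne hb]
          have : b = !j := by cases b <;> cases j <;> simp_all
          subst this
          exact g6
  obtain ⟨k, h1, h2, _⟩ := J (2 * (c₀ * H.K ^ (N + p + 1) + 1) + 1)
  have := h2 false
  have := h2 true
  omega

end Pool.Agent.P.MP_1e6486_lc
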