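import Mathlib
import Pool.Agent.P.MP_1e6486_lc.Split
import Pool.Agent.P.MP_1e6486_lc.Mark

/-!
An interpretation that forces two letters to grow with the length of the derivation.
-/

namespace Pool.Agent.P.MP_1e6486_lc

/-- The kind of a marked symbol. -/
def kd (n : ℕ) : ℕ := pr (mk n)

/-- The counter of a marked symbol. -/
def ct (n : ℕ) : ℕ := mk (mk n)

/-- The marked symbol with a given kind and counter. -/
def sym (X k c : ℕ) : ℕ := Nat.pair X (Nat.pair k c)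

@[simp] theorem pr_sym (X k c : ℕ) : pr (sym X k c) = X := by simp [sym]
@[simp] theorem kd_sym (X k c : ℕ) : kd (sym X k c) = k := by simp [sym, kd]
@[simp] theorem ct_sym (X k c : ℕ) : ct (sym X k c) = c := by simp [sym, ct]

theorem mk_sym_lt {X k c Rm : ℕ} (hk : k ≤ 8) (hc : c ≤ Rm) :
    mk (sym X k c) < (max 8 Rm + 1) ^ 2 := by
  have h1 := Nat.pair_lt_max_add_one_sq k c
  have h2 : (max k c + 1) ^ 2 ≤ (max 8 Rm + 1) ^ 2 := Nat.pow_le_pow_left (by omega) 2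
  simp only [sym, mk_pair]
  omega

/-- Kind of a carrier. -/
def kC (j : Bool) : ℕ := if j then 3 else 2

/-- Kind of a spine. -/
def kS (j : Bool) : ℕ := if j then 6 else 5

/-- Admissible marked productions. -/
def okF (H : Grammar) (N R : ℕ) (n : ℕ) (γ : List ℕ) : Prop :=
  ((∀ y ∈ γ, kd y = 1) ∧ (Imm H (pr n) → ∃ y ∈ γ, Imm H (pr y))) ∨
  kd n = 0 ∨
  (∃ j, kd n = kC j ∧ ∃ y ∈ γ, kd y = kC j ∧ Imm H (pr y)) ∨
  (kd n = 4 ∧ ∃ y ∈ γ, kd y = 4 ∧ ct y + 1 = ct n ∧ Imm H (pr y)) ∨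
  (∃ j, kd n = kS j ∧ ∃ y ∈ γ, kd y = 4 ∧ ct y ≤ N ∧ Imm H (pr y)) ∨
  (∃ j, kd n = kS j ∧ ∃ y ∈ γ, kd y = kS j ∧ ct y + 1 = ct n ∧ Imm H (pr y)) ∨
  (∃ j, kd n = kS j ∧ ∃ y ∈ γ, ∃ z ∈ γ, kd y = kS j ∧ ct y ≤ R ∧ Imm H (pr y) ∧
    kd z = kC j ∧ Imm H (pr z)) ∨
  (kd n = 7 ∧ ∃ y ∈ γ, kd y = 7 ∧ ct y + 1 = ct n ∧ Imm H (pr y)) ∨
  (kd n = 7 ∧ ∀ j, ∃ y ∈ γ, kd y = kS j ∧ ct y ≤ R ∧ Imm H (pr y))

/-- Final marked symbols. -/
def Final (x : Bool → ℕ) (n : ℕ) : Prop :=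
  kd n = 0 ∨ (∃ j, kd n = kC j ∧ pr n = x j) ∨ (kd n = 4 ∧ ct n = 0)

/-- Number of occurrences of a letter in the projection of a marked word. -/
def cnt (a : ℕ) (w : List ℕ) : ℕ := (w.map pr).count a

theorem cnt_mono {a : ℕ} {u w : List ℕ} (h : u.Sublist w) : cnt a u ≤ cnt a w :=
  (h.map pr).count_le a

theorem cnt_append (a : ℕ) (u w : List ℕ) : cnt a (u ++ w) = cnt a u + cnt a w := by
  simp [cnt]

variable {H : Grammar} {x : Bool → ℕ} {N R B m₀ p : ℕ}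

theorem force_inv : ∀ (d n : ℕ) (w : List ℕ), D (marked H B (okF H N R) m₀) d [n] w →
    (∀ y ∈ w, Final x y) → Imm H (pr n) →
    kd n ≠ 1 ∧ (∀ j, kd n = kC j → 1 ≤ cnt (x j) w) ∧ (kd n = 4 → d ≤ ct n) ∧
      (∀ j, kd n = kS j → d ≤ (R + 1) * cnt (x j) w + ct n + N + 1) ∧
      (kd n = 7 → ∀ j, d ≤ (R + 1) * cnt (x j) w + ct n + R + N + 2) := by
  intro d
  induction d with
  | zero =>
    intro n w hd hF _
    obtain rfl : w = [n] := hd
    have hn := hF n (by simp)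
    refine ⟨?_, fun j hj => ?_, fun _ => Nat.zero_le _, fun _ _ => Nat.zero_le _,
      fun _ _ => Nat.zero_le _⟩
    · rcases hn with h | ⟨j, h, _⟩ | ⟨h, _⟩
      · omega
      · cases j <;> simp [kC] at h <;> omega
      · omega
    · rcases hn with h | ⟨j', h, h'⟩ | ⟨h, _⟩
      · cases j <;> simp [kC] at hj <;> omega
      · have : j' = j := by
          cases j <;> cases j' <;> simp [kC] at hj h ⊢ <;> omega
        subst this
        simp [cnt, h']
      · cases j <;> simp [kC] at hj <;> omega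
  | succ d ih =>
    intro n w hd hF hi
    obtain ⟨γ, hP, hd⟩ := D_succ_single.mp hd
    have one : ∀ y ∈ γ, Imm H (pr y) → ∃ u : List ℕ, u.Sublist w ∧
        kd y ≠ 1 ∧ (∀ j, kd y = kC j → 1 ≤ cnt (x j) u) ∧ (kd y = 4 → d ≤ ct y) ∧
        (∀ j, kd y = kS j → d ≤ (R + 1) * cnt (x j) u + ct y + N + 1) ∧
        (kd y = 7 → ∀ j, d ≤ (R + 1) * cnt (x j) u + ct y + R + N + 2) := by
      intro y hy hiy
      obtain ⟨u, hu, hs⟩ := D_part hd hy
      exact ⟨u, hs, ih y u hu (fun z hz => hF z (hs.subset hz)) hiy⟩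
    have hC : ∀ j j', kC j = kC j' → j = j' := by decide
    have hS : ∀ j j', kS j = kS j' → j = j' := by decide
    have hC' : ∀ j, kC j = 2 ∨ kC j = 3 := by decide
    have hS' : ∀ j, kS j = 5 ∨ kS j = 6 := by decide
    rcases (mem_marked_P.mp hP).2.2.2 with ⟨h1, h2⟩ | h | ⟨j, h, y, hy, h1, h2⟩ |
      ⟨h, y, hy, h1, h2, h3⟩ | ⟨j, h, y, hy, h1, h2, h3⟩ | ⟨j, h, y, hy, h1, h2, h3⟩ |
      ⟨j, h, y, hy, z, hz, h1, h2, h3, h4, h5⟩ | ⟨h, y, hy, h1, h2, h3⟩ | ⟨h, h1⟩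
    · obtain ⟨y, hy, hiy⟩ := h2 hi
      obtain ⟨u, _, g, _⟩ := one y hy hiy
      exact absurd (h1 y hy) g
    · exact ⟨by omega, fun j hj => by have := hC' j; omega, fun _ => by omega,
        fun j hj => by have := hS' j; omega, fun _ => by omega⟩
    · obtain ⟨u, hs, _, g, _⟩ := one y hy h2
      have := hC' j
      refine ⟨by omega, fun j' hj => ?_, fun _ => by omega,
        fun j hj => by have := hS' j; omega, fun _ => by omega⟩
      obtain rfl := hC j j' (h.symm.trans hj)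
      exact (g j h1).trans (cnt_mono hs)
    · obtain ⟨u, hs, _, _, g, _⟩ := one y hy h3
      have := g h1
      exact ⟨by omega, fun j hj => by have := hC' j; omega, fun _ => by omega,
        fun j hj => by have := hS' j; omega, fun _ => by omega⟩
    · obtain ⟨u, hs, _, _, g, _⟩ := one y hy h3
      have := g h1
      have := hS' j
      exact ⟨by omega, fun j hj => by have := hC' j; omega, fun _ => by omega,
        fun j hj => by omega, fun _ => by omega⟩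
    · obtain ⟨u, hs, _, _, _, g, _⟩ := one y hy h3
      have := hS' j
      refine ⟨by omega, fun j hj => by have := hC' j; omega, fun _ => by omega,
        fun j' hj => ?_, fun _ => by omega⟩
      obtain rfl := hS j j' (h.symm.trans hj)
      have g1 := g j h1
      have g2 := Nat.mul_le_mul_left (R + 1) (cnt_mono (a := x j) hs)
      omega
    · have := hS' j
      have := hC' j
      have hne : y ≠ z := by
        rintro rfl
        omega
      obtain ⟨u, v, hu, hv, hs⟩ := D_part2 hd hy hz hne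
      have su : ∀ c ∈ u, c ∈ w := fun c hc => hs.elim (fun h => h.subset (by simp [hc]))
        (fun h => h.subset (by simp [hc]))
      have sv : ∀ c ∈ v, c ∈ w := fun c hc => hs.elim (fun h => h.subset (by simp [hc]))
        (fun h => h.subset (by simp [hc]))
      have g1 := (ih y u hu (fun c hc => hF c (su c hc)) h3).2.2.2.1 j h1
      have g2 := (ih z v hv (fun c hc => hF c (sv c hc)) h5).2.1 j h4
      have g3 : cnt (x j) u + cnt (x j) v ≤ cnt (x j) w := by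
        rcases hs with hs | hs
        · have := cnt_mono (a := x j) hs
          rw [cnt_append] at this
          omega
        · have := cnt_mono (a := x j) hs
          rw [cnt_append] at this
          omega
      refine ⟨by omega, fun j hj => by have := hC' j; omega, fun _ => by omega,
        fun j' hj => ?_, fun _ => by omega⟩
      obtain rfl := hS j j' (h.symm.trans hj)
      have g4 : (R + 1) * (cnt (x j) u + 1) ≤ (R + 1) * cnt (x j) w :=
        Nat.mul_le_mul_left _ (by omega)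
      rw [Nat.mul_add] at g4
      omega
    · obtain ⟨u, hs, _, _, _, _, g⟩ := one y hy h3
      refine ⟨by omega, fun j hj => by have := hC' j; omega, fun _ => by omega,
        fun j hj => by have := hS' j; omega, fun _ j => ?_⟩
      have g1 := g h1 j
      have g2 := Nat.mul_le_mul_left (R + 1) (cnt_mono (a := x j) hs)
      omega
    · refine ⟨by omega, fun j hj => by have := hC' j; omega, fun _ => by omega,
        fun j hj => by have := hS' j; omega, fun _ j => ?_⟩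
      obtain ⟨y, hy, a1, a2, a3⟩ := h1 j
      obtain ⟨u, hs, _, _, _, g, _⟩ := one y hy a3
      have g1 := g j a1
      have g2 := Nat.mul_le_mul_left (R + 1) (cnt_mono (a := x j) hs)
      omega

theorem marked_step_proj {G : Grammar} {ok : ℕ → List ℕ → Prop} {α β : List ℕ}
    (h : eolStep (marked G B ok m₀) α β) : eolStep G (α.map pr) (β.map pr) := by
  induction α generalizing β with
  | nil => simp [eolStep_nil.mp h, eolStep_nil]
  | cons X α ih =>
    obtain ⟨γ, β', rfl, h1, h2⟩ := eolStep_cons.mp h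
    exact eolStep_cons.mpr ⟨γ.map pr, β'.map pr, by simp, (mem_marked_P.mp h1).1, ih h2⟩

theorem marked_D_proj {G : Grammar} {ok : ℕ → List ℕ → Prop} {d : ℕ} {α w : List ℕ}
    (h : D (marked G B ok m₀) d α w) : D G d (α.map pr) (w.map pr) := by
  induction d generalizing α with
  | zero => cases h; rfl
  | succ d ih =>
    obtain ⟨β, h1, h2⟩ := h
    exact ⟨_, marked_step_proj h1, ih h2⟩

theorem marked_lang_proj {G : Grammar} {ok : ℕ → List ℕ → Prop} {w : List ℕ}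
    (h : w ∈ eolLang (marked G B ok m₀)) : w.map pr ∈ eolLang G := by
  obtain ⟨t, d, hd⟩ := mem_eolLang.mp h
  refine mem_eolLang.mpr ⟨fun a ha => ?_, d, ?_⟩
  · obtain ⟨y, hy, rfl⟩ := List.mem_map.mp ha
    exact (mem_marked_T.mp (t y hy)).1
  · simpa [marked_S] using marked_D_proj hd

theorem map_pr_sym (γ : List ℕ) (k c : ℕ) : (γ.map fun X => sym X k c).map pr = γ := by
  simp [List.map_map, Function.comp_def]

theorem force_eol (hH : IsEOL H) {Rm : ℕ} (hm : m₀ < (max 8 Rm + 1) ^ 2) :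
    IsEOL (marked H ((max 8 Rm + 1) ^ 2) (okF H N R) m₀) := by
  refine ⟨marked_WF hH.1 hm, fun n hn => ?_⟩
  obtain ⟨h1, h2⟩ := mem_marked_V.mp hn
  have : ∃ γ, (pr n, γ) ∈ H.P ∧ (Imm H (pr n) → ∃ y ∈ γ, Imm H y) := by
    by_cases hi : Imm H (pr n)
    · obtain ⟨γ, a, b⟩ := hi.prod hH.1
      exact ⟨γ, a, fun _ => b⟩
    · obtain ⟨γ, a⟩ := hH.2 _ h1
      exact ⟨γ, a, fun h => absurd h hi⟩
  obtain ⟨γ, a, b⟩ := this
  refine ⟨γ.map fun X => sym X 1 0, mem_marked_P.mpr ⟨by rwa [map_pr_sym], h2, ?_, Or.inl ⟨?_, ?_⟩⟩⟩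
  · intro y hy
    obtain ⟨X, _, rfl⟩ := List.mem_map.mp hy
    exact mk_sym_lt (by omega) (by omega)
  · intro y hy
    obtain ⟨X, _, rfl⟩ := List.mem_map.mp hy
    simp
  · intro hi
    obtain ⟨y, hy, hiy⟩ := b hi
    exact ⟨sym y 1 0, List.mem_map_of_mem hy, by simpa using hiy⟩

/-- A marking of `δ` that derives a final terminal word in `d` steps. -/
def Ok (H : Grammar) (x : Bool → ℕ) (N R Rm m₀ d : ℕ) (δ δ' : List ℕ) : Prop :=
  δ'.map pr = δ ∧ (∀ y ∈ δ', mk y < (max 8 Rm + 1) ^ 2) ∧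
    ∃ w, (∀ y ∈ w, y ∈ (marked H ((max 8 Rm + 1) ^ 2) (okF H N R) m₀).T ∧ Final x y) ∧
      D (marked H ((max 8 Rm + 1) ^ 2) (okF H N R) m₀) d δ' w

variable {Rm : ℕ}

theorem Ok.append {d : ℕ} {α α' β β' : List ℕ} (h1 : Ok H x N R Rm m₀ d α α')
    (h2 : Ok H x N R Rm m₀ d β β') : Ok H x N R Rm m₀ d (α ++ β) (α' ++ β') := by
  obtain ⟨a1, a2, u, a3, a4⟩ := h1
  obtain ⟨b1, b2, v, b3, b4⟩ := h2
  exact ⟨by simp [a1, b1], fun y hy => (List.mem_append.mp hy).elim (a2 y) (b2 y), u ++ v,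
    fun y hy => (List.mem_append.mp hy).elim (a3 y) (b3 y), a4.append b4⟩

theorem Ok.append3 {d X X' : ℕ} {α α' β β' : List ℕ} (h1 : Ok H x N R Rm m₀ d α α')
    (h2 : Ok H x N R Rm m₀ d [X] [X']) (h3 : Ok H x N R Rm m₀ d β β') :
    Ok H x N R Rm m₀ d (α ++ X :: β) (α' ++ X' :: β') := h1.append (h2.append h3)

theorem Ok.prod {d X k c : ℕ} {γ γ' : List ℕ} (hP : (X, γ) ∈ H.P) (hk : k ≤ 8) (hc : c ≤ Rm)
    (h : Ok H x N R Rm m₀ d γ γ') (hok : okF H N R (sym X k c) γ') :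
    Ok H x N R Rm m₀ (d + 1) [X] [sym X k c] := by
  obtain ⟨a1, a2, u, a3, a4⟩ := h
  refine ⟨by simp, by simpa using mk_sym_lt hk hc, u, a3, D_succ_single.mpr ⟨γ', ?_, a4⟩⟩
  exact mem_marked_P.mpr ⟨by simpa [a1] using hP, mk_sym_lt hk hc, a2, hok⟩

theorem ok_zero {X k c : ℕ} (hX : X ∈ H.T) (hk : k ≤ 8) (hc : c ≤ Rm) (hF : Final x (sym X k c)) :
    Ok H x N R Rm m₀ 0 [X] [sym X k c] := by
  refine ⟨by simp, by simpa using mk_sym_lt hk hc, [sym X k c], ?_, rfl⟩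
  intro y hy
  rw [List.mem_singleton.mp hy]
  exact ⟨mem_marked_T.mpr ⟨by simpa using hX, mk_sym_lt hk hc⟩, hF⟩

theorem ok_list {d : ℕ} {δ : List ℕ} (h : ∀ X ∈ δ, Ok H x N R Rm m₀ d [X] [sym X 0 0]) :
    Ok H x N R Rm m₀ d δ (δ.map fun X => sym X 0 0) := by
  induction δ with
  | nil => exact ⟨rfl, by simp, [], by simp, D_nil.mpr rfl⟩
  | cons X δ ih =>
    exact (h X (by simp)).append (ih fun Y hY => h Y (List.mem_cons_of_mem _ hY))

theorem ok_free : ∀ (d X : ℕ), Val H d X → Ok H x N R Rm m₀ d [X] [sym X 0 0] := by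
  intro d
  induction d with
  | zero =>
    rintro X ⟨w, t, hd⟩
    obtain rfl : w = [X] := hd
    exact ok_zero (t X (by simp)) (by omega) (by omega) (Or.inl (by simp))
  | succ d ih =>
    rintro X ⟨w, t, hd⟩
    obtain ⟨γ, hP, hd⟩ := D_succ_single.mp hd
    exact Ok.prod hP (by omega) (by omega) (ok_list fun Y hY => ih Y (val_of_D t hd Y hY))
      (Or.inr (Or.inl (by simp)))

theorem ok_frees {d : ℕ} {δ : List ℕ} (h : ∀ X ∈ δ, Val H d X) :
    Ok H x N R Rm m₀ d δ (δ.map fun X => sym X 0 0) := ok_list fun X hX => ok_free d X (h X hX)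

theorem ValL.imm (hH : IsEOL H) {a d X : ℕ} (ha : Imm H a) (hX : X ∈ H.V) (h : ValL H a d X) :
    Imm H X := by
  obtain ⟨w, _, h1, h2⟩ := h
  exact imm_of_derives hH hX h2 h1 ha

theorem valL_succ {a d X : ℕ} (h : ValL H a (d + 1) X) : ∃ γ₁ Y γ₂, (X, γ₁ ++ Y :: γ₂) ∈ H.P ∧
    (∀ Z ∈ γ₁, Val H d Z) ∧ ValL H a d Y ∧ ∀ Z ∈ γ₂, Val H d Z := by
  obtain ⟨w, t, ha, hd⟩ := h
  obtain ⟨γ, hP, hd⟩ := D_succ_single.mp hd
  obtain ⟨γ₁, Y, γ₂, w₁, u, w₂, rfl, rfl, h1, h2, h3, h4⟩ := D_letter hd ha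
  obtain ⟨t12, t3⟩ := term_append.mp t
  obtain ⟨t1, t2⟩ := term_append.mp t12
  exact ⟨γ₁, Y, γ₂, hP, val_of_D t1 h1, ⟨u, t2, h4, h2⟩, val_of_D t3 h3⟩

theorem kC_le (j : Bool) : kC j ≤ 8 := by cases j <;> simp [kC]
theorem kS_le (j : Bool) : kS j ≤ 8 := by cases j <;> simp [kS]

theorem ok_carry (hH : IsEOL H) (hx : ∀ j, Imm H (x j)) (j : Bool) :
    ∀ (d X : ℕ), ValL H (x j) d X → Ok H x N R Rm m₀ d [X] [sym X (kC j) 0] := by
  intro d
  induction d with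
  | zero =>
    rintro X ⟨w, t, ha, hd⟩
    obtain rfl : w = [X] := hd
    exact ok_zero (t X (by simp)) (kC_le j) (by omega)
      (Or.inr (Or.inl ⟨j, by simp, by simpa using (List.mem_singleton.mp ha).symm⟩))
  | succ d ih =>
    intro X h
    obtain ⟨γ₁, Y, γ₂, hP, h1, h2, h3⟩ := valL_succ h
    have hY : Y ∈ H.V := (hH.1.2.2 _ hP).2 Y (by simp)
    refine Ok.prod hP (kC_le j) (by omega) ((ok_frees h1).append3 (ih Y h2) (ok_frees h3)) ?_
    refine Or.inr (Or.inr (Or.inl ⟨j, by simp, sym Y (kC j) 0, by simp, by simp, ?_⟩))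
    simpa using h2.imm hH (hx j) hY

theorem ok_down (hH : IsEOL H) (hx : ∀ j, Imm H (x j)) (j : Bool) :
    ∀ (d X : ℕ), d ≤ Rm → ValL H (x j) d X → Ok H x N R Rm m₀ d [X] [sym X 4 d] := by
  intro d
  induction d with
  | zero =>
    rintro X _ ⟨w, t, ha, hd⟩
    obtain rfl : w = [X] := hd
    exact ok_zero (t X (by simp)) (by omega) (by omega) (Or.inr (Or.inr ⟨by simp, by simp⟩))
  | succ d ih =>
    intro X hd h
    obtain ⟨γ₁, Y, γ₂, hP, h1, h2, h3⟩ := valL_succ h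
    have hY : Y ∈ H.V := (hH.1.2.2 _ hP).2 Y (by simp)
    refine Ok.prod hP (by omega) hd ((ok_frees h1).append3 (ih Y (by omega) h2) (ok_frees h3)) ?_
    refine Or.inr (Or.inr (Or.inr (Or.inl ⟨by simp, sym Y 4 d, by simp, by simp, by simp, ?_⟩)))
    simpa using h2.imm hH (hx j) hY

theorem ok_with_carry (hH : IsEOL H) (hx : ∀ j, Imm H (x j)) (j : Bool) {d Z : ℕ} {δ : List ℕ}
    (h : ∀ X ∈ δ, Val H d X) (hZ : Z ∈ δ) (hv : ValL H (x j) d Z) :
    ∃ δ', Ok H x N R Rm m₀ d δ δ' ∧ sym Z (kC j) 0 ∈ δ' := by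
  obtain ⟨δ₁, δ₂, rfl⟩ := List.append_of_mem hZ
  exact ⟨_, (ok_frees fun X hX => h X (by simp [hX])).append3 (ok_carry hH hx j d Z hv)
    (ok_frees fun X hX => h X (by simp [hX])), by simp⟩

theorem UnbZ.imm (hH : IsEOL H) (hx : ∀ j, Imm H (x j)) {j : Bool} {r : ZMod (p + 1)} {X : ℕ}
    (hX : X ∈ H.V) (h : UnbZ H x p j r X) : Imm H X := by
  obtain ⟨d, w, _, _, hd, hc⟩ := h 1
  exact imm_of_derives hH hX hd (List.count_pos_iff.mp hc) (hx j)

theorem ok_spine (hH : IsEOL H) (hx : ∀ j, Imm H (x j)) (hp : Per H x N p)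
    (hR : ∀ j r, ∀ X ∈ H.V, UnbZ H x p j r X → ∃ n ≤ R, SpZ H x N p j n r X)
    (hN : N ≤ Rm) (hRm : R ≤ Rm) (j : Bool) :
    ∀ (d n X : ℕ), N < d → n ≤ R → SpZ H x N p j n d X →
      Ok H x N R Rm m₀ d [X] [sym X (kS j) n] := by
  intro d
  induction d with
  | zero => intro n X h; omega
  | succ d ih =>
    intro n X hd hn h
    have hNd : N ≤ d := by omega
    have common : ∃ γ₁ Y γ₂, (X, γ₁ ++ Y :: γ₂) ∈ H.P ∧ (∀ Z ∈ γ₁ ++ γ₂, ValZ H N p d Z) ∧
        UnbZ H x p j d Y ∧ ((n = 0 ∧ ∃ Z ∈ γ₁ ++ γ₂, ValLZ H x N p j d Z) ∨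
          ∃ n', n = n' + 1 ∧ SpZ H x N p j n' d Y) := by
      cases n with
      | zero =>
        obtain ⟨γ₁, Y, γ₂, a1, a2⟩ := h
        rw [cast_succ_sub] at a2
        exact ⟨γ₁, Y, γ₂, a1, a2.1, a2.2.1, Or.inl ⟨rfl, a2.2.2⟩⟩
      | succ n =>
        obtain ⟨γ₁, Y, γ₂, a1, a2⟩ := h
        rw [cast_succ_sub] at a2
        exact ⟨γ₁, Y, γ₂, a1, a2.1, a2.2.1, Or.inr ⟨n, rfl, a2.2.2⟩⟩
    obtain ⟨γ₁, Y, γ₂, hP, hs, hu, hcase⟩ := common
    have hV := (hH.1.2.2 _ hP).2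
    have hY : Y ∈ H.V := hV Y (by simp)
    have hiY : Imm H Y := hu.imm hH hx hY
    have v1 : ∀ Z ∈ γ₁, Val H d Z := fun Z hZ => hs Z (by simp [hZ]) d hNd rfl
    have v2 : ∀ Z ∈ γ₂, Val H d Z := fun Z hZ => hs Z (by simp [hZ]) d hNd rfl
    rcases Nat.eq_or_lt_of_le hNd with rfl | hlt
    · refine Ok.prod hP (kS_le j) (by omega) ((ok_frees v1).append3
        (ok_down hH hx j N Y hN (hu.valLZ hp hY N le_rfl rfl)) (ok_frees v2)) ?_
      exact Or.inr (Or.inr (Or.inr (Or.inr (Or.inl ⟨j, by simp, sym Y 4 N, by simp, by simp,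
        by simp, by simpa using hiY⟩))))
    · rcases hcase with ⟨rfl, Z, hZ, hv⟩ | ⟨n', rfl, hsp⟩
      · obtain ⟨n', hn', hsp⟩ := hR j d Y hY hu
        have hY' := ih n' Y hlt hn' hsp
        have hvZ := hv d hNd rfl
        have hZV : Z ∈ H.V := hV Z (by
          simp only [List.mem_append, List.mem_cons] at hZ ⊢; tauto)
        have hiZ : Imm H Z := hvZ.imm hH (hx j) hZV
        rcases List.mem_append.mp hZ with hZ | hZ
        · obtain ⟨δ', g1, g2⟩ := ok_with_carry (N := N) (R := R) (Rm := Rm) (m₀ := m₀)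
            hH hx j v1 hZ hvZ
          refine Ok.prod hP (kS_le j) (by omega) (g1.append3 hY' (ok_frees v2)) ?_
          exact Or.inr (Or.inr (Or.inr (Or.inr (Or.inr (Or.inr (Or.inl ⟨j, by simp,
            sym Y (kS j) n', by simp, sym Z (kC j) 0, by simp [g2], by simp, by simpa using hn',
            by simpa using hiY, by simp, by simpa using hiZ⟩))))))
        · obtain ⟨δ', g1, g2⟩ := ok_with_carry (N := N) (R := R) (Rm := Rm) (m₀ := m₀)
            hH hx j v2 hZ hvZ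
          refine Ok.prod hP (kS_le j) (by omega) ((ok_frees v1).append3 hY' g1) ?_
          exact Or.inr (Or.inr (Or.inr (Or.inr (Or.inr (Or.inr (Or.inl ⟨j, by simp,
            sym Y (kS j) n', by simp, sym Z (kC j) 0, by simp [g2], by simp, by simpa using hn',
            by simpa using hiY, by simp, by simpa using hiZ⟩))))))
      · refine Ok.prod hP (kS_le j) (by omega)
          ((ok_frees v1).append3 (ih n' Y hlt (by omega) hsp) (ok_frees v2)) ?_
        exact Or.inr (Or.inr (Or.inr (Or.inr (Or.inr (Or.inl ⟨j, by simp,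
          sym Y (kS j) n', by simp, by simp, by simp, by simpa using hiY⟩)))))

theorem PreZ.imm (hH : IsEOL H) (hx : ∀ j, Imm H (x j)) : ∀ (k : ℕ) (r : ZMod (p + 1)) (X : ℕ),
    PreZ H x N p k r X → Imm H X := by
  intro k
  induction k with
  | zero =>
    rintro r X ⟨γ₁, Y₁, γ₂, Y₂, γ₃, j, hP, _, h1, _⟩
    have hV := hH.1.2.2 _ hP
    exact imm_of_derives hH hV.1 (D_one.mpr (eolStep_single.mpr hP)) (a := Y₁) (by simp)
      (h1.imm hH hx (hV.2 _ (by simp)))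
  | succ k ih =>
    rintro r X ⟨γ₁, Y, γ₂, hP, _, h1⟩
    have hV := hH.1.2.2 _ hP
    exact imm_of_derives hH hV.1 (D_one.mpr (eolStep_single.mpr hP)) (a := Y) (by simp)
      (ih _ _ h1)

theorem ok_pre (hH : IsEOL H) (hx : ∀ j, Imm H (x j)) (hp : Per H x N p)
    (hR : ∀ j r, ∀ X ∈ H.V, UnbZ H x p j r X → ∃ n ≤ R, SpZ H x N p j n r X)
    (hN : N ≤ Rm) (hRm : R ≤ Rm) :
    ∀ (k d X : ℕ), k ≤ Rm → N + k < d → PreZ H x N p k ((d + 1 : ℕ) : ZMod (p + 1)) X →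
      Ok H x N R Rm m₀ (d + 1) [X] [sym X 7 k] := by
  intro k
  induction k with
  | zero =>
    rintro d X hk hd ⟨γ₁, Y₁, γ₂, Y₂, γ₃, j, hP, h⟩
    rw [cast_succ_sub] at h
    obtain ⟨hs, h1, h2⟩ := h
    have hV := (hH.1.2.2 _ hP).2
    have hY₁ : Y₁ ∈ H.V := hV _ (by simp)
    have hY₂ : Y₂ ∈ H.V := hV _ (by simp)
    obtain ⟨n₁, a1, a2⟩ := hR j d Y₁ hY₁ h1
    obtain ⟨n₂, b1, b2⟩ := hR (!j) d Y₂ hY₂ h2
    have v1 : ∀ Z ∈ γ₁, Val H d Z := fun Z hZ => hs Z (by simp [hZ]) d (by omega) rfl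
    have v2 : ∀ Z ∈ γ₂, Val H d Z := fun Z hZ => hs Z (by simp [hZ]) d (by omega) rfl
    have v3 : ∀ Z ∈ γ₃, Val H d Z := fun Z hZ => hs Z (by simp [hZ]) d (by omega) rfl
    refine Ok.prod hP (by omega) hk (((ok_frees v1).append3
      (ok_spine hH hx hp hR hN hRm j d n₁ Y₁ (by omega) a1 a2) (ok_frees v2)).append3
      (ok_spine hH hx hp hR hN hRm (!j) d n₂ Y₂ (by omega) b1 b2) (ok_frees v3)) ?_
    refine Or.inr (Or.inr (Or.inr (Or.inr (Or.inr (Or.inr (Or.inr (Or.inr ⟨by simp, fun b => ?_⟩)))))))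
    by_cases hb : b = j
    · subst hb
      exact ⟨sym Y₁ (kS b) n₁, by simp, by simp, by simpa using a1,
        by simpa using h1.imm hH hx hY₁⟩
    · have : b = !j := by cases b <;> cases j <;> simp_all
      subst this
      exact ⟨sym Y₂ (kS (!j)) n₂, by simp, by simp, by simpa using b1,
        by simpa using h2.imm hH hx hY₂⟩
  | succ k ih =>
    rintro d X hk hd ⟨γ₁, Y, γ₂, hP, h⟩
    rw [cast_succ_sub] at h
    obtain ⟨hs, h1⟩ := h
    obtain ⟨d', rfl⟩ : ∃ d', d = d' + 1 := ⟨d - 1, by omega⟩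
    have v1 : ∀ Z ∈ γ₁, Val H (d' + 1) Z := fun Z hZ => hs Z (by simp [hZ]) _ (by omega) rfl
    have v2 : ∀ Z ∈ γ₂, Val H (d' + 1) Z := fun Z hZ => hs Z (by simp [hZ]) _ (by omega) rfl
    refine Ok.prod hP (by omega) hk ((ok_frees v1).append3
      (ih d' Y (by omega) (by omega) h1) (ok_frees v2)) ?_
    exact Or.inr (Or.inr (Or.inr (Or.inr (Or.inr (Or.inr (Or.inr (Or.inl ⟨by simp,
      sym Y 7 k, by simp, by simp, by simp, by simpa using h1.imm hH hx⟩)))))))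

/-- The forcing interpretation. -/
theorem exists_forcing (hH : IsEOL H) (hx : ∀ j, Imm H (x j)) {c₀ : ℕ} (hw : Win H x c₀)
    (hbig : ∀ n, ∃ w ∈ eolLang H, ∀ j, n ≤ w.count (x j)) :
    ∃ (H' : Grammar) (C : ℕ), IsEOL H' ∧ SInterp H' H ∧
      (∀ w ∈ eolLang H', w.map pr ∈ eolLang H) ∧
      (∀ n, ∃ w ∈ eolLang H', (∀ y ∈ w, Final x y) ∧ n ≤ w.length) ∧
      (∀ d w, D H' d [H'.S] w → (∀ y ∈ w, Final x y) → ∀ j, d ≤ C * (cnt (x j) w + 1)) := by
  obtain ⟨N, p, hp⟩ := exists_per hH.1 x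
  obtain ⟨R, hR⟩ := exists_spine_bound hH.1 hp
  obtain ⟨k, r, hpre⟩ := exists_pre hH.1 hp hw hbig
  let Rm := N + R + k
  have hm : Nat.pair 7 k < (max 8 Rm + 1) ^ 2 := by
    have := mk_sym_lt (X := 0) (k := 7) (c := k) (Rm := Rm) (by omega) (by omega)
    simpa [sym] using this
  have hinv : ∀ d w, D (marked H ((max 8 Rm + 1) ^ 2) (okF H N R) (Nat.pair 7 k)) d
      [sym H.S 7 k] w → (∀ y ∈ w, Final x y) →
      ∀ j, d ≤ (k + R + N + 2) * (cnt (x j) w + 1) := by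
    intro d w hd hF j
    have := (force_inv d _ w hd hF (by simpa using hpre.imm hH hx)).2.2.2.2 (by simp) j
    simp only [ct_sym] at this
    nlinarith [Nat.zero_le (cnt (x j) w)]
  refine ⟨marked H ((max 8 Rm + 1) ^ 2) (okF H N R) (Nat.pair 7 k), k + R + N + 2,
    force_eol hH hm, marked_interp hm, fun w hw => marked_lang_proj hw, fun n => ?_, hinv⟩
  obtain ⟨d, hd, _, he⟩ := exists_depth (N + k + 2 + (k + R + N + 2) * (n + 1)) p r
  obtain ⟨d', rfl⟩ : ∃ d', d = d' + 1 := ⟨d - 1, by omega⟩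
  obtain ⟨_, _, w, h1, h2⟩ := ok_pre (m₀ := Nat.pair 7 k) (Rm := Rm) hH hx hp hR (by omega)
    (by omega) k d' H.S (by omega) (by omega) (he ▸ hpre)
  refine ⟨w, mem_eolLang.mpr ⟨fun y hy => (h1 y hy).1, _, h2⟩, fun y hy => (h1 y hy).2, ?_⟩
  have h3 := hinv _ w h2 (fun y hy => (h1 y hy).2) true
  have h4 : cnt (x true) w ≤ w.length := by
    have : cnt (x true) w ≤ (w.map pr).length := List.count_le_length
    simpa using this
  by_contra hlt
  have h5 : (k + R + N + 2) * (cnt (x true) w + 1) ≤ (k + R + N + 2) * (n + 1) :=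
    Nat.mul_le_mul_left _ (by omega)
  omega

end Pool.Agent.P.MP_1e6486_lc
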