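import Mathlib
import Pool.Agent.P.MP_1e6486_lc.Chomsky
import Pool.Agent.P.MP_1e6486_lc.Mark

/-!
Isolating a double pumping pattern by an s-interpretation.
-/

namespace Pool.Agent.P.MP_1e6486_lc

/-- Languages of the form `x₀ uⁿ w₀ vⁿ x₁ u'ᵐ w₁ v'ᵐ x₂` with letters split into five classes. -/
def Shape (L : Set (List ℕ)) : Prop :=
  ∃ (κ : ℕ → ℕ) (u v u' v' x₀ w₀ x₁ w₁ x₂ : List ℕ), u ≠ [] ∧ v ≠ [] ∧ u' ≠ [] ∧ v' ≠ [] ∧
    (∀ x ∈ u, κ x = 1) ∧ (∀ x ∈ v, κ x = 2) ∧ (∀ x ∈ u', κ x = 3) ∧ (∀ x ∈ v', κ x = 4) ∧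
    (∀ x ∈ x₀, κ x = 0) ∧ (∀ x ∈ w₀, κ x = 0) ∧ (∀ x ∈ x₁, κ x = 0) ∧ (∀ x ∈ w₁, κ x = 0) ∧
    (∀ x ∈ x₂, κ x = 0) ∧
    L = {w | ∃ n m, w = x₀ ++ (rep u n ++ w₀ ++ rep v n) ++ x₁ ++ (rep u' m ++ w₁ ++ rep v' m) ++ x₂}

/-- Instances of a pattern with two variables. -/
def Inst (Z : Bool → Set (List ℕ)) : List (ℕ ⊕ Bool) → List ℕ → Prop
  | [], w => w = []
  | Sum.inl n :: p, w => ∃ y, w = n :: y ∧ Inst Z p y
  | Sum.inr j :: p, w => ∃ z y, w = z ++ y ∧ z ∈ Z j ∧ Inst Z p y

theorem inst_append {Z : Bool → Set (List ℕ)} {p q : List (ℕ ⊕ Bool)} {w : List ℕ} :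
    Inst Z (p ++ q) w ↔ ∃ x y, w = x ++ y ∧ Inst Z p x ∧ Inst Z q y := by
  induction p generalizing w with
  | nil => simp [Inst]
  | cons a p ih =>
    cases a with
    | inl n =>
      simp only [List.cons_append, Inst, ih]
      constructor
      · rintro ⟨_, rfl, x, y, rfl, h1, h2⟩
        exact ⟨n :: x, y, rfl, ⟨x, rfl, h1⟩, h2⟩
      · rintro ⟨_, y, rfl, ⟨x, rfl, h1⟩, h2⟩
        exact ⟨x ++ y, rfl, x, y, rfl, h1, h2⟩
    | inr j =>
      simp only [List.cons_append, Inst, ih]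
      constructor
      · rintro ⟨z, _, rfl, hz, x, y, rfl, h1, h2⟩
        exact ⟨z ++ x, y, by simp, ⟨z, x, rfl, hz, h1⟩, h2⟩
      · rintro ⟨_, y, rfl, ⟨z, x, rfl, hz, h1⟩, h2⟩
        exact ⟨z, x ++ y, by simp, hz, x, y, rfl, h1, h2⟩

theorem inst_const {Z : Bool → Set (List ℕ)} {x w : List ℕ} :
    Inst Z (x.map Sum.inl) w ↔ w = x := by
  induction x generalizing w with
  | nil => simp [Inst]
  | cons a x ih => simp [Inst, ih]

theorem inst_one {Z : Bool → Set (List ℕ)} {x y w : List ℕ} {j : Bool} :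
    Inst Z (x.map Sum.inl ++ Sum.inr j :: y.map Sum.inl) w ↔ ∃ z ∈ Z j, w = x ++ z ++ y := by
  simp only [inst_append, inst_const, Inst]
  constructor
  · rintro ⟨_, _, rfl, rfl, z, _, rfl, hz, rfl⟩
    exact ⟨z, hz, by simp⟩
  · rintro ⟨z, hz, rfl⟩
    exact ⟨x, z ++ y, by simp, rfl, z, y, rfl, hz, rfl⟩

/-- The language promised by a marked symbol. -/
def Spec (G : Grammar) (Λ : Bool → Set (List ℕ)) (n : ℕ) : Set (List ℕ) :=
  if pr n ∈ G.T then {[n]}
  else {w | Inst Λ (((Encodable.decode (mk n) : Option (List (ℕ ⊕ Bool)))).getD []) w}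

/-- The concatenation of the promised languages. -/
def SL (G : Grammar) (Λ : Bool → Set (List ℕ)) : List ℕ → Set (List ℕ)
  | [] => {[]}
  | n :: γ => {w | ∃ x y, w = x ++ y ∧ x ∈ Spec G Λ n ∧ y ∈ SL G Λ γ}

theorem spec_pair {G : Grammar} {Λ : Bool → Set (List ℕ)} {A : ℕ} (hA : A ∉ G.T)
    (p : List (ℕ ⊕ Bool)) : Spec G Λ (Nat.pair A (Encodable.encode p)) = {w | Inst Λ p w} := by
  simp [Spec, hA]

theorem iso_sound {G : Grammar} {Λ : Bool → Set (List ℕ)} {B m₀ : ℕ} {n : ℕ} {w : List ℕ}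
    (h : Gen (marked G B (fun n γ => SL G Λ γ ⊆ Spec G Λ n) m₀) [n] w)
    (ht : Term (marked G B (fun n γ => SL G Λ γ ⊆ Spec G Λ n) m₀) w) : w ∈ Spec G Λ n := by
  refine Gen.ind (Q := fun n w =>
    Term (marked G B (fun n γ => SL G Λ γ ⊆ Spec G Λ n) m₀) w → w ∈ Spec G Λ n) ?_ ?_ h ht
  · intro X ht
    have := (mem_marked_T.mp (ht X (by simp))).1
    simp [Spec, this]
  · intro A γ ws hp hws ht
    apply (mem_marked_P.mp hp).2.2.2
    clear hp
    induction hws with
    | nil => exact rfl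
    | cons h1 _ ih =>
      rw [List.flatten_cons, term_append] at ht
      exact ⟨_, _, rfl, h1.2 ht.1, ih ht.2⟩

/-- Projection of pattern letters. -/
def ppr (Dj : Bool → ℕ) : ℕ ⊕ Bool → ℕ
  | Sum.inl n => pr n
  | Sum.inr j => Dj j

theorem iso_complete {G : Grammar} (hG : IsCF G) {Λ : Bool → Set (List ℕ)} {B m₀ : ℕ}
    (Dj : Bool → ℕ) {β δ : List ℕ} (h : Gen G β δ) :
    ∀ p : List (ℕ ⊕ Bool), δ = p.map (ppr Dj) →
      (∀ n, Sum.inl n ∈ p → pr n ∈ G.T ∧ mk n < B) →
      (∀ q : List (ℕ ⊕ Bool), q.Sublist p → Encodable.encode q < B) → ∀ w,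
      Inst (fun j => {z | ∃ m < B, Spec G Λ (Nat.pair (Dj j) m) ⊆ Λ j ∧
        Gen (marked G B (fun n γ => SL G Λ γ ⊆ Spec G Λ n) m₀) [Nat.pair (Dj j) m] z}) p w →
      ∃ β' : List ℕ, β'.map pr = β ∧ (∀ x ∈ β', mk x < B) ∧
        Gen (marked G B (fun n γ => SL G Λ γ ⊆ Spec G Λ n) m₀) β' w ∧
        SL G Λ β' ⊆ {w | Inst Λ p w} := by
  induction h with
  | nil =>
    intro p hp _ _ w hw
    have : p = [] := by simpa using hp.symm
    subst this
    obtain rfl : w = [] := hw
    exact ⟨[], rfl, by simp, Gen.nil, fun w hw => hw⟩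
  | @keep X α δ _ ih =>
    intro p hp h1 h2 w hw
    cases p with
    | nil => simp at hp
    | cons a p =>
      simp only [List.map_cons, List.cons.injEq] at hp
      have h1' : ∀ n, Sum.inl n ∈ p → pr n ∈ G.T ∧ mk n < B :=
        fun n hn => h1 n (List.mem_cons_of_mem _ hn)
      have h2' : ∀ q : List (ℕ ⊕ Bool), q.Sublist p → Encodable.encode q < B :=
        fun q hq => h2 q (hq.trans (List.sublist_cons_self _ _))
      cases a with
      | inl n =>
        obtain ⟨y, rfl, hy⟩ := hw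
        obtain ⟨β', e, b1, b2, b3⟩ := ih p hp.2 h1' h2' y hy
        have hn := h1 n (by simp)
        refine ⟨n :: β', by simp [e, hp.1, ppr], ?_, Gen.keep n b2, ?_⟩
        · intro x hx
          rcases List.mem_cons.mp hx with rfl | hx
          · exact hn.2
          · exact b1 x hx
        · rintro _ ⟨x, y', rfl, hx, hy'⟩
          simp only [Spec, hn.1, if_true, Set.mem_singleton_iff] at hx
          subst hx
          exact ⟨y', rfl, b3 hy'⟩
      | inr j =>
        obtain ⟨z, y, rfl, ⟨m, hm, hz1, hz2⟩, hy⟩ := hw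
        obtain ⟨β', e, b1, b2, b3⟩ := ih p hp.2 h1' h2' y hy
        refine ⟨Nat.pair (Dj j) m :: β', by simp [e, hp.1, ppr], ?_,
          Gen.append (α := [_]) hz2 b2, ?_⟩
        · intro x hx
          rcases List.mem_cons.mp hx with rfl | hx
          · simpa using hm
          · exact b1 x hx
        · rintro _ ⟨x, y', rfl, hx, hy'⟩
          exact ⟨x, y', rfl, hz1 hx, b3 hy'⟩
  | @nt A γ δ₁ α δ₂ hP _ _ ih1 ih2 =>
    intro p hp h1 h2 w hw
    obtain ⟨p₁, p₂, rfl, e1, e2⟩ := List.map_eq_append_iff.mp hp.symm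
    obtain ⟨w₁, w₂, rfl, hw1, hw2⟩ := inst_append.mp hw
    obtain ⟨γ', e, b1, b2, b3⟩ := ih1 p₁ e1.symm (fun n hn => h1 n (List.mem_append_left _ hn))
      (fun q hq => h2 q (hq.trans (List.sublist_append_left _ _))) w₁ hw1
    obtain ⟨β', e', c1, c2, c3⟩ := ih2 p₂ e2.symm (fun n hn => h1 n (List.mem_append_right _ hn))
      (fun q hq => h2 q (hq.trans (List.sublist_append_right _ _))) w₂ hw2
    have hA : A ∉ G.T := hG.2.2 _ hP
    have hB : Encodable.encode p₁ < B := h2 _ (List.sublist_append_left _ _)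
    refine ⟨Nat.pair A (Encodable.encode p₁) :: β', by simp [e'], ?_, Gen.nt ?_ b2 c2, ?_⟩
    · intro x hx
      rcases List.mem_cons.mp hx with rfl | hx
      · simpa using hB
      · exact c1 x hx
    · rw [mem_marked_P]
      refine ⟨by simpa [e] using hP, by simpa using hB, b1, ?_⟩
      rw [spec_pair hA]
      exact b3
    · rintro _ ⟨x, y, rfl, hx, hy⟩
      rw [spec_pair hA] at hx
      exact inst_append.mpr ⟨x, y, rfl, hx, c3 hy⟩

/-- A word with every letter marked by `k`. -/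
def mw (k : ℕ) (x : List ℕ) : List ℕ := x.map (fun a => Nat.pair a k)

theorem map_ppr_mw (Dj : Bool → ℕ) (k : ℕ) (x : List ℕ) :
    ((mw k x).map Sum.inl).map (ppr Dj) = x := by
  induction x with
  | nil => rfl
  | cons a x ih =>
    simp only [mw, List.map_cons, ppr, pr_pair, List.cons.injEq, true_and] at ih ⊢
    exact ih

theorem mem_mw {k : ℕ} {x : List ℕ} {n : ℕ} (h : n ∈ mw k x) : pr n ∈ x ∧ mk n = k := by
  obtain ⟨a, ha, rfl⟩ := List.mem_map.mp h
  simpa using ha

theorem exists_shape {G : Grammar} (hG : IsCF G) (h : DoubleSE G) :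
    ∃ G', IsCF G' ∧ SInterp G' G ∧ Shape (cfLang G') := by
  classical
  obtain ⟨D, E, x₀, x₁, x₂, t0, t1, t2, gS, ⟨u, v, tu, tv, hu, hv, gD⟩, ⟨w₀, tw₀, gw₀⟩,
    ⟨u', v', tu', tv', hu', hv', gE⟩, ⟨w₁, tw₁, gw₁⟩⟩ := h
  let Dj : Bool → ℕ := fun j => if j then E else D
  let U : Bool → List ℕ := fun j => if j then mw 3 u' else mw 1 u
  let W : Bool → List ℕ := fun j => if j then mw 0 w₁ else mw 0 w₀
  let V : Bool → List ℕ := fun j => if j then mw 4 v' else mw 2 v
  let Λ : Bool → Set (List ℕ) := fun j => {z | ∃ n, z = rep (U j) n ++ W j ++ rep (V j) n}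
  let p₀ : List (ℕ ⊕ Bool) := ((mw 0 x₀).map Sum.inl ++ Sum.inr false :: (mw 0 x₁).map Sum.inl) ++
    (([] : List ℕ).map Sum.inl ++ Sum.inr true :: (mw 0 x₂).map Sum.inl)
  let pl : Bool → List (ℕ ⊕ Bool) := fun j => (U j).map Sum.inl ++ Sum.inr j :: (V j).map Sum.inl
  let pb : Bool → List (ℕ ⊕ Bool) := fun j => (W j).map Sum.inl
  let big := p₀ ++ pl false ++ pl true ++ pb false ++ pb true
  let B := big.sublists.toFinset.sup Encodable.encode + 5
  have hB : ∀ q : List (ℕ ⊕ Bool), q.Sublist big → Encodable.encode q < B := by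
    intro q hq
    have : Encodable.encode q ≤ big.sublists.toFinset.sup Encodable.encode :=
      Finset.le_sup (f := Encodable.encode) (by simpa using hq)
    omega
  have hB5 : 5 ≤ B := by omega
  have s0 : p₀.Sublist big := by
    simp only [big, List.append_assoc]
    exact List.sublist_append_left _ _
  have sl : ∀ j, (pl j).Sublist big := by
    intro j
    cases j
    · exact ((((List.sublist_append_right _ _).trans (List.sublist_append_left _ _)).trans
        (List.sublist_append_left _ _)).trans (List.sublist_append_left _ _))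
    · exact (((List.sublist_append_right _ _).trans
        (List.sublist_append_left _ _)).trans (List.sublist_append_left _ _))
  have sb : ∀ j, (pb j).Sublist big := by
    intro j
    cases j
    · exact (List.sublist_append_right _ _).trans (List.sublist_append_left _ _)
    · exact List.sublist_append_right _ _
  have good : ∀ k x n, k < 5 → Term G x → n ∈ mw k x → pr n ∈ G.T ∧ mk n < B := by
    intro k x n hk ht hn
    obtain ⟨h1, h2⟩ := mem_mw hn
    exact ⟨ht _ h1, by omega⟩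
  have gU : ∀ j n, n ∈ U j → pr n ∈ G.T ∧ mk n < B := by
    intro j n hn
    cases j
    · exact good 1 u n (by omega) tu hn
    · exact good 3 u' n (by omega) tu' hn
  have gV : ∀ j n, n ∈ V j → pr n ∈ G.T ∧ mk n < B := by
    intro j n hn
    cases j
    · exact good 2 v n (by omega) tv hn
    · exact good 4 v' n (by omega) tv' hn
  have gW : ∀ j n, n ∈ W j → pr n ∈ G.T ∧ mk n < B := by
    intro j n hn
    cases j
    · exact good 0 w₀ n (by omega) tw₀ hn
    · exact good 0 w₁ n (by omega) tw₁ hn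
  let G' := marked G B (fun n γ => SL G Λ γ ⊆ Spec G Λ n) (Encodable.encode p₀)
  have single : ∀ (j : Bool) (p : List (ℕ ⊕ Bool)) (w : List ℕ), {w | Inst Λ p w} ⊆ Λ j →
      (∃ β' : List ℕ, β'.map pr = [Dj j] ∧ (∀ x ∈ β', mk x < B) ∧ Gen G' β' w ∧
        SL G Λ β' ⊆ {w | Inst Λ p w}) →
      ∃ m < B, Spec G Λ (Nat.pair (Dj j) m) ⊆ Λ j ∧ Gen G' [Nat.pair (Dj j) m] w := by
    rintro j p w hsub ⟨β', e, b1, b2, b3⟩
    obtain ⟨n, rfl, hn⟩ := List.map_eq_singleton_iff.mp e
    refine ⟨mk n, b1 n (by simp), ?_, ?_⟩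
    · rw [← hn, pair_pr_mk]
      intro x hx
      exact hsub (b3 ⟨x, [], by simp, hx, rfl⟩)
    · rw [← hn, pair_pr_mk]
      exact b2
  have hZ : ∀ j n, ∃ m < B, Spec G Λ (Nat.pair (Dj j) m) ⊆ Λ j ∧
      Gen G' [Nat.pair (Dj j) m] (rep (U j) n ++ W j ++ rep (V j) n) := by
    intro j n
    induction n with
    | zero =>
      refine single j (pb j) _ ?_ ?_
      · intro w hw
        exact ⟨0, by simpa [rep_zero] using inst_const.mp hw⟩
      · refine iso_complete hG Dj (δ := (pb j).map (ppr Dj)) ?_ (pb j) rfl ?_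
          (fun q hq => hB q (hq.trans (sb j))) _ ?_
        · cases j
          · simpa only [pb, W, Dj, Bool.false_eq_true, if_false, map_ppr_mw] using gw₀
          · simpa only [pb, W, Dj, if_true, map_ppr_mw] using gw₁
        · intro n hn
          exact gW j n (by simpa [pb] using hn)
        · exact inst_const.mpr (by simp [rep_zero])
    | succ n ih =>
      refine single j (pl j) _ ?_ ?_
      · intro w hw
        obtain ⟨z, ⟨k, rfl⟩, rfl⟩ := inst_one.mp hw
        exact ⟨k + 1, by rw [rep_succ (U j), rep_succ' (V j)]; simp⟩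
      · refine iso_complete hG Dj (δ := (pl j).map (ppr Dj)) ?_ (pl j) rfl ?_
          (fun q hq => hB q (hq.trans (sl j))) _ ?_
        · cases j
          · simpa only [pl, U, V, Dj, Bool.false_eq_true, if_false, map_ppr_mw, List.map_append,
              List.map_cons, ppr] using gD
          · simpa only [pl, U, V, Dj, if_true, map_ppr_mw, List.map_append,
              List.map_cons, ppr] using gE
        · intro n hn
          simp only [pl, List.mem_append, List.mem_map, Sum.inl.injEq, exists_eq_right,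
            List.mem_cons, reduceCtorEq, false_or] at hn
          exact hn.elim (gU j n) (gV j n)
        · exact inst_one.mpr ⟨_, ih, by rw [rep_succ (U j), rep_succ' (V j)]; simp⟩
  have inst0 : ∀ (Z : Bool → Set (List ℕ)) w, Inst Z p₀ w ↔
      ∃ z ∈ Z false, ∃ z' ∈ Z true, w = mw 0 x₀ ++ z ++ mw 0 x₁ ++ z' ++ mw 0 x₂ := by
    intro Z w
    simp only [p₀]
    rw [inst_append]
    simp only [inst_one]
    constructor
    · rintro ⟨_, _, rfl, ⟨z, hz, rfl⟩, ⟨z', hz', rfl⟩⟩
      exact ⟨z, hz, z', hz', by simp⟩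
    · rintro ⟨z, hz, z', hz', rfl⟩
      exact ⟨_, _, by simp, ⟨z, hz, rfl⟩, ⟨z', hz', rfl⟩⟩
  refine ⟨G', marked_CF hG (hB _ s0), marked_interp (hB _ s0), mk, mw 1 u, mw 2 v, mw 3 u',
    mw 4 v', mw 0 x₀, mw 0 w₀, mw 0 x₁, mw 0 w₁, mw 0 x₂, by simpa [mw] using hu,
    by simpa [mw] using hv, by simpa [mw] using hu', by simpa [mw] using hv',
    fun x hx => (mem_mw hx).2, fun x hx => (mem_mw hx).2, fun x hx => (mem_mw hx).2,
    fun x hx => (mem_mw hx).2, fun x hx => (mem_mw hx).2, fun x hx => (mem_mw hx).2,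
    fun x hx => (mem_mw hx).2, fun x hx => (mem_mw hx).2, fun x hx => (mem_mw hx).2, ?_⟩
  ext w
  rw [mem_cfLang]
  constructor
  · rintro ⟨ht, hg⟩
    have := iso_sound hg ht
    rw [marked_S, spec_pair hG.2.1] at this
    obtain ⟨z, ⟨n, rfl⟩, z', ⟨m, rfl⟩, rfl⟩ := (inst0 _ _).mp this
    exact ⟨n, m, rfl⟩
  · rintro ⟨n, m, rfl⟩
    constructor
    · intro a ha
      rw [mem_marked_T]
      simp only [List.mem_append] at ha
      rcases ha with (((ha | (ha | ha) | ha) | ha) | (ha | ha) | ha) | ha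
      · exact good 0 _ a (by omega) t0 ha
      · exact gU false a (mem_rep ha)
      · exact gW false a ha
      · exact gV false a (mem_rep ha)
      · exact good 0 _ a (by omega) t1 ha
      · exact gU true a (mem_rep ha)
      · exact gW true a ha
      · exact gV true a (mem_rep ha)
      · exact good 0 _ a (by omega) t2 ha
    · rcases gS.single_cases with e | ⟨γ, hp, hγ⟩
      · have := congrArg List.length e
        simp at this
        omega
      · obtain ⟨β', e, b1, b2, b3⟩ := iso_complete hG (Λ := Λ) (B := B)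
          (m₀ := Encodable.encode p₀) Dj hγ p₀
          (by simp only [p₀, Dj, map_ppr_mw, List.map_append, List.map_cons, ppr]; simp)
          (by
            intro n hn
            simp only [p₀, List.mem_append, List.mem_map, Sum.inl.injEq, exists_eq_right,
              List.mem_cons, reduceCtorEq, false_or, List.not_mem_nil] at hn
            rcases hn with (hn | hn) | hn
            · exact good 0 _ n (by omega) t0 hn
            · exact good 0 _ n (by omega) t1 hn
            · exact good 0 _ n (by omega) t2 hn)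
          (fun q hq => hB q (hq.trans s0)) _
          ((inst0 _ _).mpr ⟨_, hZ false n, _, hZ true m, rfl⟩)
        refine Gen.prod ?_ b2
        rw [marked_S, mem_marked_P]
        refine ⟨by simpa [e] using hp, by simpa using hB _ s0, b1, ?_⟩
        rw [spec_pair hG.2.1]
        exact b3

end Pool.Agent.P.MP_1e6486_lc
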