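import Mathlib
import Pool.Agent.P.MP_1e6486_lc.Force
import Pool.Agent.P.MP_1e6486_lc.Isolate

/-!
An EOL grammar generating a double pumping language has a non-context-free interpretation.
-/

namespace Pool.Agent.P.MP_1e6486_lc

theorem forall₂_split_right {R : ℕ → List ℕ → Prop} {γ : List ℕ} {ws₁ ws₂ : List (List ℕ)}
    {w : List ℕ} (h : List.Forall₂ R γ (ws₁ ++ w :: ws₂)) :
    ∃ γ₁ X γ₂, γ = γ₁ ++ X :: γ₂ ∧ List.Forall₂ R γ₁ ws₁ ∧ R X w ∧ List.Forall₂ R γ₂ ws₂ := by
  induction ws₁ generalizing γ with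
  | nil =>
    cases h with
    | cons h1 h2 => exact ⟨[], _, _, rfl, List.Forall₂.nil, h1, h2⟩
  | cons y ws₁ ih =>
    cases h with
    | cons h1 h2 =>
      obtain ⟨γ₁, X, γ₂, rfl, h3, h4, h5⟩ := ih h2
      exact ⟨_ :: γ₁, X, γ₂, rfl, List.Forall₂.cons h1 h3, h4, h5⟩

theorem imm_letter {H : Grammar} (hH : IsEOL H) {u : List ℕ} (hu : u ≠ [])
    (h : ∀ n, 1 ≤ n → ∃ s t, s ++ (rep u n ++ t) ∈ eolLang H ∧ ∀ w₁ b w₂,
      s ++ (rep u n ++ t) = w₁ ++ b ++ w₂ → b ≠ [] → (∀ c ∈ b, c ∈ u) → w₁ ++ w₂ ∉ eolLang H) :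
    ∃ a ∈ u, Imm H a := by
  by_contra hno
  push Not at hno
  obtain ⟨N₁, hN⟩ := exists_erase hH
  obtain ⟨s, t, hw, hdel⟩ := h (2 * H.K ^ N₁ + 1) (by omega)
  obtain ⟨ht, d, hd⟩ := mem_eolLang.mp hw
  have hul : 1 ≤ u.length := List.length_pos_iff.mpr hu
  have hrep : 2 * H.K ^ N₁ < (rep u (2 * H.K ^ N₁ + 1)).length := by
    rw [length_rep]
    have := Nat.le_mul_of_pos_right (2 * H.K ^ N₁ + 1) hul
    omega
  have hdN : N₁ ≤ d := by
    by_contra hlt
    have h1 := D_length_single hd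
    have h2 : H.K ^ d ≤ H.K ^ N₁ := Nat.pow_le_pow_right H.one_le_K (by omega)
    simp only [List.length_append] at h1
    omega
  obtain ⟨i, rfl⟩ := Nat.exists_eq_add_of_le' hdN
  obtain ⟨α, h1, h2⟩ := D_add.mp hd
  obtain ⟨ws, h3, e⟩ := D_forall₂ h2
  have hb : ∀ w ∈ ws, w.length ≤ H.K ^ N₁ := by
    intro w hw
    obtain ⟨ws₁, ws₂, rfl⟩ := List.append_of_mem hw
    obtain ⟨_, _, _, _, _, g, _⟩ := forall₂_split_right h3
    exact D_length_single g
  obtain ⟨ws₁, b, ws₂, rfl, hb1, hb2⟩ := block_inside hb e.symm hrep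
  obtain ⟨α₁, X, α₂, rfl, g1, g2, g3⟩ := forall₂_split_right h3
  have e' : s ++ (rep u (2 * H.K ^ N₁ + 1) ++ t) = ws₁.flatten ++ b ++ ws₂.flatten := by
    rw [e]; simp
  rw [e'] at ht
  obtain ⟨t12, t3⟩ := term_append.mp ht
  obtain ⟨t1, t2⟩ := term_append.mp t12
  have hX : X ∈ H.V := D_mem_V hH.1 (by simpa using hH.1.2.1) h1 X (by simp)
  have g4 := hN X hX b (fun y hy => ⟨t2 y hy, hno y (mem_rep (hb2 y hy))⟩) g2
  refine hdel _ b _ e' hb1 (fun c hc => mem_rep (hb2 c hc)) ?_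
  refine mem_eolLang.mpr ⟨term_append.mpr ⟨t1, t3⟩, i + N₁, h1.trans ?_⟩
  simpa using (D_of_forall₂ g1).append3 g4 (D_of_forall₂ g3)

/-- Order of the letter classes. -/
def OrdR (κ : ℕ → ℕ) (x y : ℕ) : Prop := κ x = 0 ∨ κ y = 0 ∨ κ x ≤ κ y

/-- Ordered words with nonzero classes in a given range. -/
def OrdW (κ : ℕ → ℕ) (lo hi : ℕ) (w : List ℕ) : Prop :=
  w.Pairwise (OrdR κ) ∧ ∀ x ∈ w, κ x = 0 ∨ (lo ≤ κ x ∧ κ x ≤ hi)

theorem OrdW.append {κ : ℕ → ℕ} {lo mid hi : ℕ} {u v : List ℕ} (h1 : OrdW κ lo mid u)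
    (h2 : OrdW κ mid hi v) (h3 : lo ≤ mid) (h4 : mid ≤ hi) : OrdW κ lo hi (u ++ v) := by
  refine ⟨List.pairwise_append.mpr ⟨h1.1, h2.1, fun x hx y hy => ?_⟩, fun x hx => ?_⟩
  · have := h1.2 x hx
    have := h2.2 y hy
    unfold OrdR
    omega
  · rcases List.mem_append.mp hx with hx | hx
    · have := h1.2 x hx
      omega
    · have := h2.2 x hx
      omega

theorem ordW_const {κ : ℕ → ℕ} {k lo hi : ℕ} {w : List ℕ} (h : ∀ x ∈ w, κ x = k)
    (hk : k = 0 ∨ (lo ≤ k ∧ k ≤ hi)) : OrdW κ lo hi w := by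
  refine ⟨List.pairwise_of_forall_mem_list fun x hx y hy => ?_, fun x hx => ?_⟩
  · have := h x hx
    have := h y hy
    unfold OrdR
    omega
  · rw [h x hx]
    exact hk

/-- Number of letters of a class. -/
def cls (κ : ℕ → ℕ) (k : ℕ) (w : List ℕ) : ℕ := w.countP (fun x => κ x = k)

theorem cls_nil (κ : ℕ → ℕ) (k : ℕ) : cls κ k [] = 0 := rfl

theorem cls_append (κ : ℕ → ℕ) (k : ℕ) (u v : List ℕ) :
    cls κ k (u ++ v) = cls κ k u + cls κ k v := List.countP_append

theorem cls_const {κ : ℕ → ℕ} {c : ℕ} {w : List ℕ} (h : ∀ x ∈ w, κ x = c) (k : ℕ) :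
    cls κ k w = if c = k then w.length else 0 := by
  unfold cls
  split_ifs with hc
  · rw [List.countP_eq_length]
    intro x hx
    simp [h x hx, hc]
  · rw [List.countP_eq_zero]
    intro x hx
    simp [h x hx, hc]

theorem cls_eq_zero {κ : ℕ → ℕ} {k : ℕ} {w : List ℕ} (h : ∀ x ∈ w, κ x ≠ k) : cls κ k w = 0 := by
  unfold cls
  rw [List.countP_eq_zero]
  intro x hx
  simpa using h x hx

theorem cls_pos {κ : ℕ → ℕ} {k a : ℕ} {w : List ℕ} (ha : a ∈ w) (h : κ a = k) : 0 < cls κ k w :=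
  List.countP_pos_iff.mpr ⟨a, ha, by simpa using h⟩

theorem cls_le_length (κ : ℕ → ℕ) (k : ℕ) (w : List ℕ) : cls κ k w ≤ w.length :=
  List.countP_le_length

theorem count_le_cls {κ : ℕ → ℕ} {k a : ℕ} (h : κ a = k) (w : List ℕ) : w.count a ≤ cls κ k w := by
  unfold cls List.count
  refine List.countP_mono_left fun x _ hx => ?_
  simp only [beq_iff_eq] at hx
  simp [hx, h]

theorem no_eol_form {H : Grammar} (hH : IsEOL H) {L : Set (List ℕ)} (hL : Shape L)
    (hHL : L \ {[]} = eolLang H \ {[]}) :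
    ∃ H', IsEOL H' ∧ SInterp H' H ∧ ∀ G : Grammar, G.WF → eolLang H' \ {[]} ≠ cfLang G \ {[]} := by
  obtain ⟨κ, u, v, u', v', x₀, w₀, x₁, w₁, x₂, hu, hv, hu', hv', ku, kv, ku', kv', k0, k1, k2,
    k3, k4, rfl⟩ := hL
  have lu : 1 ≤ u.length := List.length_pos_iff.mpr hu
  have lv : 1 ≤ v.length := List.length_pos_iff.mpr hv
  have lu' : 1 ≤ u'.length := List.length_pos_iff.mpr hu'
  have lv' : 1 ≤ v'.length := List.length_pos_iff.mpr hv'
  let W : ℕ → ℕ → List ℕ := fun n m =>
    x₀ ++ (rep u n ++ w₀ ++ rep v n) ++ x₁ ++ (rep u' m ++ w₁ ++ rep v' m) ++ x₂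
  have hcls : ∀ n m, cls κ 1 (W n m) = n * u.length ∧ cls κ 2 (W n m) = n * v.length ∧
      cls κ 3 (W n m) = m * u'.length ∧ cls κ 4 (W n m) = m * v'.length := by
    intro n m
    simp only [W, cls_append, cls_const k0, cls_const k1, cls_const k2, cls_const k3, cls_const k4,
      cls_const (fun x hx => ku x (mem_rep (i := n) hx)),
      cls_const (fun x hx => kv x (mem_rep (i := n) hx)),
      cls_const (fun x hx => ku' x (mem_rep (i := m) hx)),
      cls_const (fun x hx => kv' x (mem_rep (i := m) hx)), length_rep]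
    simp
  have hord : ∀ n m, (W n m).Pairwise (OrdR κ) := by
    intro n m
    have a0 : OrdW κ 1 1 x₀ := ordW_const k0 (Or.inl rfl)
    have a1 : OrdW κ 1 1 (rep u n) := ordW_const (fun x hx => ku x (mem_rep hx)) (by omega)
    have a2 : OrdW κ 1 2 w₀ := ordW_const k1 (Or.inl rfl)
    have a3 : OrdW κ 2 2 (rep v n) := ordW_const (fun x hx => kv x (mem_rep hx)) (by omega)
    have a4 : OrdW κ 2 3 x₁ := ordW_const k2 (Or.inl rfl)
    have a5 : OrdW κ 3 3 (rep u' m) := ordW_const (fun x hx => ku' x (mem_rep hx)) (by omega)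
    have a6 : OrdW κ 3 4 w₁ := ordW_const k3 (Or.inl rfl)
    have a7 : OrdW κ 4 4 (rep v' m) := ordW_const (fun x hx => kv' x (mem_rep hx)) (by omega)
    have a8 : OrdW κ 4 4 x₂ := ordW_const k4 (Or.inl rfl)
    exact ((((a0.append ((a1.append a2 (by omega) (by omega)).append a3 (by omega) (by omega))
      (by omega) (by omega)).append a4 (by omega) (by omega)).append
      ((a5.append a6 (by omega) (by omega)).append a7 (by omega) (by omega))
      (by omega) (by omega)).append a8 (by omega) (by omega)).1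
  have toW : ∀ w ∈ eolLang H, w ≠ [] → ∃ n m, w = W n m := by
    intro w hw hne
    have : w ∈ eolLang H \ {[]} := ⟨hw, hne⟩
    rw [← hHL] at this
    exact this.1
  have ofW : ∀ n, 1 ≤ n → W n n ∈ eolLang H := by
    intro n hn
    have hne : W n n ≠ [] := by
      intro h
      have := (hcls n n).1
      rw [h] at this
      have h2 : 0 < n * u.length := Nat.mul_pos hn lu
      rw [cls_nil] at this
      omega
    have : W n n ∈ {w | ∃ n m, w = W n m} \ {[]} := ⟨⟨n, n, rfl⟩, hne⟩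
    rw [hHL] at this
    exact this.1
  obtain ⟨a, ha, hia⟩ := imm_letter hH hu (by
    intro n hn
    have e : W n n = x₀ ++ (rep u n ++ (w₀ ++ rep v n ++ x₁ ++
      (rep u' n ++ w₁ ++ rep v' n) ++ x₂)) := by simp [W]
    refine ⟨_, _, e ▸ ofW n hn, fun s b t hs hb hbu hmem => ?_⟩
    rw [← e] at hs
    obtain ⟨c1, c2, _, _⟩ := hcls n n
    rw [hs] at c1 c2
    simp only [cls_append, cls_const (fun x hx => ku x (hbu x hx))] at c1 c2
    have hb' : 0 < b.length := List.length_pos_iff.mpr hb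
    have hpos : 0 < n * v.length := Nat.mul_pos hn lv
    obtain ⟨n', m', e'⟩ := toW _ hmem (by
      intro h0
      obtain ⟨rfl, rfl⟩ := List.append_eq_nil_iff.mp h0
      rw [cls_nil, if_neg (by omega)] at c2
      omega)
    obtain ⟨d1, d2, _, _⟩ := hcls n' m'
    rw [← e', cls_append] at d1 d2
    have : n' = n := Nat.eq_of_mul_eq_mul_right lv (by simp at c2; omega)
    subst this
    simp at c1
    omega)
  obtain ⟨e, he, hie⟩ := imm_letter hH hv' (by
    intro n hn
    have e : W n n = (x₀ ++ (rep u n ++ w₀ ++ rep v n) ++ x₁ ++ (rep u' n ++ w₁)) ++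
      (rep v' n ++ x₂) := by simp [W]
    refine ⟨_, _, e ▸ ofW n hn, fun s b t hs hb hbu hmem => ?_⟩
    rw [← e] at hs
    obtain ⟨_, _, c2, c1⟩ := hcls n n
    rw [hs] at c1 c2
    simp only [cls_append, cls_const (fun x hx => kv' x (hbu x hx))] at c1 c2
    have hb' : 0 < b.length := List.length_pos_iff.mpr hb
    have hpos : 0 < n * u'.length := Nat.mul_pos hn lu'
    obtain ⟨n', m', e'⟩ := toW _ hmem (by
      intro h0
      obtain ⟨rfl, rfl⟩ := List.append_eq_nil_iff.mp h0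
      rw [cls_nil, if_neg (by omega)] at c2
      omega)
    obtain ⟨_, _, d2, d1⟩ := hcls n' m'
    rw [← e', cls_append] at d1 d2
    have : m' = n := Nat.eq_of_mul_eq_mul_right lu' (by simp at c2; omega)
    subst this
    simp at c1
    omega)
  have ka : κ a = 1 := ku a ha
  have ke : κ e = 4 := kv' e he
  let x : Bool → ℕ := fun j => if j then e else a
  have hx : ∀ j, Imm H (x j) := fun j => by
    cases j
    · exact hia
    · exact hie
  have hwin : Win H x (u.length + v'.length) := by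
    intro s w t hmem hin j
    have ha' : a ∈ w := hin false
    have he' : e ∈ w := hin true
    obtain ⟨n, m, e'⟩ := toW _ hmem (by simp [List.ne_nil_of_mem ha'])
    obtain ⟨c1, c2, c3, c4⟩ := hcls n m
    have ho := hord n m
    rw [← e'] at c1 c2 c3 c4 ho
    obtain ⟨o1, _, o3⟩ := List.pairwise_append.mp ho
    obtain ⟨_, _, o4⟩ := List.pairwise_append.mp o1
    have z1 : ∀ k, 2 ≤ k → cls κ k s = 0 := fun k hk => cls_eq_zero fun z hz hk' => by
      have := o4 z hz a ha'
      unfold OrdR at this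
      omega
    have z2 : ∀ k, 1 ≤ k → k ≤ 3 → cls κ k t = 0 := fun k hk hk2 => cls_eq_zero fun z hz hk' => by
      have := o3 e (by simp [he']) z hz
      unfold OrdR at this
      omega
    rw [cls_append, cls_append, z1 _ (by omega), z2 _ (by omega) (by omega)] at c2 c3
    have b2 := cls_le_length κ 2 w
    have b3 := cls_le_length κ 3 w
    have hn : n ≤ w.length := by nlinarith
    have hm : m ≤ w.length := by nlinarith
    cases j
    · have := count_le_cls ka (s ++ w ++ t)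
      show (s ++ w ++ t).count a ≤ _
      nlinarith
    · have := count_le_cls ke (s ++ w ++ t)
      show (s ++ w ++ t).count e ≤ _
      nlinarith
  have hcount : ∀ (y : List ℕ) (c n : ℕ), c ∈ y → n ≤ (rep y n).count c := by
    intro y c n hc
    have := List.count_pos_iff.mpr hc
    unfold List.count at this ⊢
    rw [countP_rep]
    nlinarith
  have hbig : ∀ n, ∃ w ∈ eolLang H, ∀ j, n ≤ w.count (x j) := by
    intro n
    refine ⟨W (n + 1) (n + 1), ofW _ (by omega), fun j => ?_⟩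
    cases j
    · have := hcount u a (n + 1) ha
      show n ≤ (W (n + 1) (n + 1)).count a
      simp only [W, List.count_append]
      omega
    · have := hcount v' e (n + 1) he
      show n ≤ (W (n + 1) (n + 1)).count e
      simp only [W, List.count_append]
      omega
  obtain ⟨H', C, h1, h2, h3, h4, h5⟩ := exists_forcing hH hx hwin hbig
  refine ⟨H', h1, h2, fun G hG heq => ?_⟩
  obtain ⟨p, hp⟩ := pumping hG
  obtain ⟨w, hw, hF, hlen⟩ := h4 (p + 1)
  have hwG : w ∈ cfLang G := by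
    have : w ∈ eolLang H' \ {[]} := ⟨hw, fun h => by
      rw [Set.mem_singleton_iff.mp h] at hlen
      simp at hlen⟩
    rw [heq] at this
    exact this.1
  obtain ⟨tw, gw⟩ := mem_cfLang.mp hwG
  obtain ⟨s₁, s₂, s₃, s₄, s₅, rfl, hne, hpump⟩ := hp w gw hlen
  let z : ℕ → List ℕ := fun i => s₁ ++ rep s₂ i ++ s₃ ++ rep s₄ i ++ s₅
  have hsub : ∀ i, ∀ y ∈ z i, y ∈ s₁ ++ s₂ ++ s₃ ++ s₄ ++ s₅ := by
    intro i y hy
    simp only [z, List.mem_append] at hy ⊢
    rcases hy with (((hy | hy) | hy) | hy) | hy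
    · tauto
    · have := mem_rep hy; tauto
    · tauto
    · have := mem_rep hy; tauto
    · tauto
  have hl24 : 1 ≤ s₂.length + s₄.length := by
    have := List.length_pos_iff.mpr hne
    rw [List.length_append] at this
    omega
  have hzl : ∀ i, i ≤ (z i).length := by
    intro i
    simp only [z, List.length_append, length_rep]
    nlinarith
  have hz : ∀ i, 1 ≤ i → z i ∈ eolLang H' := by
    intro i hi
    have : z i ∈ cfLang G \ {[]} := ⟨mem_cfLang.mpr ⟨fun y hy => tw y (hsub i y hy), hpump i⟩,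
      fun h => by
        have := hzl i
        rw [Set.mem_singleton_iff.mp h] at this
        simp at this
        omega⟩
    rw [← heq] at this
    exact this.1
  have hj : ∃ j, x j ∉ s₂.map pr ∧ x j ∉ s₄.map pr := by
    by_contra hno
    push Not at hno
    have na : a ∈ s₂.map pr ∨ a ∈ s₄.map pr := by
      have := hno false
      by_cases h : a ∈ s₂.map pr
      · exact Or.inl h
      · exact Or.inr (this h)
    have ne' : e ∈ s₂.map pr ∨ e ∈ s₄.map pr := by
      have := hno true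
      by_cases h : e ∈ s₂.map pr
      · exact Or.inl h
      · exact Or.inr (this h)
    have m1 := h3 _ (hz 1 le_rfl)
    have m2 := h3 _ (hz 2 (by omega))
    simp only [z, rep_succ, rep_zero, List.append_nil, List.map_append] at m1 m2
    generalize s₁.map pr = t₁ at *
    generalize s₂.map pr = t₂ at *
    generalize s₃.map pr = t₃ at *
    generalize s₄.map pr = t₄ at *
    generalize s₅.map pr = t₅ at *
    obtain ⟨n, m, e1⟩ := toW _ m1 (by
      rcases na with h | h <;> simp [List.ne_nil_of_mem h])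
    obtain ⟨n', m', e2⟩ := toW _ m2 (by
      rcases na with h | h <;> simp [List.ne_nil_of_mem h])
    obtain ⟨c1, c2, _, _⟩ := hcls n m
    obtain ⟨d1, d2, _, _⟩ := hcls n' m'
    have ho := hord n' m'
    rw [← e1] at c1 c2
    rw [← e2] at d1 d2 ho
    obtain ⟨o1, _, _⟩ := List.pairwise_append.mp ho
    obtain ⟨o2, o3, o4⟩ := List.pairwise_append.mp o1
    obtain ⟨o5, _, _⟩ := List.pairwise_append.mp o2
    obtain ⟨_, o6, _⟩ := List.pairwise_append.mp o5
    obtain ⟨_, _, o22⟩ := List.pairwise_append.mp o6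
    obtain ⟨_, _, o44⟩ := List.pairwise_append.mp o3
    have a2 : a ∈ t₂ := by
      rcases na with h | h
      · exact h
      · rcases ne' with h' | h'
        · have := o4 e (by simp [h']) a (by simp [h])
          unfold OrdR at this
          omega
        · have := o44 e h' a h
          unfold OrdR at this
          omega
    have e4 : e ∈ t₄ := by
      rcases ne' with h' | h'
      · have := o22 e h' a a2
        unfold OrdR at this
        omega
      · exact h'
    have z2 : cls κ 2 t₂ = 0 := cls_eq_zero fun y hy hk => by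
      have := o22 y hy a a2
      unfold OrdR at this
      omega
    have z4 : cls κ 2 t₄ = 0 := cls_eq_zero fun y hy hk => by
      have := o44 e e4 y hy
      unfold OrdR at this
      omega
    have pos := cls_pos a2 ka
    simp only [cls_append, z2, z4] at c1 c2 d1 d2
    have : n' = n := Nat.eq_of_mul_eq_mul_right lv (by omega)
    subst this
    omega
  obtain ⟨j, j2, j4⟩ := hj
  have hc : ∀ i, cnt (x j) (z i) = cnt (x j) (z 0) := by
    intro i
    have r2 : cnt (x j) (rep s₂ i) = 0 := by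
      unfold cnt
      rw [map_rep]
      exact List.count_eq_zero.mpr fun h => j2 (mem_rep h)
    have r4 : cnt (x j) (rep s₄ i) = 0 := by
      unfold cnt
      rw [map_rep]
      exact List.count_eq_zero.mpr fun h => j4 (mem_rep h)
    simp only [z, cnt_append, r2, r4, rep_zero]
    simp [cnt]
  obtain ⟨_, d, hd⟩ := mem_eolLang.mp (hz (H'.K ^ (C * (cnt (x j) (z 0) + 1)) + 1) (by omega))
  have b1 := h5 d _ hd (fun y hy => hF y (hsub _ y hy)) j
  rw [hc] at b1
  have b2 := D_length_single hd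
  have b3 : H'.K ^ d ≤ H'.K ^ (C * (cnt (x j) (z 0) + 1)) := Nat.pow_le_pow_right H'.one_le_K b1
  have b4 := hzl (H'.K ^ (C * (cnt (x j) (z 0) + 1)) + 1)
  omega

theorem famS_le_lin {G H : Grammar} (h : FamEq (famEOL H) (famS G)) : FamLE (famS G) famLIN := by
  rintro _ ⟨G₁, hG₁, hi₁, rfl⟩
  by_cases hlin : cfLang G₁ ∈ famLIN
  · exact ⟨_, hlin, rfl⟩
  exfalso
  obtain ⟨G₂, hG₂, hi₂, hsh⟩ := exists_shape hG₁ (doubleSE_of_not_linear hG₁ hlin)
  obtain ⟨_, ⟨H₁, hH₁, hj₁, rfl⟩, he⟩ := h.2 _ ⟨G₂, hG₂, hi₂.trans hi₁ hG₁.1, rfl⟩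
  obtain ⟨H₂, hH₂, hj₂, hno⟩ := no_eol_form hH₁ hsh he
  obtain ⟨_, ⟨G₃, hG₃, _, rfl⟩, he'⟩ := h.1 _ ⟨H₂, hH₂, hj₂.trans hj₁ hH₁.1, rfl⟩
  exact hno G₃ hG₃.1 he'

end Pool.Agent.P.MP_1e6486_lc
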